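import Pool.Agent.Helper77.Pred.Defs

namespace Pool.Agent.Helper77.Pred

open MeasureTheory Real Set

section

variable {Y Z : Type*} [MeasurableSpace Y] [MeasurableSpace Z] {ν : Measure Y} {lam : Measure Z}
  [SFinite ν] [SFinite lam]

/-- The inner functional: `(∫ k² p^(1/3)) (∫ k³)^(-2/3)`. -/
noncomputable def innerF (lam : Measure Z) (p : Z → ℝ) (k : Y → Z → ℝ) (y : Y) : ENNReal :=
  (∫⁻ z, ENNReal.ofReal (k y z ^ 2 * p z ^ (1 / 3 : ℝ)) ∂lam) *
    (∫⁻ z, ENNReal.ofReal (k y z ^ 3) ∂lam) ^ (-(2 / 3 : ℝ))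

theorem fAlpha_third (x : ℝ) : fAlpha (1 / 3) x = 9 / 2 * (1 - x ^ (2 / 3 : ℝ)) := by
  unfold fAlpha
  norm_num

theorem young {a b : ℝ} (ha : 0 ≤ a) (hb : 0 ≤ b) :
    a ^ (2 / 3 : ℝ) * b ^ (1 / 3 : ℝ) ≤ 2 / 3 * a + 1 / 3 * b :=
  Real.geom_mean_le_arith_mean2_weighted (by norm_num) (by norm_num) ha hb (by norm_num)

theorem cube_rpow {x : ℝ} (hx : 0 ≤ x) : (x ^ 3) ^ (2 / 3 : ℝ) = x ^ 2 := by
  rw [← Real.rpow_natCast x 3, ← Real.rpow_mul hx, ← Real.rpow_natCast x 2]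
  norm_num

theorem rpow_split {q p : ℝ} (hq : 0 ≤ q) (hp : 0 < p) :
    (q / p) ^ (2 / 3 : ℝ) * p = q ^ (2 / 3 : ℝ) * p ^ (1 / 3 : ℝ) := by
  rw [Real.div_rpow hq hp.le]
  have : p = p ^ (2 / 3 : ℝ) * p ^ (1 / 3 : ℝ) := by
    rw [← Real.rpow_add hp]; norm_num
  have h2 : 0 < p ^ (2 / 3 : ℝ) := by positivity
  field_simp
  nth_rewrite 1 [this]
  ring

/-- For one `y`: value of the divergence integral. -/
theorem inner_value {p : Z → ℝ} {k : Z → ℝ} {q : Z → ℝ}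
    (hp : Measurable p) (hp0 : ∀ z, 0 < p z) (hp1 : ∫⁻ z, ENNReal.ofReal (p z) ∂lam = 1)
    (hk : Measurable k) (hk0 : ∀ z, 0 ≤ k z)
    (hK0 : ∫⁻ z, ENNReal.ofReal (k z ^ 3) ∂lam ≠ 0)
    (hKtop : ∫⁻ z, ENNReal.ofReal (k z ^ 3) ∂lam ≠ ⊤)
    (hq : ∀ᵐ z ∂lam, q z = k z ^ 3 / (∫⁻ z, ENNReal.ofReal (k z ^ 3) ∂lam).toReal) :
    (∫⁻ z, ENNReal.ofReal (k z ^ 2 * p z ^ (1 / 3 : ℝ)) ∂lam) *
      (∫⁻ z, ENNReal.ofReal (k z ^ 3) ∂lam) ^ (-(2 / 3 : ℝ)) ≤ 1 ∧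
    ∫ z, fAlpha (1 / 3) (q z / p z) * p z ∂lam = 9 / 2 * (1 -
      ((∫⁻ z, ENNReal.ofReal (k z ^ 2 * p z ^ (1 / 3 : ℝ)) ∂lam) *
      (∫⁻ z, ENNReal.ofReal (k z ^ 3) ∂lam) ^ (-(2 / 3 : ℝ))).toReal) := by
  set K := ∫⁻ z, ENNReal.ofReal (k z ^ 3) ∂lam with hKdef
  set Kr := K.toReal with hKr
  have hKr0 : 0 < Kr := ENNReal.toReal_pos hK0 hKtop
  have hKe : K = ENNReal.ofReal Kr := (ENNReal.ofReal_toReal hKtop).symm
  have hpi : Integrable p lam := by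
    refine ⟨hp.aestronglyMeasurable, ?_⟩
    rw [hasFiniteIntegral_iff_ofReal (Filter.Eventually.of_forall fun z => (hp0 z).le), hp1]
    exact ENNReal.one_lt_top
  have hpint : ∫ z, p z ∂lam = 1 := by
    rw [integral_eq_lintegral_of_nonneg_ae (Filter.Eventually.of_forall fun z => (hp0 z).le)
      hp.aestronglyMeasurable, hp1, ENNReal.toReal_one]
  have hk3i : Integrable (fun z => k z ^ 3) lam := by
    refine ⟨(hk.pow_const 3).aestronglyMeasurable, ?_⟩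
    rw [hasFiniteIntegral_iff_ofReal (Filter.Eventually.of_forall fun z => by
      have := hk0 z; positivity)]
    exact lt_top_iff_ne_top.2 hKtop
  have hk3int : ∫ z, k z ^ 3 ∂lam = Kr := by
    rw [integral_eq_lintegral_of_nonneg_ae (Filter.Eventually.of_forall fun z => by
      have := hk0 z; positivity) (hk.pow_const 3).aestronglyMeasurable]
  -- the product
  have hle : ∀ z, k z ^ 2 * p z ^ (1 / 3 : ℝ) * Kr ^ (-(2 / 3 : ℝ)) ≤
      2 / 3 * (k z ^ 3 / Kr) + 1 / 3 * p z := by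
    intro z
    have h1 := young (a := k z ^ 3 / Kr) (b := p z) (by have := hk0 z; positivity) (hp0 z).le
    rw [Real.div_rpow (by have := hk0 z; positivity) hKr0.le, cube_rpow (hk0 z)] at h1
    rw [Real.rpow_neg hKr0.le]
    calc _ = k z ^ 2 / Kr ^ (2 / 3 : ℝ) * p z ^ (1 / 3 : ℝ) := by field_simp
      _ ≤ _ := h1
  have hm : Measurable (fun z => k z ^ 2 * p z ^ (1 / 3 : ℝ)) :=
    (hk.pow_const 2).mul (hp.pow_const _)
  have hpos : ∀ z, 0 ≤ k z ^ 2 * p z ^ (1 / 3 : ℝ) * Kr ^ (-(2 / 3 : ℝ)) := by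
    intro z
    have := hp0 z
    positivity
  have hbi : Integrable (fun z => 2 / 3 * (k z ^ 3 / Kr) + 1 / 3 * p z) lam :=
    ((hk3i.div_const Kr).const_mul _).add (hpi.const_mul _)
  have hgi : Integrable (fun z => k z ^ 2 * p z ^ (1 / 3 : ℝ) * Kr ^ (-(2 / 3 : ℝ))) lam := by
    refine hbi.mono (hm.mul_const _).aestronglyMeasurable (Filter.Eventually.of_forall fun z => ?_)
    rw [Real.norm_of_nonneg (hpos z)]
    exact (hle z).trans (le_abs_self _)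
  have hgint : ∫ z, k z ^ 2 * p z ^ (1 / 3 : ℝ) * Kr ^ (-(2 / 3 : ℝ)) ∂lam ≤ 1 := by
    calc _ ≤ ∫ z, (2 / 3 * (k z ^ 3 / Kr) + 1 / 3 * p z) ∂lam := integral_mono hgi hbi hle
      _ = 1 := by
        rw [integral_add ((hk3i.div_const Kr).const_mul _) (hpi.const_mul _),
          integral_const_mul, integral_const_mul, integral_div, hk3int, hpint, div_self hKr0.ne']
        norm_num
  have hA : (∫⁻ z, ENNReal.ofReal (k z ^ 2 * p z ^ (1 / 3 : ℝ)) ∂lam) * K ^ (-(2 / 3 : ℝ)) =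
      ENNReal.ofReal (∫ z, k z ^ 2 * p z ^ (1 / 3 : ℝ) * Kr ^ (-(2 / 3 : ℝ)) ∂lam) := by
    rw [ofReal_integral_eq_lintegral_ofReal hgi (Filter.Eventually.of_forall hpos)]
    rw [hKe, ENNReal.ofReal_rpow_of_pos hKr0, ← lintegral_mul_const]
    · apply lintegral_congr
      intro z
      rw [← ENNReal.ofReal_mul]
      have := hp0 z
      positivity
    · exact ENNReal.measurable_ofReal.comp hm
  refine ⟨?_, ?_⟩
  · rw [hA]
    exact ENNReal.ofReal_le_one.2 hgint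
  · rw [hA, ENNReal.toReal_ofReal (integral_nonneg hpos)]
    have h1 : ∀ᵐ z ∂lam, fAlpha (1 / 3) (q z / p z) * p z =
        9 / 2 * (p z - k z ^ 2 * p z ^ (1 / 3 : ℝ) * Kr ^ (-(2 / 3 : ℝ))) := by
      filter_upwards [hq] with z hz
      have hq0 : 0 ≤ q z := by rw [hz]; have := hk0 z; positivity
      rw [fAlpha_third, mul_assoc, sub_mul, rpow_split hq0 (hp0 z), hz,
        Real.div_rpow (by have := hk0 z; positivity) hKr0.le, cube_rpow (hk0 z),
        Real.rpow_neg hKr0.le]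
      ring
    rw [integral_congr_ae h1, integral_const_mul, integral_sub hpi hgi, hpint]

theorem risk_abs {p : Z → ℝ} {pY : Y → ℝ} {k : Y → Z → ℝ} {q : Z → Y → ℝ}
    (hp : Measurable p) (hp0 : ∀ z, 0 < p z) (hp1 : ∫⁻ z, ENNReal.ofReal (p z) ∂lam = 1)
    (hpY : Measurable pY) (hpY0 : ∀ y, 0 ≤ pY y) (hpY1 : ∫⁻ y, ENNReal.ofReal (pY y) ∂ν = 1)
    (hk : Measurable (Function.uncurry k)) (hk0 : ∀ y z, 0 ≤ k y z)
    (hK0 : ∀ᵐ y ∂ν, ∫⁻ z, ENNReal.ofReal (k y z ^ 3) ∂lam ≠ 0)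
    (hKtop : ∀ᵐ y ∂ν, ∫⁻ z, ENNReal.ofReal (k y z ^ 3) ∂lam ≠ ⊤)
    (hq : ∀ᵐ y ∂ν, ∀ᵐ z ∂lam,
      q z y = k y z ^ 3 / (∫⁻ z, ENNReal.ofReal (k y z ^ 3) ∂lam).toReal) :
    ∫⁻ y, innerF lam p k y * ENNReal.ofReal (pY y) ∂ν ≤ 1 ∧
    ∫ y, (∫ z, fAlpha (1 / 3) (q z y / p z) * p z ∂lam) * pY y ∂ν =
      9 / 2 * (1 - (∫⁻ y, innerF lam p k y * ENNReal.ofReal (pY y) ∂ν).toReal) := by
  have hky : ∀ y, Measurable (k y) := fun y => hk.comp measurable_prodMk_left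
  have hinner : Measurable (innerF lam p k) := by
    unfold innerF
    apply Measurable.mul
    · apply Measurable.lintegral_prod_right' (f := fun x : Y × Z =>
        ENNReal.ofReal (k x.1 x.2 ^ 2 * p x.2 ^ (1 / 3 : ℝ)))
      exact ENNReal.measurable_ofReal.comp
        ((hk.pow_const 2).mul ((hp.comp measurable_snd).pow_const _))
    · apply Measurable.pow_const
      apply Measurable.lintegral_prod_right' (f := fun x : Y × Z =>
        ENNReal.ofReal (k x.1 x.2 ^ 3))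
      exact ENNReal.measurable_ofReal.comp (hk.pow_const 3)
  have hall : ∀ᵐ y ∂ν, innerF lam p k y ≤ 1 ∧
      ∫ z, fAlpha (1 / 3) (q z y / p z) * p z ∂lam = 9 / 2 * (1 - (innerF lam p k y).toReal) := by
    filter_upwards [hK0, hKtop, hq] with y h1 h2 h3
    exact inner_value hp hp0 hp1 (hky y) (hk0 y) h1 h2 h3
  have hpYi : Integrable pY ν := by
    refine ⟨hpY.aestronglyMeasurable, ?_⟩
    rw [hasFiniteIntegral_iff_ofReal (Filter.Eventually.of_forall hpY0), hpY1]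
    exact ENNReal.one_lt_top
  have hpYint : ∫ y, pY y ∂ν = 1 := by
    rw [integral_eq_lintegral_of_nonneg_ae (Filter.Eventually.of_forall hpY0)
      hpY.aestronglyMeasurable, hpY1, ENNReal.toReal_one]
  have hle : ∫⁻ y, innerF lam p k y * ENNReal.ofReal (pY y) ∂ν ≤ 1 := by
    rw [← hpY1]
    apply lintegral_mono_ae
    filter_upwards [hall] with y hy
    calc innerF lam p k y * ENNReal.ofReal (pY y) ≤ 1 * ENNReal.ofReal (pY y) := by
          gcongr; exact hy.1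
      _ = _ := one_mul _
  refine ⟨hle, ?_⟩
  have hgi : Integrable (fun y => (innerF lam p k y).toReal * pY y) ν := by
    refine hpYi.mono ((hinner.ennreal_toReal.mul hpY).aestronglyMeasurable) ?_
    filter_upwards [hall] with y hy
    rw [norm_mul, Real.norm_of_nonneg ENNReal.toReal_nonneg]
    calc (innerF lam p k y).toReal * ‖pY y‖ ≤ 1 * ‖pY y‖ := by
          gcongr
          exact ENNReal.toReal_le_of_le_ofReal zero_le_one (by simpa using hy.1)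
      _ = _ := one_mul _
  have h1 : ∀ᵐ y ∂ν, (∫ z, fAlpha (1 / 3) (q z y / p z) * p z ∂lam) * pY y =
      9 / 2 * (pY y - (innerF lam p k y).toReal * pY y) := by
    filter_upwards [hall] with y hy
    rw [hy.2]; ring
  rw [integral_congr_ae h1, integral_const_mul, integral_sub hpYi hgi, hpYint]
  congr 2
  rw [integral_eq_lintegral_of_nonneg_ae (Filter.Eventually.of_forall fun y =>
    mul_nonneg ENNReal.toReal_nonneg (hpY0 y)) ((hinner.ennreal_toReal.mul hpY).aestronglyMeasurable)]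
  congr 1
  apply lintegral_congr_ae
  filter_upwards [hall] with y hy
  rw [ENNReal.ofReal_mul ENNReal.toReal_nonneg, ENNReal.ofReal_toReal]
  exact ne_top_of_le_ne_top ENNReal.one_ne_top hy.1

end

end Pool.Agent.Helper77.Pred
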