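import Pool.Agent.Helper77.Pred.Gauss

namespace Pool.Agent.Helper77.Pred

open MeasureTheory Real Set

/-- `ℝ^4`. -/
abbrev V4 := Fin 4 → ℝ

/-- `ℝ × ℝ^4`. -/
abbrev T5 := ℝ × V4

noncomputable def Lam (t : T5) : ℝ := 1 + (t.1 ^ 2 + nsq t.2)

theorem one_le_Lam (t : T5) : 1 ≤ Lam t := by
  have := nsq_nonneg t.2
  have := sq_nonneg t.1
  unfold Lam
  linarith

theorem Lam_pos (t : T5) : 0 < Lam t := one_pos.trans_le (one_le_Lam t)

theorem continuous_Lam : Continuous Lam := by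
  unfold Lam
  have := continuous_nsq
  fun_prop

theorem measurable_Lam : Measurable Lam := continuous_Lam.measurable

noncomputable def muf (y w : T5) : V4 := y.2 + (1 / 4 : ℝ) • (w.2 - y.2)

noncomputable def Qf (y w : T5) : ℝ := y.1 ^ 2 + w.1 ^ 2 / 3 + nsq (w.2 - y.2) / 4

theorem nsq_smul (c : ℝ) (x : V4) : nsq (c • x) = c ^ 2 * nsq x := by
  simp only [nsq, Pi.smul_apply, smul_eq_mul, mul_pow, Finset.mul_sum]

theorem lint_smul4 {c : ℝ} (hc : c ≠ 0) {f : V4 → ENNReal} (hf : Measurable f) :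
    ∫⁻ x, f x = ENNReal.ofReal (|c| ^ 4) * ∫⁻ x, f (c • x) := by
  have h1 := Measure.map_addHaar_smul (volume : Measure V4) hc
  have h2 : ∫⁻ x, f (c • x) = ∫⁻ x, f x ∂(Measure.map (c • ·) (volume : Measure V4)) := by
    rw [lintegral_map hf (measurable_const_smul c)]
  rw [h2, h1, lintegral_smul_measure]
  simp only [Module.finrank_fintype_fun_eq_card, Fintype.card_fin, smul_eq_mul]
  rw [← mul_assoc, ← ENNReal.ofReal_mul (by positivity)]
  have : |c| ^ 4 * |(c ^ 4)⁻¹| = 1 := by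
    rw [abs_inv, abs_pow]
    have : 0 < |c| := abs_pos.2 hc
    field_simp
  rw [this, ENNReal.ofReal_one, one_mul]

theorem lint_smul1 {c : ℝ} (hc : c ≠ 0) {f : ℝ → ENNReal} (hf : Measurable f) :
    ∫⁻ x, f x = ENNReal.ofReal |c| * ∫⁻ x, f (c * x) := by
  have h1 := Measure.map_addHaar_smul (volume : Measure ℝ) hc
  have h2 : ∫⁻ x, f (c * x) = ∫⁻ x, f x ∂(Measure.map (c • ·) (volume : Measure ℝ)) := by
    rw [lintegral_map hf (measurable_const_smul c)]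
    rfl
  rw [h2, h1, lintegral_smul_measure]
  simp only [Module.finrank_self, pow_one, smul_eq_mul]
  rw [← mul_assoc, ← ENNReal.ofReal_mul (by positivity)]
  have : |c| * |c⁻¹| = 1 := by
    rw [abs_inv]
    have : 0 < |c| := abs_pos.2 hc
    field_simp
  rw [this, ENNReal.ofReal_one, one_mul]

/-- Change of variables `w = (√3 s t₀, y₁ + 2 s t₁)`. -/
theorem lint_scale {s : ℝ} (hs : s ≠ 0) (y₁ : V4) {f : T5 → ENNReal} (hf : Measurable f) :
    ∫⁻ w, f w = ENNReal.ofReal (16 * √3 * |s| ^ 5) *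
      ∫⁻ t : T5, f (√3 * s * t.1, y₁ + (2 * s) • t.2) := by
  have h3 : (√3 : ℝ) ≠ 0 := by positivity
  have hf1 : ∀ w : ℝ, Measurable fun x : V4 => f (w, x) := fun w => hf.comp measurable_prodMk_left
  rw [Measure.volume_eq_prod, lintegral_prod _ hf.aemeasurable, lintegral_prod _ (by fun_prop)]
  have e1 : ∀ w : ℝ, ∫⁻ x : V4, f (w, x) =
      ENNReal.ofReal (|2 * s| ^ 4) * ∫⁻ x : V4, f (w, y₁ + (2 * s) • x) := by
    intro w
    rw [← lintegral_add_left_eq_self (fun x : V4 => f (w, x)) y₁]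
    exact lint_smul4 (mul_ne_zero two_ne_zero hs)
      ((hf1 w).comp (measurable_const_add y₁))
  simp_rw [e1]
  have hm : Measurable fun w : ℝ => ∫⁻ x : V4, f (w, y₁ + (2 * s) • x) :=
    Measurable.lintegral_prod_right' (f := fun z : ℝ × V4 => f (z.1, y₁ + (2 * s) • z.2))
      (by fun_prop)
  rw [lintegral_const_mul _ hm, lint_smul1 (c := √3 * s) (mul_ne_zero h3 hs) hm, ← mul_assoc,
    ← ENNReal.ofReal_mul (by positivity)]
  congr 2
  rw [abs_mul, abs_mul, abs_of_pos (show (0:ℝ) < 2 by norm_num), abs_of_pos (show 0 < √3 by positivity)]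
  ring

theorem muf_scale (s : ℝ) (y₁ : V4) (t : T5) :
    muf (s, y₁) (√3 * s * t.1, y₁ + (2 * s) • t.2) = y₁ + (s / 2) • t.2 := by
  ext i
  simp only [muf, Pi.add_apply, Pi.smul_apply, Pi.sub_apply, smul_eq_mul]
  ring

theorem Qf_scale (s : ℝ) (y₁ : V4) (t : T5) :
    Qf (s, y₁) (√3 * s * t.1, y₁ + (2 * s) • t.2) = s ^ 2 * Lam t := by
  simp only [Qf, Lam, add_sub_cancel_left, nsq_smul]
  rw [mul_pow, mul_pow, Real.sq_sqrt (by norm_num)]
  ring

@[irreducible] noncomputable def Dk (κ : V4 → ℝ → ENNReal) (y₁ : V4) (s : ℝ) : ENNReal :=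
  ∫⁻ t : T5, κ (y₁ + (s / 2) • t.2) (s ^ 2 * Lam t) ^ 3

@[irreducible] noncomputable def Psi (κ : V4 → ℝ → ENNReal) (μ : V4) : ENNReal :=
  ∫⁻ t : T5, ∫⁻ σ : ℝ, ENNReal.ofReal (|σ| ^ (5 / 3 : ℝ) * exp (-(σ ^ 2 / 2)) *
    Lam t ^ (-(4 / 3 : ℝ))) * (κ μ (σ ^ 2) ^ 2 *
      Dk κ (μ - (σ / √(Lam t) / 2) • t.2) (σ / √(Lam t)) ^ (-(2 / 3 : ℝ)))

/-- Gaussian factor. -/
@[irreducible] noncomputable def Eb (β μ : V4) (Q : ℝ) : ENNReal :=
  ENNReal.ofReal ((2 * π) ^ (-(10 / 3 : ℝ)) * exp (-(2 / 3 * nsq (μ - β)) - Q / 2))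

@[irreducible] noncomputable def FF (κ : V4 → ℝ → ENNReal) (β : V4) : ENNReal :=
  ∫⁻ y : T5, (∫⁻ w : T5, κ (muf y w) (Qf y w) ^ 2 * Eb β (muf y w) (Qf y w)) *
    (∫⁻ w : T5, κ (muf y w) (Qf y w) ^ 3) ^ (-(2 / 3 : ℝ))

@[irreducible] noncomputable def C0 : ℝ := (2 * π) ^ (-(10 / 3 : ℝ)) * (16 * √3) ^ (1 / 3 : ℝ)

theorem C0_pos : 0 < C0 := by unfold C0; positivity

theorem measurable_Dk {κ : V4 → ℝ → ENNReal} (hκ : Measurable (Function.uncurry κ)) :
    Measurable (Function.uncurry (Dk κ)) := by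
  unfold Dk
  apply Measurable.lintegral_prod_right' (f := fun z : (V4 × ℝ) × T5 =>
    κ (z.1.1 + (z.1.2 / 2) • z.2.2) (z.1.2 ^ 2 * Lam z.2) ^ 3)
  apply Measurable.pow_const
  have h : Measurable fun z : (V4 × ℝ) × T5 =>
      (z.1.1 + (z.1.2 / 2) • z.2.2, z.1.2 ^ 2 * Lam z.2) :=
    (measurable_fst.fst.add ((measurable_fst.snd.div_const 2).smul measurable_snd.snd)).prodMk
      ((measurable_fst.snd.pow_const 2).mul (measurable_Lam.comp measurable_snd))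
  exact hκ.comp h

theorem measurable_muf : Measurable (Function.uncurry muf) := by
  unfold muf Function.uncurry
  fun_prop

theorem measurable_Qf : Measurable (Function.uncurry Qf) := by
  unfold Qf Function.uncurry
  have := measurable_nsq
  fun_prop

theorem measurable_Eb (β : V4) : Measurable (Function.uncurry (Eb β)) := by
  unfold Eb Function.uncurry
  have := measurable_nsq
  fun_prop

/-- The combined integrand. -/
@[irreducible] noncomputable def Phi (κ : V4 → ℝ → ENNReal) (β : V4) (s : ℝ) (t : T5) (μ : V4) : ENNReal :=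
  ENNReal.ofReal ((16 * √3) ^ (1 / 3 : ℝ) * |s| ^ (5 / 3 : ℝ)) *
    (κ μ (s ^ 2 * Lam t) ^ 2 * Eb β μ (s ^ 2 * Lam t) *
      Dk κ (μ - (s / 2) • t.2) s ^ (-(2 / 3 : ℝ)))

theorem measurable_Phi {κ : V4 → ℝ → ENNReal} (hκ : Measurable (Function.uncurry κ)) (β : V4) :
    Measurable fun z : ℝ × T5 × V4 => Phi κ β z.1 z.2.1 z.2.2 := by
  unfold Phi
  have hL := measurable_Lam
  have h1 : Measurable fun z : ℝ × T5 × V4 => (z.2.2, z.1 ^ 2 * Lam z.2.1) :=
    measurable_snd.snd.prodMk ((measurable_fst.pow_const 2).mul (hL.comp measurable_snd.fst))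
  have h2 : Measurable fun z : ℝ × T5 × V4 => (z.2.2 - (z.1 / 2) • z.2.1.2, z.1) :=
    (measurable_snd.snd.sub ((measurable_fst.div_const 2).smul
      measurable_snd.fst.snd)).prodMk measurable_fst
  have hA : Measurable fun z : ℝ × T5 × V4 => κ z.2.2 (z.1 ^ 2 * Lam z.2.1) := hκ.comp h1
  have hB : Measurable fun z : ℝ × T5 × V4 => Eb β z.2.2 (z.1 ^ 2 * Lam z.2.1) :=
    (measurable_Eb β).comp h1
  have hC : Measurable fun z : ℝ × T5 × V4 => Dk κ (z.2.2 - (z.1 / 2) • z.2.1.2) z.1 :=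
    (measurable_Dk hκ).comp h2
  have hE : Measurable fun z : ℝ × T5 × V4 =>
      ENNReal.ofReal ((16 * √3) ^ (1 / 3 : ℝ) * |z.1| ^ (5 / 3 : ℝ)) := by
    fun_prop
  exact hE.mul (((hA.pow_const 2).mul hB).mul (hC.pow_const _))

theorem ofReal_mul_rpow {j : ℝ} (hj : 0 < j) (D : ENNReal) :
    (ENNReal.ofReal j * D) ^ (-(2 / 3 : ℝ)) =
      ENNReal.ofReal (j ^ (-(2 / 3 : ℝ))) * D ^ (-(2 / 3 : ℝ)) := by
  have hj1 : ENNReal.ofReal j ≠ 0 := (ENNReal.ofReal_pos.2 hj).ne'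
  rw [ENNReal.rpow_neg, ENNReal.mul_rpow_of_nonneg _ _ (by norm_num), ENNReal.mul_inv,
    ← ENNReal.rpow_neg, ← ENNReal.rpow_neg, ENNReal.ofReal_rpow_of_pos hj]
  · left
    rw [ENNReal.ofReal_rpow_of_pos hj]
    exact (ENNReal.ofReal_pos.2 (by positivity)).ne'
  · left
    rw [ENNReal.ofReal_rpow_of_pos hj]
    exact ENNReal.ofReal_ne_top

theorem FF_step {κ : V4 → ℝ → ENNReal} (hκ : Measurable (Function.uncurry κ)) (β : V4) {s : ℝ}
    (hs : s ≠ 0) :
    ∫⁻ y₁ : V4, (∫⁻ w : T5, κ (muf (s, y₁) w) (Qf (s, y₁) w) ^ 2 *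
        Eb β (muf (s, y₁) w) (Qf (s, y₁) w)) *
      (∫⁻ w : T5, κ (muf (s, y₁) w) (Qf (s, y₁) w) ^ 3) ^ (-(2 / 3 : ℝ)) =
    ∫⁻ t : T5, ∫⁻ μ : V4, Phi κ β s t μ := by
  have hL := measurable_Lam
  have hj : 0 < 16 * √3 * |s| ^ 5 := by
    have : 0 < |s| := abs_pos.2 hs
    positivity
  have hmq : ∀ y : T5, Measurable fun w : T5 => (muf y w, Qf y w) := fun y =>
    (measurable_muf.comp measurable_prodMk_left).prodMk (measurable_Qf.comp measurable_prodMk_left)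
  have h1 : ∀ y₁ : V4, (∫⁻ w : T5, κ (muf (s, y₁) w) (Qf (s, y₁) w) ^ 2 *
        Eb β (muf (s, y₁) w) (Qf (s, y₁) w)) *
      (∫⁻ w : T5, κ (muf (s, y₁) w) (Qf (s, y₁) w) ^ 3) ^ (-(2 / 3 : ℝ)) =
      ∫⁻ t : T5, Phi κ β s t (y₁ + (s / 2) • t.2) := by
    intro y₁
    have hA : Measurable fun w : T5 => κ (muf (s, y₁) w) (Qf (s, y₁) w) := hκ.comp (hmq _)
    have hB : Measurable fun w : T5 => Eb β (muf (s, y₁) w) (Qf (s, y₁) w) :=
      (measurable_Eb β).comp (hmq _)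
    have hAB : Measurable fun w : T5 => κ (muf (s, y₁) w) (Qf (s, y₁) w) ^ 2 *
        Eb β (muf (s, y₁) w) (Qf (s, y₁) w) := (hA.pow_const 2).mul hB
    rw [lint_scale hs y₁ hAB, lint_scale hs y₁ (hA.pow_const 3)]
    simp_rw [muf_scale, Qf_scale]
    rw [ofReal_mul_rpow hj]
    have hD : ∫⁻ t : T5, κ (y₁ + (s / 2) • t.2) (s ^ 2 * Lam t) ^ 3 = Dk κ y₁ s := by rw [Dk]
    rw [hD]
    have h2 : Measurable fun t : T5 => (y₁ + (s / 2) • t.2, s ^ 2 * Lam t) :=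
      (measurable_const.add (measurable_snd.const_smul (s / 2))).prodMk (hL.const_mul _)
    have h3a : Measurable fun t : T5 => κ (y₁ + (s / 2) • t.2) (s ^ 2 * Lam t) := hκ.comp h2
    have h3b : Measurable fun t : T5 => Eb β (y₁ + (s / 2) • t.2) (s ^ 2 * Lam t) :=
      (measurable_Eb β).comp h2
    have h3 : Measurable fun t : T5 => κ (y₁ + (s / 2) • t.2) (s ^ 2 * Lam t) ^ 2 *
        Eb β (y₁ + (s / 2) • t.2) (s ^ 2 * Lam t) :=
      (h3a.pow_const 2).mul h3b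
    calc _ = (ENNReal.ofReal (16 * √3 * |s| ^ 5) *
          ENNReal.ofReal ((16 * √3 * |s| ^ 5) ^ (-(2 / 3 : ℝ)))) *
          ((∫⁻ t : T5, κ (y₁ + (s / 2) • t.2) (s ^ 2 * Lam t) ^ 2 *
        Eb β (y₁ + (s / 2) • t.2) (s ^ 2 * Lam t)) * Dk κ y₁ s ^ (-(2 / 3 : ℝ))) := by ring
      _ = _ := by
        rw [← ENNReal.ofReal_mul hj.le, ← lintegral_mul_const _ h3, ← lintegral_const_mul _
          (h3.mul_const _)]
        apply lintegral_congr
        intro t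
        unfold Phi
        congr 2
        · have e1 : (16 * √3 * |s| ^ 5) * (16 * √3 * |s| ^ 5) ^ (-(2 / 3 : ℝ)) =
              (16 * √3 * |s| ^ 5) ^ (1 / 3 : ℝ) := by
            nth_rewrite 1 [← Real.rpow_one (16 * √3 * |s| ^ 5)]
            rw [← Real.rpow_add hj]
            norm_num
          rw [e1, Real.mul_rpow (by positivity) (by positivity), ← Real.rpow_natCast |s| 5,
            ← Real.rpow_mul (abs_nonneg s)]
          norm_num
        · rw [add_sub_cancel_right]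
  simp_rw [h1]
  have hPhi := measurable_Phi hκ β
  rw [lintegral_lintegral_swap]
  · apply lintegral_congr
    intro t
    exact lintegral_add_right_eq_self (fun μ : V4 => Phi κ β s t μ) ((s / 2) • t.2)
  · apply Measurable.aemeasurable
    have h4 : Measurable fun z : V4 × T5 => ((s, z.2, z.1 + (s / 2) • z.2.2) : ℝ × T5 × V4) :=
      measurable_const.prodMk (measurable_snd.prodMk
        (measurable_fst.add (measurable_snd.snd.const_smul (s / 2))))
    exact hPhi.comp h4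

theorem FF_eq {κ : V4 → ℝ → ENNReal} (hκ : Measurable (Function.uncurry κ)) (β : V4) :
    FF κ β = ENNReal.ofReal C0 *
      ∫⁻ μ : V4, ENNReal.ofReal (exp (-(2 / 3 * nsq (μ - β)))) * Psi κ μ := by
  have hL := measurable_Lam
  have hPhi := measurable_Phi hκ β
  have hDk := measurable_Dk hκ
  unfold FF
  have hmq : Measurable fun z : T5 × T5 => (muf z.1 z.2, Qf z.1 z.2) :=
    measurable_muf.prodMk measurable_Qf
  have hA : Measurable fun z : T5 × T5 => κ (muf z.1 z.2) (Qf z.1 z.2) := hκ.comp hmq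
  have hB : Measurable fun z : T5 × T5 => Eb β (muf z.1 z.2) (Qf z.1 z.2) :=
    (measurable_Eb β).comp hmq
  rw [Measure.volume_eq_prod ℝ V4, lintegral_prod]
  · have h1 : ∀ᵐ s : ℝ, ∫⁻ y₁ : V4, (∫⁻ w : T5, κ (muf (s, y₁) w) (Qf (s, y₁) w) ^ 2 *
        Eb β (muf (s, y₁) w) (Qf (s, y₁) w)) *
      (∫⁻ w : T5, κ (muf (s, y₁) w) (Qf (s, y₁) w) ^ 3) ^ (-(2 / 3 : ℝ)) =
      ∫⁻ t : T5, ∫⁻ μ : V4, Phi κ β s t μ := by
      have : (volume : Measure ℝ) {0} = 0 := measure_singleton 0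
      filter_upwards [measure_eq_zero_iff_ae_notMem.1 this] with s hs
      exact FF_step hκ β (by simpa using hs)
    have h2 : ∫⁻ s : ℝ, ∫⁻ y₁ : V4, (∫⁻ w : T5, κ (muf (s, y₁) w) (Qf (s, y₁) w) ^ 2 *
        Eb β (muf (s, y₁) w) (Qf (s, y₁) w)) *
      (∫⁻ w : T5, κ (muf (s, y₁) w) (Qf (s, y₁) w) ^ 3) ^ (-(2 / 3 : ℝ)) =
      ∫⁻ s : ℝ, ∫⁻ t : T5, ∫⁻ μ : V4, Phi κ β s t μ := lintegral_congr_ae h1
    rw [← Measure.volume_eq_prod ℝ V4]
    rw [h2]
    -- reorder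
    have h3 : ∀ s : ℝ, ∫⁻ t : T5, ∫⁻ μ : V4, Phi κ β s t μ =
        ∫⁻ μ : V4, ∫⁻ t : T5, Phi κ β s t μ := by
      intro s
      rw [lintegral_lintegral_swap]
      apply Measurable.aemeasurable
      exact hPhi.comp (measurable_prodMk_left (x := s))
    simp_rw [h3]
    rw [lintegral_lintegral_swap]
    swap
    · apply Measurable.aemeasurable
      apply Measurable.lintegral_prod_right' (f := fun z : (ℝ × V4) × T5 =>
        Phi κ β z.1.1 z.2 z.1.2)
      have h4 : Measurable fun z : (ℝ × V4) × T5 => ((z.1.1, z.2, z.1.2) : ℝ × T5 × V4) :=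
        measurable_fst.fst.prodMk (measurable_snd.prodMk measurable_fst.snd)
      exact hPhi.comp h4
    rw [← lintegral_const_mul']
    swap
    · exact ENNReal.ofReal_ne_top
    apply lintegral_congr
    intro μ
    rw [lintegral_lintegral_swap]
    swap
    · apply Measurable.aemeasurable
      have h4 : Measurable fun z : ℝ × T5 => ((z.1, z.2, μ) : ℝ × T5 × V4) :=
        measurable_fst.prodMk (measurable_snd.prodMk measurable_const)
      exact hPhi.comp h4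
    unfold Psi
    rw [← mul_assoc, ← lintegral_const_mul']
    swap
    · exact ENNReal.mul_ne_top ENNReal.ofReal_ne_top ENNReal.ofReal_ne_top
    apply lintegral_congr
    intro t
    have hLt := Lam_pos t
    have hc : (√(Lam t))⁻¹ ≠ 0 := by positivity
    rw [lint_smul1 hc (f := fun s => Phi κ β s t μ)]
    swap
    · have h4 : Measurable fun z : ℝ => ((z, t, μ) : ℝ × T5 × V4) :=
        measurable_id.prodMk measurable_const
      exact hPhi.comp h4
    rw [← lintegral_const_mul', ← lintegral_const_mul']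
    rotate_left
    · exact ENNReal.mul_ne_top ENNReal.ofReal_ne_top ENNReal.ofReal_ne_top
    · exact ENNReal.ofReal_ne_top
    apply lintegral_congr
    intro σ
    have e0 : (√(Lam t))⁻¹ * σ = σ / √(Lam t) := by ring
    rw [e0]
    unfold Phi
    have e1 : (σ / √(Lam t)) ^ 2 * Lam t = σ ^ 2 := by
      rw [div_pow, Real.sq_sqrt hLt.le]
      field_simp
    rw [e1]
    unfold Eb
    have e2 : ENNReal.ofReal |(√(Lam t))⁻¹| * ENNReal.ofReal ((16 * √3) ^ (1 / 3 : ℝ) *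
        |σ / √(Lam t)| ^ (5 / 3 : ℝ)) * ENNReal.ofReal ((2 * π) ^ (-(10 / 3 : ℝ)) *
        exp (-(2 / 3 * nsq (μ - β)) - σ ^ 2 / 2)) =
        ENNReal.ofReal C0 * ENNReal.ofReal (exp (-(2 / 3 * nsq (μ - β)))) *
        ENNReal.ofReal (|σ| ^ (5 / 3 : ℝ) * exp (-(σ ^ 2 / 2)) * Lam t ^ (-(4 / 3 : ℝ))) := by
      rw [← ENNReal.ofReal_mul (by positivity), ← ENNReal.ofReal_mul (by positivity),
        ← ENNReal.ofReal_mul C0_pos.le, ← ENNReal.ofReal_mul (by have := C0_pos; positivity)]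
      congr 1
      unfold C0
      have e3 : exp (-(2 / 3 * nsq (μ - β)) - σ ^ 2 / 2) =
          exp (-(2 / 3 * nsq (μ - β))) * exp (-(σ ^ 2 / 2)) := by
        rw [← exp_add]; congr 1
      have e4 : |(√(Lam t))⁻¹| * |σ / √(Lam t)| ^ (5 / 3 : ℝ) =
          |σ| ^ (5 / 3 : ℝ) * Lam t ^ (-(4 / 3 : ℝ)) := by
        have hsq : 0 < √(Lam t) := Real.sqrt_pos.2 hLt
        have e5 : Lam t ^ (-(4 / 3 : ℝ)) = √(Lam t) ^ (-(8 / 3 : ℝ)) := by
          rw [Real.sqrt_eq_rpow, ← Real.rpow_mul hLt.le]; norm_num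
        have e6 : √(Lam t) ^ (-(8 / 3 : ℝ)) = (√(Lam t))⁻¹ * (√(Lam t) ^ (5 / 3 : ℝ))⁻¹ := by
          rw [← Real.rpow_neg hsq.le, ← Real.rpow_neg_one, ← Real.rpow_add hsq]; norm_num
        rw [abs_inv, abs_div, abs_of_pos hsq, Real.div_rpow (abs_nonneg _) hsq.le, e5, e6]
        ring
      rw [e3]
      calc _ = ((16 * √3) ^ (1 / 3 : ℝ) * (2 * π) ^ (-(10 / 3 : ℝ)) *
            exp (-(2 / 3 * nsq (μ - β))) * exp (-(σ ^ 2 / 2))) *
            (|(√(Lam t))⁻¹| * |σ / √(Lam t)| ^ (5 / 3 : ℝ)) := by ring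
        _ = _ := by rw [e4]; ring
    calc _ = (ENNReal.ofReal |(√(Lam t))⁻¹| * ENNReal.ofReal ((16 * √3) ^ (1 / 3 : ℝ) *
        |σ / √(Lam t)| ^ (5 / 3 : ℝ)) * ENNReal.ofReal ((2 * π) ^ (-(10 / 3 : ℝ)) *
        exp (-(2 / 3 * nsq (μ - β)) - σ ^ 2 / 2))) * (κ μ (σ ^ 2) ^ 2 *
        Dk κ (μ - (σ / √(Lam t) / 2) • t.2) (σ / √(Lam t)) ^ (-(2 / 3 : ℝ))) := by ring
      _ = _ := by rw [e2]; ring
  · apply Measurable.aemeasurable
    apply Measurable.mul
    · exact Measurable.lintegral_prod_right' (f := fun z : T5 × T5 =>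
        κ (muf z.1 z.2) (Qf z.1 z.2) ^ 2 * Eb β (muf z.1 z.2) (Qf z.1 z.2))
        ((hA.pow_const 2).mul hB)
    · exact (Measurable.lintegral_prod_right' (f := fun z : T5 × T5 =>
        κ (muf z.1 z.2) (Qf z.1 z.2) ^ 3) (hA.pow_const 3)).pow_const _

end Pool.Agent.Helper77.Pred
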