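import Mathlib

/-!
Generalized Bayes predictive densities under alpha-divergence loss in the normal linear model
with unknown variance.
-/

namespace Pool.Agent.Helper77.Pred

open MeasureTheory Real

/-- The density at `y` of the normal law `N(X β, v I)` on `ℝ^ι`. -/
noncomputable def normalDensity {ι : Type} [Fintype ι] {k : ℕ} (X : Matrix ι (Fin k) ℝ)
    (β : Fin k → ℝ) (v : ℝ) (y : ι → ℝ) : ℝ :=
  (2 * π * v) ^ (-(Fintype.card ι : ℝ) / 2) *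
    Real.exp (-(∑ i, (y i - X.mulVec β i) ^ 2) / (2 * v))

/-- The parameter space: pairs `ψ = (β, v)` with `β ∈ ℝ^k` and variance `v > 0`. -/
def paramSpace (k : ℕ) : Set ((Fin k → ℝ) × ℝ) := {ψ | 0 < ψ.2}

/-- The formal posterior density of `ψ = (β, v)` given `y`, for the (possibly improper) prior
density `prior` with respect to `dβ dv`. -/
noncomputable def posterior {ι : Type} [Fintype ι] {k : ℕ} (X : Matrix ι (Fin k) ℝ)
    (prior : (Fin k → ℝ) × ℝ → ℝ) (y : ι → ℝ) (ψ : (Fin k → ℝ) × ℝ) : ℝ :=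
  normalDensity X ψ.1 ψ.2 y * prior ψ /
    ∫ φ in paramSpace k, normalDensity X φ.1 φ.2 y * prior φ

/-- The unnormalised generalized Bayes predictive density under `D_α`. -/
noncomputable def bayesKernel {ι : Type} [Fintype ι] {k m : ℕ} (α : ℝ) (X : Matrix ι (Fin k) ℝ)
    (Xt : Matrix (Fin m) (Fin k) ℝ) (prior : (Fin k → ℝ) × ℝ → ℝ)
    (yt : Fin m → ℝ) (y : ι → ℝ) : ℝ :=
  (∫ ψ in paramSpace k, normalDensity Xt ψ.1 ψ.2 yt ^ ((1 - α) / 2) * posterior X prior y ψ) ^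
    (2 / (1 - α))

/-- The generalized Bayes predictive density under `D_α`: the kernel `bayesKernel`, normalised to
be a density in `yt`. -/
noncomputable def bayesDensity {ι : Type} [Fintype ι] {k m : ℕ} (α : ℝ) (X : Matrix ι (Fin k) ℝ)
    (Xt : Matrix (Fin m) (Fin k) ℝ) (prior : (Fin k → ℝ) × ℝ → ℝ)
    (yt : Fin m → ℝ) (y : ι → ℝ) : ℝ :=
  bayesKernel α X Xt prior yt y / ∫ z : Fin m → ℝ, bayesKernel α X Xt prior z y

/-- `f_α(z) = 4/(1-α²) (1 - z^((1+α)/2))`. -/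
noncomputable def fAlpha (α z : ℝ) : ℝ := 4 / (1 - α ^ 2) * (1 - z ^ ((1 + α) / 2))

/-- The `α`-divergence loss `D_α(q, p) = ∫ f_α(q/p) p`. -/
noncomputable def divAlpha {m : ℕ} (α : ℝ) (q p : (Fin m → ℝ) → ℝ) : ℝ :=
  ∫ yt, fAlpha α (q yt / p yt) * p yt

/-- The risk `R_α(q, ψ)`, `ψ = (β, v)`, of a predictive density `q yt y`. -/
noncomputable def riskAlpha {ι : Type} [Fintype ι] {k m : ℕ} (α : ℝ) (X : Matrix ι (Fin k) ℝ)
    (Xt : Matrix (Fin m) (Fin k) ℝ) (q : (Fin m → ℝ) → (ι → ℝ) → ℝ) (β : Fin k → ℝ) (v : ℝ) : ℝ :=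
  ∫ y : ι → ℝ, divAlpha α (fun yt => q yt y) (normalDensity Xt β v) * normalDensity X β v y

/-- The stacked design `X = 1_N ⊗ X̃`; the observations are indexed by `Fin N × Fin m`. -/
def stack (N : ℕ) {m k : ℕ} (Xt : Matrix (Fin m) (Fin k) ℝ) : Matrix (Fin N × Fin m) (Fin k) ℝ :=
  fun p j => Xt p.2 j

/-- Assumption (AS1), together with `n > k` and `rank X̃ = k`: `m ≥ k ≥ 3`, `n = m N > k`. The design
is `X = stack N X̃`. -/
def AS1 (N : ℕ) {m k : ℕ} (Xt : Matrix (Fin m) (Fin k) ℝ) : Prop :=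
  3 ≤ k ∧ k ≤ m ∧ 0 < N ∧ k < m * N ∧ Xt.rank = k

/-- The shrinkage prior `{β' X̃' X̃ β}^(1-k/2) v^(-a)`. -/
noncomputable def priorS {m k : ℕ} (a : ℝ) (Xt : Matrix (Fin m) (Fin k) ℝ)
    (ψ : (Fin k → ℝ) × ℝ) : ℝ :=
  (dotProduct ψ.1 ((Xt.transpose * Xt).mulVec ψ.1)) ^ (1 - (k : ℝ) / 2) * ψ.2 ^ (-a)

/-- The right invariant prior `v^(-1)`. -/
noncomputable def priorI {k : ℕ} (ψ : (Fin k → ℝ) × ℝ) : ℝ := ψ.2⁻¹

end Pool.Agent.Helper77.Pred
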