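import Pool.Agent.Helper77.Pred.Risk

namespace Pool.Agent.Helper77.Pred

open MeasureTheory Real Set

theorem ae_real_ne (c : ℝ) : ∀ᵐ s : ℝ, s ≠ c := by
  have : (volume : Measure ℝ) {c} = 0 := measure_singleton c
  exact (measure_eq_zero_iff_ae_notMem.1 this).mono fun x hx => by simpa using hx

theorem ae_V4_ne (c : V4) : ∀ᵐ s : V4, s ≠ c := by
  have : (volume : Measure V4) {c} = 0 := measure_singleton c
  exact (measure_eq_zero_iff_ae_notMem.1 this).mono fun x hx => by simpa using hx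

theorem ae_T5_fst_ne (c : ℝ) : ∀ᵐ y : T5, y.1 ≠ c :=
  (Measure.quasiMeasurePreserving_fst (μ := (volume : Measure ℝ))
    (ν := (volume : Measure V4))).ae (ae_real_ne c)

theorem ae_T5_snd_ne (c : V4) : ∀ᵐ y : T5, y.2 ≠ c :=
  (Measure.quasiMeasurePreserving_snd (μ := (volume : Measure ℝ))
    (ν := (volume : Measure V4))).ae (ae_V4_ne c)

theorem ae_muf_ne (y : T5) : ∀ᵐ w : T5, muf y w ≠ 0 := by
  filter_upwards [ae_T5_snd_ne (-(3 : ℝ) • y.2)] with w hw h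
  apply hw
  ext i
  have := congrFun h i
  simp only [muf, Pi.add_apply, Pi.smul_apply, Pi.sub_apply, smul_eq_mul, Pi.zero_apply] at this
  simp only [Pi.smul_apply, smul_eq_mul]
  linarith

/-- Shrinkage kernel in the coordinates `T5`. -/
@[irreducible] noncomputable def kS (z : ℝ) (y w : T5) : ℝ := kk z (4 / 3 * nsq (muf y w)) (Qf y w)

@[irreducible] noncomputable def kI (y w : T5) : ℝ := Qf y w ^ (-(4 / 3) : ℝ)

theorem Qf_nonneg (y w : T5) : 0 ≤ Qf y w := by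
  unfold Qf
  have h1 := sq_nonneg y.1
  have h2 := sq_nonneg w.1
  have h3 := nsq_nonneg (w.2 - y.2)
  linarith

theorem measurable_kS (z : ℝ) : Measurable (Function.uncurry (kS z)) := by
  unfold kS Function.uncurry
  have h : Measurable fun a : T5 × T5 => (4 / 3 * nsq (muf a.1 a.2), Qf a.1 a.2) :=
    ((measurable_nsq.comp measurable_muf).const_mul _).prodMk measurable_Qf
  exact (measurable_kk z).comp h

theorem measurable_kI : Measurable (Function.uncurry kI) := by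
  unfold kI Function.uncurry
  exact measurable_Qf.pow_const _

theorem Dk_ne_zero {κ : V4 → ℝ → ENNReal} (hκm : Measurable (Function.uncurry κ))
    (hpos : ∀ μ Q, 0 < Q → κ μ Q ≠ 0) {s : ℝ} (hs : s ≠ 0) (y₁ : V4) : Dk κ y₁ s ≠ 0 := by
  intro h
  rw [Dk] at h
  have h2 : Measurable fun t : T5 => (y₁ + (s / 2) • t.2, s ^ 2 * Lam t) :=
    (measurable_const.add (measurable_snd.const_smul (s / 2))).prodMk
      (measurable_Lam.const_mul _)
  have hA : Measurable fun t : T5 => κ (y₁ + (s / 2) • t.2) (s ^ 2 * Lam t) := hκm.comp h2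
  rw [lintegral_eq_zero_iff (hA.pow_const 3)] at h
  have := haar_T5
  obtain ⟨t, ht⟩ := h.exists
  have hL := Lam_pos t
  have hQ : 0 < s ^ 2 * Lam t := by positivity
  simp only [Pi.zero_apply] at ht
  exact hpos _ _ hQ (by simpa using ht)

theorem kapS_ne_zero {z : ℝ} (hz : 1 ≤ z) (μ : V4) (Q : ℝ) (hQ : 0 < Q) : kapS z μ Q ≠ 0 := by
  unfold kapS
  have := nsq_nonneg μ
  exact (ENNReal.ofReal_pos.2 (kk_pos hz (by positivity) hQ)).ne'

theorem kapI_ne_zero (μ : V4) (Q : ℝ) (hQ : 0 < Q) : kapI μ Q ≠ 0 := by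
  unfold kapI
  exact (ENNReal.ofReal_pos.2 (by positivity)).ne'

theorem Dk_kapS_ne_top {z : ℝ} (hz : 1 ≤ z) {s : ℝ} (hs : s ≠ 0) (y₁ : V4) :
    Dk (kapS z) y₁ s ≠ ⊤ := by
  rw [Dk]
  have hs2 : 0 < s ^ 2 := by positivity
  set C : ℝ := z * (s ^ 2) ^ (-z) / s ^ 2 with hC
  have hC0 : 0 ≤ C := by positivity
  have h1 : ∀ t : T5, kapS z (y₁ + (s / 2) • t.2) (s ^ 2 * Lam t) ^ 3 ≤
      ENNReal.ofReal (C ^ 3) * ENNReal.ofReal (Lam t ^ (-(3:ℝ))) := by
    intro t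
    have hL := Lam_pos t
    have hQ : 0 < s ^ 2 * Lam t := by positivity
    have hn := nsq_nonneg (y₁ + (s / 2) • t.2)
    rw [← ENNReal.ofReal_mul (by positivity), kapS, ← ENNReal.ofReal_pow (kk_nonneg (by linarith))]
    apply ENNReal.ofReal_le_ofReal
    have h2 : kk z (4 / 3 * nsq (y₁ + (s / 2) • t.2)) (s ^ 2 * Lam t) ≤ C * (Lam t)⁻¹ := by
      refine (kk_upper hz (by positivity) hQ).trans ?_
      have h3 : Lam t ^ (-z) ≤ 1 := Real.rpow_le_one_of_one_le_of_nonpos (one_le_Lam t) (by linarith)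
      rw [Real.mul_rpow hs2.le hL.le, hC]
      calc z * ((s ^ 2) ^ (-z) * Lam t ^ (-z) / (s ^ 2 * Lam t)) ≤
          z * ((s ^ 2) ^ (-z) * 1 / (s ^ 2 * Lam t)) := by gcongr
        _ = _ := by field_simp
    have h4 : Lam t ^ (-(3:ℝ)) = (Lam t)⁻¹ ^ 3 := by
      rw [Real.rpow_neg hL.le, inv_pow]
      norm_cast
    rw [h4, ← mul_pow]
    exact pow_le_pow_left₀ (kk_nonneg (by linarith)) h2 3
  have h5 : ∫⁻ t : T5, kapS z (y₁ + (s / 2) • t.2) (s ^ 2 * Lam t) ^ 3 ≤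
      ENNReal.ofReal (C ^ 3) * ENNReal.ofReal (II 3) := by
    refine (lintegral_mono h1).trans ?_
    rw [lintegral_const_mul' _ _ ENNReal.ofReal_ne_top, lint_Lam (by norm_num)]
  exact ne_top_of_le_ne_top (ENNReal.mul_ne_top ENNReal.ofReal_ne_top ENNReal.ofReal_ne_top) h5

theorem Dk_kapI {s : ℝ} (hs : s ≠ 0) (y₁ : V4) :
    Dk kapI y₁ s = ENNReal.ofReal ((s ^ 2) ^ (-(4:ℝ)) * II 4) := by
  rw [Dk]
  have hs2 : 0 < s ^ 2 := by positivity
  have h1 : ∀ t : T5, kapI (y₁ + (s / 2) • t.2) (s ^ 2 * Lam t) ^ 3 =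
      ENNReal.ofReal ((s ^ 2) ^ (-(4:ℝ))) * ENNReal.ofReal (Lam t ^ (-(4:ℝ))) := by
    intro t
    have hL := Lam_pos t
    rw [← ENNReal.ofReal_mul (by positivity), kapI, ← ENNReal.ofReal_pow (by positivity),
      ← Real.rpow_natCast _ 3, ← Real.rpow_mul (by positivity),
      Real.mul_rpow hs2.le hL.le]
    norm_num
  simp_rw [h1]
  rw [lintegral_const_mul' _ _ ENNReal.ofReal_ne_top, lint_Lam (by norm_num),
    ← ENNReal.ofReal_mul (by positivity)]

theorem integral_posterior (prior : V4 × ℝ → ℝ) (y w : T5) :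
    (∫ ψ in paramSpace 4, dens ψ.1 ψ.2 w ^ (1 / 3 : ℝ) * (dens ψ.1 ψ.2 y * prior ψ /
        ∫ φ in paramSpace 4, dens φ.1 φ.2 y * prior φ)) =
      (∫ φ in paramSpace 4, dens φ.1 φ.2 y * prior φ)⁻¹ *
      ∫ ψ in paramSpace 4, dens ψ.1 ψ.2 w ^ (1 / 3 : ℝ) * (dens ψ.1 ψ.2 y * prior ψ) := by
  rw [← integral_const_mul]
  congr 1
  funext ψ
  ring

theorem risk_S {a : ℝ} (ha : 1 ≤ a) (β : V4) :
    FF (kapS (a + 1 / 3)) β ≤ 1 ∧
    riskAlpha (1 / 3) (stack 1 Xt54) Xt54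
      (bayesDensity (1 / 3) (stack 1 Xt54) Xt54 (priorS a Xt54)) β 1 =
      9 / 2 * (1 - (FF (kapS (a + 1 / 3)) β).toReal) := by
  have hz : 1 ≤ a + 1 / 3 := by linarith
  refine risk_formula (k := kS (a + 1 / 3)) (measurable_kapS _) (measurable_kS _) ?_ ?_ ?_ ?_ ?_ β
  · intro y w
    unfold kS
    exact kk_nonneg (by linarith)
  · intro y w
    rw [kS, kapS]
  · intro s hs y₁
    exact Dk_ne_zero (measurable_kapS _) (kapS_ne_zero hz) hs y₁
  · intro s hs y₁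
    exact Dk_kapS_ne_top hz hs y₁
  · filter_upwards [ae_T5_fst_ne 0, ae_T5_snd_ne 0] with y hy1 hy2
    have hM := marg_S (a := a) (by linarith) hy1 hy2
    have hG := Real.Gamma_pos_of_pos (show 0 < a + 1 / 3 by linarith)
    have hpi := Real.pi_pos
    refine ⟨(∫ φ in paramSpace 4, dens φ.1 φ.2 y * priorS a Xt54 φ)⁻¹ *
      ((2 * π) ^ (-(10 / 3) : ℝ) * (4 * π ^ 2 / (4 / 3) * (Gamma (a + 1 / 3) *
        2 ^ (a + 1 / 3)))), by positivity, ?_⟩
    filter_upwards [ae_muf_ne y] with w hw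
    rw [integral_posterior, num_S (by linarith) hy1 hw]
    unfold kS
    have hn := nsq_pos hw
    rw [kk_eq (by positivity) (Qf_pos hy1 w)]
    ring

theorem risk_I (β : V4) :
    FF kapI β ≤ 1 ∧
    riskAlpha (1 / 3) (stack 1 Xt54) Xt54
      (bayesDensity (1 / 3) (stack 1 Xt54) Xt54 priorI) β 1 =
      9 / 2 * (1 - (FF kapI β).toReal) := by
  refine risk_formula (k := kI) measurable_kapI measurable_kI ?_ ?_ ?_ ?_ ?_ β
  · intro y w
    unfold kI
    have := Qf_nonneg y w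
    positivity
  · intro y w
    rw [kI, kapI]
  · intro s hs y₁
    exact Dk_ne_zero measurable_kapI kapI_ne_zero hs y₁
  · intro s hs y₁
    rw [Dk_kapI hs]
    exact ENNReal.ofReal_ne_top
  · filter_upwards [ae_T5_fst_ne 0] with y hy1
    have hM := marg_I hy1
    have hG := Real.Gamma_pos_of_pos (show (0:ℝ) < 4 / 3 by norm_num)
    have hpi := Real.pi_pos
    refine ⟨(∫ φ in paramSpace 4, dens φ.1 φ.2 y * priorI φ)⁻¹ *
      ((2 * π) ^ (-(10 / 3) : ℝ) * (4 * π ^ 2 / (4 / 3) ^ 2 * (Gamma (4 / 3) *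
        2 ^ (4 / 3 : ℝ)))), by positivity, ?_⟩
    refine Filter.Eventually.of_forall fun w => ?_
    rw [integral_posterior, num_I hy1]
    unfold kI
    ring

end Pool.Agent.Helper77.Pred
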