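import Pool.Agent.Helper77.Pred.Psi
import Pool.Agent.Helper77.Pred.Priors

namespace Pool.Agent.Helper77.Pred

open MeasureTheory Real Set Filter Topology

theorem gs_bound (σ : ℝ) : gs σ * (1 + σ ^ 2) ^ 2 ≤ 12 ^ 3 * exp (-(1 / 4) * σ ^ 2) := by
  have h1 : |σ| ^ (5 / 3 : ℝ) ≤ 1 + σ ^ 2 := by
    rcases le_total |σ| 1 with h | h
    · calc |σ| ^ (5 / 3 : ℝ) ≤ 1 := Real.rpow_le_one (abs_nonneg _) h (by norm_num)
        _ ≤ _ := by nlinarith [sq_nonneg σ]
    · calc |σ| ^ (5 / 3 : ℝ) ≤ |σ| ^ (2 : ℝ) := Real.rpow_le_rpow_of_exponent_le h (by norm_num)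
        _ = σ ^ 2 := by rw [show (2:ℝ) = ((2:ℕ):ℝ) by norm_num, Real.rpow_natCast, sq_abs]
        _ ≤ _ := by linarith
  have h2 : 1 + σ ^ 2 ≤ 12 * exp (σ ^ 2 / 12) := by
    have := Real.add_one_le_exp (σ ^ 2 / 12)
    nlinarith [sq_nonneg σ]
  have h3 : (1 + σ ^ 2) ^ 3 ≤ (12 * exp (σ ^ 2 / 12)) ^ 3 := pow_le_pow_left₀ (by positivity) h2 3
  have h4 : (12 * exp (σ ^ 2 / 12)) ^ 3 = 12 ^ 3 * exp (σ ^ 2 / 4) := by
    rw [mul_pow, ← Real.exp_nat_mul]
    congr 2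
    push_cast
    ring
  rw [h4] at h3
  unfold gs
  calc |σ| ^ (5 / 3 : ℝ) * exp (-(σ ^ 2 / 2)) * (1 + σ ^ 2) ^ 2 ≤
      (1 + σ ^ 2) * exp (-(σ ^ 2 / 2)) * (1 + σ ^ 2) ^ 2 := by gcongr
    _ = (1 + σ ^ 2) ^ 3 * exp (-(σ ^ 2 / 2)) := by ring
    _ ≤ 12 ^ 3 * exp (σ ^ 2 / 4) * exp (-(σ ^ 2 / 2)) := by gcongr
    _ = 12 ^ 3 * exp (-(1 / 4) * σ ^ 2) := by
      rw [mul_assoc, ← exp_add]
      congr 2
      ring

theorem integrable_gs4 : Integrable fun σ => gs σ * (1 + σ ^ 2) ^ 2 := by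
  have h := (integrable_exp_neg_mul_sq (show (0:ℝ) < 1 / 4 by norm_num)).const_mul (12 ^ 3)
  refine h.mono' (measurable_gs.mul (by fun_prop)).aestronglyMeasurable
    (Eventually.of_forall fun σ => ?_)
  have := gs_nonneg σ
  rw [Real.norm_of_nonneg (by positivity)]
  exact gs_bound σ

theorem integrable_gs_of {f : ℝ → ℝ} (hf : Measurable f) {C : ℝ}
    (h : ∀ σ, |f σ| ≤ C * (1 + σ ^ 2) ^ 2) : Integrable fun σ => gs σ * f σ := by
  refine (integrable_gs4.const_mul C).mono' (measurable_gs.mul hf).aestronglyMeasurable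
    (Eventually.of_forall fun σ => ?_)
  have := gs_nonneg σ
  rw [norm_mul, Real.norm_of_nonneg this, Real.norm_eq_abs]
  calc gs σ * |f σ| ≤ gs σ * (C * (1 + σ ^ 2) ^ 2) := by gcongr; exact h σ
    _ = _ := by ring

theorem integrable_gs : Integrable gs := by
  have := integrable_gs_of (f := fun _ => 1) measurable_const (C := 1) (fun σ => by
    rw [abs_one]
    nlinarith [sq_nonneg σ, sq_nonneg (1 + σ ^ 2)])
  simpa using this

@[irreducible] noncomputable def Cs : ℝ := ∫ σ, gs σ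
@[irreducible] noncomputable def C4 : ℝ := ∫ σ, gs σ * (1 + σ ^ 2) ^ 2

theorem Cs_pos : 0 < Cs := by
  unfold Cs
  rw [integral_pos_iff_support_of_nonneg gs_nonneg integrable_gs]
  have h : Ioi (0:ℝ) ⊆ Function.support gs := by
    intro σ hσ
    have : (0:ℝ) < σ := hσ
    have h2 : 0 < |σ| := abs_pos.2 this.ne'
    have : 0 < gs σ := by unfold gs; positivity
    exact this.ne'
  refine lt_of_lt_of_le ?_ (measure_mono h)
  rw [Real.volume_Ioi]
  exact ENNReal.zero_lt_top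

theorem C4_nonneg : 0 ≤ C4 := by
  unfold C4
  apply integral_nonneg
  intro σ
  have := gs_nonneg σ
  simp only [Pi.zero_apply]
  positivity

/-- The limiting value: the functional of the right invariant prior. -/
@[irreducible] noncomputable def PsiI : ℝ := II 4 ^ (1 / 3 : ℝ) * Cs

theorem lint_gs : ∫⁻ σ, ENNReal.ofReal (gs σ) = ENNReal.ofReal Cs := by
  rw [Cs, ofReal_integral_eq_lintegral_ofReal integrable_gs (Eventually.of_forall gs_nonneg)]

theorem lint_gs4 : ∫⁻ σ, ENNReal.ofReal (gs σ * (1 + σ ^ 2) ^ 2) = ENNReal.ofReal C4 := by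
  rw [C4, ofReal_integral_eq_lintegral_ofReal integrable_gs4
    (Eventually.of_forall fun σ => by have := gs_nonneg σ; simp only [Pi.zero_apply]; positivity)]

/-- Value of `Psi` for the right invariant prior. -/
theorem Psi_kapI (μ : V4) : Psi kapI μ = ENNReal.ofReal PsiI := by
  rw [Psi]
  have hI := II_pos (p := 4) (by norm_num)
  have h1 : ∀ t : T5, ∫⁻ σ : ℝ, ENNReal.ofReal (|σ| ^ (5 / 3 : ℝ) * exp (-(σ ^ 2 / 2)) *
      Lam t ^ (-(4 / 3 : ℝ))) * (kapI μ (σ ^ 2) ^ 2 *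
      Dk kapI (μ - (σ / √(Lam t) / 2) • t.2) (σ / √(Lam t)) ^ (-(2 / 3 : ℝ))) =
      ENNReal.ofReal (Lam t ^ (-(4:ℝ))) * (ENNReal.ofReal (II 4 ^ (-(2 / 3 : ℝ))) *
        ENNReal.ofReal Cs) := by
    intro t
    rw [← lint_gs, ← mul_assoc, ← lintegral_const_mul' _ _ (ENNReal.mul_ne_top
      ENNReal.ofReal_ne_top ENNReal.ofReal_ne_top)]
    apply lintegral_congr_ae
    have : (volume : Measure ℝ) {0} = 0 := measure_singleton 0
    filter_upwards [measure_eq_zero_iff_ae_notMem.1 this] with σ hσ0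
    have hσ : σ ≠ 0 := by simpa using hσ0
    have hL := Lam_pos t
    have hsq : 0 < √(Lam t) := Real.sqrt_pos.2 hL
    have hs : σ / √(Lam t) ≠ 0 := div_ne_zero hσ hsq.ne'
    have hσ2 : 0 < σ ^ 2 := by positivity
    have hs2e : (σ / √(Lam t)) ^ 2 = σ ^ 2 / Lam t := by
      rw [div_pow, Real.sq_sqrt hL.le]
    rw [Dk_kapI hs, hs2e, ENNReal.ofReal_rpow_of_pos (by positivity), kapI,
      ← ENNReal.ofReal_pow (by positivity), ← ENNReal.ofReal_mul (by positivity),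
      ← ENNReal.ofReal_mul (by positivity), ← ENNReal.ofReal_mul (by positivity),
      ← ENNReal.ofReal_mul (by positivity)]
    congr 1
    have e1 : ((σ ^ 2) ^ (-(4 / 3) : ℝ)) ^ 2 = ((σ ^ 2) ^ (8 / 3 : ℝ))⁻¹ := by
      rw [← Real.rpow_neg hσ2.le, ← Real.rpow_natCast ((σ ^ 2) ^ (-(4 / 3) : ℝ)) 2,
        ← Real.rpow_mul hσ2.le]
      norm_num
    have e4 : 0 < σ ^ 2 / Lam t := by positivity
    rw [Real.mul_rpow (by positivity) hI.le, ← Real.rpow_mul e4.le, e1, gs]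
    have e2 : (-(4:ℝ)) * (-(2 / 3)) = 8 / 3 := by norm_num
    have e3 : Lam t ^ (-(4:ℝ)) = Lam t ^ (-(4 / 3 : ℝ)) * (Lam t ^ (8 / 3 : ℝ))⁻¹ := by
      rw [← Real.rpow_neg hL.le, ← Real.rpow_add hL]; norm_num
    rw [e2, e3, Real.div_rpow hσ2.le hL.le]
    have h5 : 0 < (σ ^ 2) ^ (8 / 3 : ℝ) := by positivity
    have h6 : 0 < Lam t ^ (8 / 3 : ℝ) := by positivity
    field_simp
  simp_rw [h1]
  rw [lintegral_mul_const' _ _ (ENNReal.mul_ne_top ENNReal.ofReal_ne_top ENNReal.ofReal_ne_top),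
    lint_Lam (by norm_num), ← ENNReal.ofReal_mul (by positivity), ← ENNReal.ofReal_mul hI.le]
  congr 1
  rw [PsiI, ← mul_assoc]
  congr 1
  nth_rewrite 1 [← Real.rpow_one (II 4)]
  rw [← Real.rpow_add hI]
  norm_num

/-- Strict Hoelder. -/
theorem II_strict {z : ℝ} (hz : 4 / 3 < z) :
    II (2 * z + 4 / 3) * II (3 * z) ^ (-(2 / 3 : ℝ)) < II 4 ^ (1 / 3 : ℝ) := by
  have hA := II_pos (p := 3 * z) (by linarith)
  have hB := II_pos (p := 4) (by norm_num)
  set α := II (3 * z) ^ (1 / 3 : ℝ) with hα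
  set β := II 4 ^ (1 / 3 : ℝ) with hβ
  have hα0 : 0 < α := by positivity
  have hβ0 : 0 < β := by positivity
  have hα3 : α ^ 3 = II (3 * z) := by
    rw [hα, ← Real.rpow_natCast, ← Real.rpow_mul hA.le]; norm_num
  have hβ3 : β ^ 3 = II 4 := by
    rw [hβ, ← Real.rpow_natCast, ← Real.rpow_mul hB.le]; norm_num
  set u : T5 → ℝ := fun t => Lam t ^ (-z) / α with hu
  set v : T5 → ℝ := fun t => Lam t ^ (-(4 / 3 : ℝ)) / β with hv
  have hcu : Continuous u := by
    apply Continuous.div_const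
    exact continuous_Lam.rpow_const fun t => Or.inl (Lam_pos t).ne'
  have hcv : Continuous v := by
    apply Continuous.div_const
    exact continuous_Lam.rpow_const fun t => Or.inl (Lam_pos t).ne'
  have hu0 : ∀ t, 0 < u t := fun t => by have := Lam_pos t; simp only [hu]; positivity
  have hv0 : ∀ t, 0 < v t := fun t => by have := Lam_pos t; simp only [hv]; positivity
  have hu3 : ∀ t, u t ^ 3 = Lam t ^ (-(3 * z)) / II (3 * z) := by
    intro t
    have hL := Lam_pos t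
    simp only [hu]
    rw [div_pow, hα3, ← Real.rpow_natCast (Lam t ^ (-z)), ← Real.rpow_mul hL.le]
    congr 2
    push_cast
    ring
  have hv3 : ∀ t, v t ^ 3 = Lam t ^ (-(4:ℝ)) / II 4 := by
    intro t
    have hL := Lam_pos t
    simp only [hv]
    rw [div_pow, hβ3, ← Real.rpow_natCast (Lam t ^ (-(4 / 3 : ℝ))), ← Real.rpow_mul hL.le]
    norm_num
  have huv : ∀ t, u t ^ 2 * v t = Lam t ^ (-(2 * z + 4 / 3)) * (1 / (α ^ 2 * β)) := by
    intro t
    have hL := Lam_pos t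
    simp only [hu, hv]
    have : Lam t ^ (-(2 * z + 4 / 3)) = (Lam t ^ (-z)) ^ 2 * Lam t ^ (-(4 / 3 : ℝ)) := by
      rw [← Real.rpow_natCast (Lam t ^ (-z)), ← Real.rpow_mul hL.le, ← Real.rpow_add hL]
      congr 1
      push_cast
      ring
    rw [this]
    field_simp
  have i1 : Integrable fun t => 2 * u t ^ 3 := by
    simp_rw [hu3]
    exact ((integrable_Lam (by linarith)).div_const _).const_mul 2
  have i2 : Integrable fun t => v t ^ 3 := by
    simp_rw [hv3]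
    exact (integrable_Lam (by norm_num)).div_const _
  have i3 : Integrable fun t => 3 * (u t ^ 2 * v t) := by
    simp_rw [huv]
    exact ((integrable_Lam (by linarith)).mul_const _).const_mul 3
  have i12 : Integrable fun t => 2 * u t ^ 3 + v t ^ 3 := i1.add i2
  have i123 : Integrable fun t => 2 * u t ^ 3 + v t ^ 3 - 3 * (u t ^ 2 * v t) := i12.sub i3
  have hval : ∫ t, (2 * u t ^ 3 + v t ^ 3 - 3 * (u t ^ 2 * v t)) =
      3 - 3 * (II (2 * z + 4 / 3) / (α ^ 2 * β)) := by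
    rw [integral_sub i12 i3, integral_add i1 i2, integral_const_mul, integral_const_mul]
    simp_rw [hu3, hv3, huv]
    rw [integral_div, integral_div, integral_mul_const]
    have h1 : ∫ t : T5, Lam t ^ (-(3 * z)) = II (3 * z) := by rw [II]
    have h2 : ∫ t : T5, Lam t ^ (-(4:ℝ)) = II 4 := by rw [II]
    have h3 : ∫ t : T5, Lam t ^ (-(2 * z + 4 / 3)) = II (2 * z + 4 / 3) := by rw [II]
    rw [h1, h2, h3, div_self hA.ne', div_self hB.ne']
    ring
  have hnn : ∀ t, 2 * u t ^ 3 + v t ^ 3 - 3 * (u t ^ 2 * v t) = (u t - v t) ^ 2 * (2 * u t + v t) :=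
    fun t => by ring
  have hpos : 0 < ∫ t, (2 * u t ^ 3 + v t ^ 3 - 3 * (u t ^ 2 * v t)) := by
    rw [integral_pos_iff_support_of_nonneg _ i123]
    · have hH := haar_T5
      have hsupp : {t : T5 | u t ≠ v t} ⊆
          Function.support fun t => 2 * u t ^ 3 + v t ^ 3 - 3 * (u t ^ 2 * v t) := by
        intro t ht
        have ht' : u t ≠ v t := ht
        have h1 := hu0 t
        have h2 := hv0 t
        have h3 : u t - v t ≠ 0 := sub_ne_zero.2 ht'
        simp only [Function.mem_support]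
        rw [hnn]
        positivity
      refine lt_of_lt_of_le ?_ (measure_mono hsupp)
      apply IsOpen.measure_pos
      · exact isOpen_ne_fun hcu hcv
      · by_contra hempty
        rw [Set.not_nonempty_iff_eq_empty] at hempty
        have hall : ∀ t, u t = v t := by
          intro t
          by_contra h
          have : t ∈ {t : T5 | u t ≠ v t} := h
          rw [hempty] at this
          exact this
        have h0 := hall (0, 0)
        have h1 := hall (1, 0)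
        have e0 : Lam ((0:ℝ), (0:V4)) = 1 := by simp [Lam, nsq]
        have e1 : Lam ((1:ℝ), (0:V4)) = 2 := by simp [Lam, nsq]; norm_num
        simp only [hu, hv, e0, e1, Real.one_rpow] at h0 h1
        have hab : α = β := by
          rw [div_eq_div_iff hα0.ne' hβ0.ne'] at h0
          linarith
        rw [hab, div_left_inj' hβ0.ne'] at h1
        have h2 : (2:ℝ) ^ (-z) < 2 ^ (-(4 / 3 : ℝ)) :=
          Real.rpow_lt_rpow_of_exponent_lt (by norm_num) (by linarith)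
        linarith
    · intro t
      have h1 := hu0 t
      have h2 := hv0 t
      simp only [Pi.zero_apply]
      rw [hnn]
      positivity
  rw [hval] at hpos
  have h4 : II (2 * z + 4 / 3) / (α ^ 2 * β) < 1 := by linarith
  have h5 : II (3 * z) ^ (-(2 / 3 : ℝ)) = 1 / α ^ 2 := by
    rw [hα, ← Real.rpow_natCast (II (3 * z) ^ (1 / 3 : ℝ)) 2, ← Real.rpow_mul hA.le,
      Real.rpow_neg hA.le, one_div]
    norm_num
  rw [h5]
  rw [div_lt_one (by positivity)] at h4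
  rw [mul_one_div, div_lt_iff₀ (by positivity)]
  linarith

theorem T0_expand {ε : ℝ} {μ : V4} (hμ : ε ^ 2 * nsq μ = 1) (x : V4) (r : ℝ) :
    ε ^ 2 * (nsq (μ - (1 / 2 : ℝ) • x) + r) =
      1 - ε * (ε * ip μ x) + ε ^ 2 * (nsq x / 4 + r) := by
  have e : μ - (1 / 2 : ℝ) • x = μ + (-(1 / 2 : ℝ)) • x := by
    rw [neg_smul, sub_eq_add_neg]
  rw [e, nsq_add, nsq_smul, ip_smul_right]
  linear_combination hμ

theorem ip_scaled_sq {ε : ℝ} {μ : V4} (hμ : ε ^ 2 * nsq μ = 1) (x : V4) :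
    (ε * ip μ x) ^ 2 ≤ nsq x := by
  have h := ip_sq_le μ x
  have h2 : ε ^ 2 * ip μ x ^ 2 ≤ ε ^ 2 * (nsq μ * nsq x) := by gcongr
  calc (ε * ip μ x) ^ 2 = ε ^ 2 * ip μ x ^ 2 := by ring
    _ ≤ ε ^ 2 * (nsq μ * nsq x) := h2
    _ = (ε ^ 2 * nsq μ) * nsq x := by ring
    _ = nsq x := by rw [hμ, one_mul]

theorem s_sq_le (σ : ℝ) (t : T5) : (σ / √(Lam t)) ^ 2 ≤ σ ^ 2 := by
  have hL := Lam_pos t
  rw [div_pow, Real.sq_sqrt hL.le]
  exact div_le_self (sq_nonneg _) (one_le_Lam t)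

theorem x_sq_le (σ : ℝ) (t : T5) : nsq ((σ / √(Lam t)) • t.2) ≤ σ ^ 2 := by
  have hL := Lam_pos t
  rw [nsq_smul, div_pow, Real.sq_sqrt hL.le, div_mul_eq_mul_div, div_le_iff₀ hL]
  have h1 : nsq t.2 ≤ Lam t := by
    unfold Lam
    have := sq_nonneg t.1
    linarith
  gcongr

/-- The first-order estimate. -/
theorem Psi_first {z : ℝ} (hz : 4 / 3 ≤ z) : ∃ K : ℝ, 0 ≤ K ∧ ∀ (ε : ℝ) (μ : V4), 0 < ε → ε ≤ 1 →
    ε ^ 2 * nsq μ = 1 → Psi (kapS z) μ ≤
      ENNReal.ofReal (II (2 * z + 4 / 3) * II (3 * z) ^ (-(2 / 3 : ℝ)) * (Cs + ε * (K * C4))) := by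
  have hc : 4 ≤ 3 * z := by linarith
  have ht := tau_pos hc
  have hI := II_pos (p := 3 * z) (by linarith)
  have hI2 := II_pos (p := 2 * z + 4 / 3) (by linarith)
  have hC4 := C4_nonneg
  have hCs := Cs_pos
  set k0 := 1 + 1 / 4 + tau (3 * z) with hk0
  have hk0pos : 0 < k0 := by positivity
  refine ⟨2 * k0 + k0 ^ 2, by positivity, ?_⟩
  intro ε μ hε hε1 hμ
  refine (Psi_bound (by linarith) hε hμ).trans ?_
  have h1 : ∀ t : T5, ∫⁻ σ : ℝ, ENNReal.ofReal (gs σ * Lam t ^ (-(2 * z + 4 / 3))) *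
      DD z ε μ (σ / √(Lam t)) ((σ / √(Lam t)) • t.2) ^ (-(2 / 3 : ℝ)) ≤
      ENNReal.ofReal (Lam t ^ (-(2 * z + 4 / 3))) *
        ENNReal.ofReal (II (3 * z) ^ (-(2 / 3 : ℝ)) * (Cs + ε * ((2 * k0 + k0 ^ 2) * C4))) := by
    intro t
    have hL := Lam_pos t
    have hsq : 0 < √(Lam t) := Real.sqrt_pos.2 hL
    have hgi : Integrable fun σ => gs σ + ε * (2 * k0 + k0 ^ 2) * (gs σ * (1 + σ ^ 2) ^ 2) :=
      integrable_gs.add (integrable_gs4.const_mul _)
    have hint : ∫⁻ σ, ENNReal.ofReal (gs σ + ε * (2 * k0 + k0 ^ 2) * (gs σ * (1 + σ ^ 2) ^ 2)) =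
        ENNReal.ofReal (Cs + ε * ((2 * k0 + k0 ^ 2) * C4)) := by
      rw [← ofReal_integral_eq_lintegral_ofReal hgi]
      · rw [integral_add integrable_gs (integrable_gs4.const_mul _), integral_const_mul, Cs, C4]
        congr 1
        ring
      · refine Eventually.of_forall fun σ => ?_
        have := gs_nonneg σ
        simp only [Pi.zero_apply]
        positivity
    rw [ENNReal.ofReal_mul (show 0 ≤ II (3 * z) ^ (-(2 / 3 : ℝ)) by positivity), ← hint,
      ← mul_assoc, ← lintegral_const_mul' _ _ (ENNReal.mul_ne_top ENNReal.ofReal_ne_top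
        ENNReal.ofReal_ne_top)]
    apply lintegral_mono_ae
    have : (volume : Measure ℝ) {0} = 0 := measure_singleton 0
    filter_upwards [measure_eq_zero_iff_ae_notMem.1 this] with σ hσ0
    have hσ : σ ≠ 0 := by simpa using hσ0
    have hs : σ / √(Lam t) ≠ 0 := div_ne_zero hσ hsq.ne'
    have hs2 := s_sq_le σ t
    have hx2 := x_sq_le σ t
    set s := σ / √(Lam t) with hsdef
    set x := s • t.2 with hxdef
    have hspos : 0 < s ^ 2 := by positivity
    have hgs := gs_nonneg σ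
    have hlow := DD_lower hz hε μ hs x
    have hn := nsq_nonneg (μ - (1 / 2 : ℝ) • x)
    have hTpos : 0 < ε ^ 2 * (nsq (μ - (1 / 2 : ℝ) • x) + tau (3 * z) * s ^ 2) := by positivity
    have h2 := rpow_anti hI hTpos hlow
    have h3 : ε ^ 2 * (nsq (μ - (1 / 2 : ℝ) • x) + tau (3 * z) * s ^ 2) ≤
        1 + ε * (k0 * (1 + σ ^ 2)) := by
      rw [T0_expand hμ]
      have h4 := ip_scaled_sq hμ x
      have h5 : |ε * ip μ x| ≤ 1 + σ ^ 2 := by
        have h6 : |ε * ip μ x| ^ 2 ≤ σ ^ 2 := by rw [sq_abs]; linarith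
        have h7 := abs_nonneg (ε * ip μ x)
        nlinarith [sq_nonneg (|ε * ip μ x| - 1)]
      have h6 : -(ε * ip μ x) ≤ 1 + σ ^ 2 := (neg_le_abs _).trans h5
      have h8 : nsq x / 4 + tau (3 * z) * s ^ 2 ≤ (1 / 4 + tau (3 * z)) * (1 + σ ^ 2) := by
        nlinarith
      have h9 : ε ^ 2 * (nsq x / 4 + tau (3 * z) * s ^ 2) ≤
          ε * ((1 / 4 + tau (3 * z)) * (1 + σ ^ 2)) := by
        have h10 : 0 ≤ nsq x / 4 + tau (3 * z) * s ^ 2 := by
          have := nsq_nonneg x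
          positivity
        calc ε ^ 2 * (nsq x / 4 + tau (3 * z) * s ^ 2) ≤ ε * (nsq x / 4 + tau (3 * z) * s ^ 2) := by
              gcongr
              nlinarith
          _ ≤ _ := by gcongr
      have h11 : ε * (-(ε * ip μ x)) ≤ ε * (1 + σ ^ 2) := by gcongr
      calc 1 - ε * (ε * ip μ x) + ε ^ 2 * (nsq x / 4 + tau (3 * z) * s ^ 2) =
          1 + ε * (-(ε * ip μ x)) + ε ^ 2 * (nsq x / 4 + tau (3 * z) * s ^ 2) := by ring
        _ ≤ 1 + ε * (1 + σ ^ 2) + ε * ((1 / 4 + tau (3 * z)) * (1 + σ ^ 2)) := by linarith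
        _ = _ := by rw [hk0]; ring
    have h12 : (ε ^ 2 * (nsq (μ - (1 / 2 : ℝ) • x) + tau (3 * z) * s ^ 2)) ^ 2 ≤
        1 + ε * (2 * k0 + k0 ^ 2) * (1 + σ ^ 2) ^ 2 := by
      calc _ ≤ (1 + ε * (k0 * (1 + σ ^ 2))) ^ 2 := pow_le_pow_left₀ hTpos.le h3 2
        _ = 1 + 2 * ε * k0 * (1 + σ ^ 2) + ε ^ 2 * (k0 ^ 2 * (1 + σ ^ 2) ^ 2) := by ring
        _ ≤ 1 + 2 * ε * k0 * (1 + σ ^ 2) ^ 2 + ε * (k0 ^ 2 * (1 + σ ^ 2) ^ 2) := by
            gcongr ?_ + 2 * ε * k0 * ?_ + ?_ * _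
            · exact le_rfl
            · nlinarith [sq_nonneg σ]
            · nlinarith
        _ = _ := by ring
    calc ENNReal.ofReal (gs σ * Lam t ^ (-(2 * z + 4 / 3))) * DD z ε μ s x ^ (-(2 / 3 : ℝ)) ≤
        ENNReal.ofReal (gs σ * Lam t ^ (-(2 * z + 4 / 3))) *
          ENNReal.ofReal (II (3 * z) ^ (-(2 / 3 : ℝ)) *
            (ε ^ 2 * (nsq (μ - (1 / 2 : ℝ) • x) + tau (3 * z) * s ^ 2)) ^ 2) := by gcongr
      _ ≤ ENNReal.ofReal (gs σ * Lam t ^ (-(2 * z + 4 / 3))) *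
          ENNReal.ofReal (II (3 * z) ^ (-(2 / 3 : ℝ)) *
            (1 + ε * (2 * k0 + k0 ^ 2) * (1 + σ ^ 2) ^ 2)) := by gcongr
      _ = _ := by
        rw [← ENNReal.ofReal_mul (by positivity), ← ENNReal.ofReal_mul (by positivity),
          ← ENNReal.ofReal_mul (by positivity)]
        congr 1
        ring
  refine (lintegral_mono h1).trans (le_of_eq ?_)
  rw [lintegral_mul_const' _ _ ENNReal.ofReal_ne_top, lint_Lam (by linarith),
    ← ENNReal.ofReal_mul hI2.le]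
  congr 1
  ring

/-- The bound far away, for exponents `a > 1`. -/
theorem psi_far {z : ℝ} (hz : 4 / 3 < z) : ∃ ρ₀ : ℝ, 0 < ρ₀ ∧ ∃ c₀ : ℝ, 0 < c₀ ∧
    ∀ μ : V4, ρ₀ ≤ nsq μ → Psi (kapS z) μ ≤ ENNReal.ofReal (PsiI - c₀ / nsq μ) := by
  obtain ⟨K, hK, hb⟩ := Psi_first hz.le
  have hCs := Cs_pos
  have hC4 := C4_nonneg
  have hI := II_pos (p := 3 * z) (by linarith)
  have hI2 := II_pos (p := 2 * z + 4 / 3) (by linarith)
  have hst := II_strict hz
  set q := II (2 * z + 4 / 3) * II (3 * z) ^ (-(2 / 3 : ℝ)) with hq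
  have hqpos : 0 < q := by positivity
  set δ := (II 4 ^ (1 / 3 : ℝ) - q) * Cs with hδ
  have hδpos : 0 < δ := mul_pos (sub_pos.2 hst) hCs
  -- choose ε₀
  set M := q * (K * C4) + 1 with hM
  have hMpos : 0 < M := by positivity
  set ρ := max 1 ((2 * M / δ) ^ 2) with hρ
  refine ⟨ρ, by positivity, δ / 2, by positivity, ?_⟩
  intro μ hμ
  have h1 : 1 ≤ nsq μ := (le_max_left _ _).trans hμ
  have h2 : (2 * M / δ) ^ 2 ≤ nsq μ := (le_max_right _ _).trans hμ
  have hnpos : 0 < nsq μ := by linarith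
  set ε := 1 / √(nsq μ) with hε
  have hsq : 0 < √(nsq μ) := Real.sqrt_pos.2 hnpos
  have hε0 : 0 < ε := by positivity
  have hε1 : ε ≤ 1 := by
    rw [hε, div_le_one hsq]
    exact Real.one_le_sqrt.2 h1
  have hεμ : ε ^ 2 * nsq μ = 1 := by
    rw [hε, div_pow, Real.sq_sqrt hnpos.le]
    field_simp
  refine (hb ε μ hε0 hε1 hεμ).trans (ENNReal.ofReal_le_ofReal ?_)
  have h3 : ε * M ≤ δ / 2 := by
    have h4 : 2 * M / δ ≤ √(nsq μ) := Real.le_sqrt_of_sq_le h2
    rw [hε, one_div, inv_mul_le_iff₀ hsq]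
    rw [div_le_iff₀ hδpos] at h4
    linarith
  have h5 : q * (Cs + ε * (K * C4)) ≤ q * Cs + ε * M := by
    rw [hM]
    nlinarith
  have h6 : δ / 2 / nsq μ ≤ δ / 2 := div_le_self (by positivity) h1
  have h7 : PsiI = q * Cs + δ := by rw [PsiI, hδ]; ring
  rw [h7]
  linarith

end Pool.Agent.Helper77.Pred
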