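import Mathlib

namespace Pool.Agent.Helper77.Pred

open MeasureTheory Real Set

/-- Squared euclidean length on `ℝ^4`. -/
noncomputable def nsq (x : Fin 4 → ℝ) : ℝ := ∑ i, x i ^ 2

theorem nsq_nonneg (x : Fin 4 → ℝ) : 0 ≤ nsq x := Finset.sum_nonneg fun _ _ => sq_nonneg _

theorem nsq_eq_zero {x : Fin 4 → ℝ} : nsq x = 0 ↔ x = 0 := by
  constructor
  · intro h
    ext i
    have := (Finset.sum_eq_zero_iff_of_nonneg (fun i _ => sq_nonneg (x i))).1 h i (Finset.mem_univ i)
    simpa using this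
  · rintro rfl
    simp [nsq]

theorem nsq_pos {x : Fin 4 → ℝ} (h : x ≠ 0) : 0 < nsq x :=
  lt_of_le_of_ne (nsq_nonneg x) (fun h' => h (nsq_eq_zero.1 h'.symm))

theorem continuous_nsq : Continuous nsq := by
  unfold nsq; fun_prop

theorem measurable_nsq : Measurable nsq := continuous_nsq.measurable

theorem one_d (t c m : ℝ) (h : 0 < c + t) :
    ∫ x : ℝ, exp (-(t * x ^ 2) - c * (x - m) ^ 2) =
      √(π / (c + t)) * exp (-(c * t * m ^ 2 / (c + t))) := by
  have e : ∀ x : ℝ, exp (-(t * x ^ 2) - c * (x - m) ^ 2) =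
      exp (-(c + t) * (x - c * m / (c + t)) ^ 2) * exp (-(c * t * m ^ 2 / (c + t))) := by
    intro x
    rw [← exp_add]
    congr 1
    field_simp
    ring
  simp_rw [e]
  rw [integral_mul_const, integral_sub_right_eq_self (fun x => exp (-(c + t) * x ^ 2)),
    integral_gaussian]

theorem one_d_integrable (t c m : ℝ) (h : 0 < c + t) :
    Integrable (fun x : ℝ => exp (-(t * x ^ 2) - c * (x - m) ^ 2)) := by
  have e : (fun x : ℝ => exp (-(t * x ^ 2) - c * (x - m) ^ 2)) =
      fun x => exp (-(c + t) * (x - c * m / (c + t)) ^ 2) * exp (-(c * t * m ^ 2 / (c + t))) := by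
    funext x
    rw [← exp_add]
    congr 1
    field_simp
    ring
  rw [e]
  exact ((integrable_exp_neg_mul_sq h).comp_sub_right (c * m / (c + t))).mul_const _

theorem four_d_eq (t c : ℝ) (μ β : Fin 4 → ℝ) :
    exp (-(t * nsq β) - c * nsq (β - μ)) =
      ∏ i, exp (-(t * β i ^ 2) - c * (β i - μ i) ^ 2) := by
  rw [← Real.exp_sum]
  congr 1
  simp only [nsq, Pi.sub_apply, Finset.mul_sum, Finset.sum_sub_distrib, Finset.sum_neg_distrib]

theorem four_d_integrable (t c : ℝ) (μ : Fin 4 → ℝ) (h : 0 < c + t) :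
    Integrable (fun β : Fin 4 → ℝ => exp (-(t * nsq β) - c * nsq (β - μ))) := by
  simp_rw [four_d_eq]
  exact Integrable.fintype_prod (f := fun i x => exp (-(t * x ^ 2) - c * (x - μ i) ^ 2))
    (fun i => one_d_integrable t c (μ i) h)

theorem four_d (t c : ℝ) (μ : Fin 4 → ℝ) (h : 0 < c + t) :
    ∫ β : Fin 4 → ℝ, exp (-(t * nsq β) - c * nsq (β - μ)) =
      π ^ 2 / (c + t) ^ 2 * exp (-(c * t * nsq μ / (c + t))) := by
  simp_rw [four_d_eq]
  rw [integral_fintype_prod_volume_eq_prod (fun i x => exp (-(t * x ^ 2) - c * (x - μ i) ^ 2))]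
  simp_rw [one_d t c _ h]
  rw [Finset.prod_mul_distrib, ← Real.exp_sum]
  congr 1
  · rw [Finset.prod_const, Finset.card_univ, Fintype.card_fin]
    have : √(π / (c + t)) ^ 4 = (√(π / (c + t)) ^ 2) ^ 2 := by ring
    rw [this, Real.sq_sqrt (by positivity), div_pow]
  · congr 1
    rw [Finset.sum_neg_distrib, nsq, Finset.mul_sum, Finset.sum_div]

theorem four_d_lint (t c : ℝ) (μ : Fin 4 → ℝ) (h : 0 < c + t) :
    ∫⁻ β : Fin 4 → ℝ, ENNReal.ofReal (exp (-(t * nsq β) - c * nsq (β - μ))) =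
      ENNReal.ofReal (π ^ 2 / (c + t) ^ 2 * exp (-(c * t * nsq μ / (c + t)))) := by
  rw [← four_d t c μ h, ofReal_integral_eq_lintegral_ofReal (four_d_integrable t c μ h)
    (Filter.Eventually.of_forall fun _ => (exp_pos _).le)]

theorem inv_lint {r : ℝ} (hr : 0 < r) :
    ∫⁻ t : ℝ in Ioi 0, ENNReal.ofReal (exp (-(t * r))) = ENNReal.ofReal r⁻¹ := by
  have h := Real.integral_rpow_mul_exp_neg_mul_Ioi (a := 1) one_pos hr
  simp only [sub_self, rpow_zero, one_mul, one_div, rpow_one, Gamma_one, mul_one] at h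
  have hi : IntegrableOn (fun t : ℝ => exp (-(r * t))) (Ioi 0) := by
    simpa [neg_mul] using (integrableOn_exp_mul_Ioi (a := -r) (by linarith) 0)
  rw [← h, ofReal_integral_eq_lintegral_ofReal hi
    (Filter.Eventually.of_forall fun _ => (exp_pos _).le)]
  simp_rw [mul_comm r]

theorem volume_ne_zero_ae : ∀ᵐ β : Fin 4 → ℝ, β ≠ 0 := by
  have : (volume : Measure (Fin 4 → ℝ)) {0} = 0 := measure_singleton 0
  exact (measure_eq_zero_iff_ae_notMem.1 this).mono fun x hx => by simpa using hx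

/-- `∫_0^∞ π²/(c+t)² exp(-c t M/(c+t)) dt`. -/
theorem t_lint {c M : ℝ} (hc : 0 < c) (hM : 0 < M) :
    ∫⁻ t : ℝ in Ioi 0, ENNReal.ofReal (π ^ 2 / (c + t) ^ 2 * exp (-(c * t * M / (c + t)))) =
      ENNReal.ofReal (π ^ 2 * (1 - exp (-(c * M))) / (c ^ 2 * M)) := by
  have hd : ∀ t ∈ Ici (0:ℝ), HasDerivAt
      (fun t => -(π ^ 2 / (c ^ 2 * M)) * exp (-(c * t * M / (c + t))))
      (π ^ 2 / (c + t) ^ 2 * exp (-(c * t * M / (c + t)))) t := by
    intro t ht
    have hct : c + t ≠ 0 := by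
      have : (0:ℝ) ≤ t := ht
      positivity
    have h1 : HasDerivAt (fun t : ℝ => c * t * M / (c + t))
        ((c * 1 * M * (c + t) - c * t * M * 1) / (c + t) ^ 2) t := by
      have ha : HasDerivAt (fun t : ℝ => c * t * M) (c * 1 * M) t :=
        ((hasDerivAt_id t).const_mul c).mul_const M
      have hb : HasDerivAt (fun t : ℝ => c + t) 1 t := by
        simpa using (hasDerivAt_id t).const_add c
      exact ha.div hb hct
    have h2 := (h1.neg.exp).const_mul (-(π ^ 2 / (c ^ 2 * M)))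
    convert! h2 using 1
    simp only [Pi.neg_apply]
    field_simp
    ring
  have hpos : ∀ t ∈ Ioi (0:ℝ), 0 ≤ π ^ 2 / (c + t) ^ 2 * exp (-(c * t * M / (c + t))) := by
    intro t _
    positivity
  have hlim : Filter.Tendsto (fun t => -(π ^ 2 / (c ^ 2 * M)) * exp (-(c * t * M / (c + t))))
      Filter.atTop (nhds (-(π ^ 2 / (c ^ 2 * M)) * exp (-(c * M)))) := by
    apply Filter.Tendsto.const_mul
    apply (Real.continuous_exp.tendsto _).comp
    apply Filter.Tendsto.neg
    have h1 : Filter.Tendsto (fun t : ℝ => c * M * (1 - c * (c + t)⁻¹)) Filter.atTop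
        (nhds (c * M * (1 - c * 0))) := by
      apply Filter.Tendsto.const_mul
      apply Filter.Tendsto.const_sub
      apply Filter.Tendsto.const_mul
      exact tendsto_inv_atTop_zero.comp (Filter.tendsto_atTop_add_const_left _ _ Filter.tendsto_id)
    rw [mul_zero, sub_zero, mul_one] at h1
    refine h1.congr' ?_
    filter_upwards [Filter.eventually_gt_atTop 0] with t ht
    have : c + t ≠ 0 := by positivity
    field_simp
    ring
  have hint := integrableOn_Ioi_deriv_of_nonneg' hd hpos hlim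
  have hval := integral_Ioi_of_hasDerivAt_of_nonneg' hd hpos hlim
  rw [← ofReal_integral_eq_lintegral_ofReal hint]
  · rw [hval]
    congr 1
    simp only [mul_zero, zero_mul, zero_div, neg_zero, exp_zero]
    field_simp
    ring
  · filter_upwards [ae_restrict_mem measurableSet_Ioi] with t ht
    exact hpos t ht

theorem lint_inv_gauss {c : ℝ} (hc : 0 < c) {μ : Fin 4 → ℝ} (hμ : μ ≠ 0) :
    ∫⁻ β : Fin 4 → ℝ, ENNReal.ofReal ((nsq β)⁻¹ * exp (-(c * nsq (β - μ)))) =
      ENNReal.ofReal (π ^ 2 * (1 - exp (-(c * nsq μ))) / (c ^ 2 * nsq μ)) := by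
  have h1 : ∫⁻ β : Fin 4 → ℝ, ENNReal.ofReal ((nsq β)⁻¹ * exp (-(c * nsq (β - μ)))) =
      ∫⁻ β : Fin 4 → ℝ, ∫⁻ t : ℝ in Ioi 0,
        ENNReal.ofReal (exp (-(t * nsq β) - c * nsq (β - μ))) := by
    apply lintegral_congr_ae
    filter_upwards [volume_ne_zero_ae] with β hβ
    have hp := nsq_pos hβ
    rw [ENNReal.ofReal_mul (by positivity), ← inv_lint hp, ← lintegral_mul_const]
    · apply lintegral_congr
      intro t
      rw [← ENNReal.ofReal_mul (exp_pos _).le, ← exp_add, ← sub_eq_add_neg]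
    · fun_prop
  rw [h1, lintegral_lintegral_swap]
  · rw [← t_lint hc (nsq_pos hμ)]
    apply setLIntegral_congr_fun measurableSet_Ioi
    intro t ht
    have : (0:ℝ) < t := ht
    exact four_d_lint t c μ (by positivity)
  · apply Measurable.aemeasurable
    have := measurable_nsq
    apply ENNReal.measurable_ofReal.comp
    apply Real.measurable_exp.comp
    apply Measurable.sub
    · exact (measurable_snd.mul (measurable_nsq.comp measurable_fst)).neg
    · exact (measurable_nsq.comp (measurable_fst.sub_const _)).const_mul c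

theorem v_integral {z Q : ℝ} (hz : 0 < z) (hQ : 0 < Q) :
    ∫ v : ℝ in Ioi 0, v ^ (-(z + 1)) * exp (-(Q / (2 * v))) = Gamma z * (2 / Q) ^ z := by
  have h1 := integral_comp_rpow_Ioi (fun y : ℝ => y ^ (z - 1) * exp (-(Q / 2 * y)))
    (p := -1) (by norm_num)
  rw [Real.integral_rpow_mul_exp_neg_mul_Ioi hz (by positivity)] at h1
  rw [one_div_div, mul_comm] at h1
  rw [← h1]
  apply setIntegral_congr_fun measurableSet_Ioi
  intro x hx
  have hx' : (0:ℝ) < x := hx
  simp only [abs_neg, abs_one, one_mul, smul_eq_mul, rpow_neg_one]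
  rw [Real.inv_rpow hx'.le, ← Real.rpow_neg hx'.le, ← mul_assoc, ← Real.rpow_add hx']
  congr 2
  · ring
  · field_simp

theorem v_integrable {z Q : ℝ} (hz : 0 < z) (hQ : 0 < Q) :
    IntegrableOn (fun v : ℝ => v ^ (-(z + 1)) * exp (-(Q / (2 * v)))) (Ioi 0) := by
  by_contra h
  have h1 := v_integral hz hQ
  rw [integral_undef h] at h1
  have := Real.Gamma_pos_of_pos hz
  have h2 : 0 < Gamma z * (2 / Q) ^ z := by positivity
  exact h2.ne h1

theorem v_lint {z Q : ℝ} (hz : 0 < z) (hQ : 0 < Q) :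
    ∫⁻ v : ℝ in Ioi 0, ENNReal.ofReal (v ^ (-(z + 1)) * exp (-(Q / (2 * v)))) =
      ENNReal.ofReal (Gamma z * (2 / Q) ^ z) := by
  rw [← v_integral hz hQ, ofReal_integral_eq_lintegral_ofReal (v_integrable hz hQ)]
  filter_upwards [ae_restrict_mem measurableSet_Ioi] with t ht
  have : (0:ℝ) < t := ht
  positivity

/-- The kernel `(Q^(-z) - (Q+G)^(-z)) / G`. -/
noncomputable def kz (z G Q : ℝ) : ℝ := (Q ^ (-z) - (Q + G) ^ (-z)) / G

theorem v_lint_diff {z Q G : ℝ} (hz : 0 < z) (hQ : 0 < Q) (hG : 0 < G) :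
    ∫⁻ v : ℝ in Ioi 0, ENNReal.ofReal (v ^ (-(z + 1)) *
      (exp (-(Q / (2 * v))) - exp (-((Q + G) / (2 * v)))) / G) =
      ENNReal.ofReal (Gamma z * 2 ^ z * kz z G Q) := by
  have h1 := v_integrable hz hQ
  have h2 := v_integrable hz (show 0 < Q + G by positivity)
  have h3 : ∀ v : ℝ, v ^ (-(z + 1)) * (exp (-(Q / (2 * v))) - exp (-((Q + G) / (2 * v)))) / G =
      G⁻¹ * (v ^ (-(z + 1)) * exp (-(Q / (2 * v))) -
        v ^ (-(z + 1)) * exp (-((Q + G) / (2 * v)))) := by
    intro v; field_simp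
  simp_rw [h3]
  have h4 : Integrable (fun v : ℝ => G⁻¹ * (v ^ (-(z + 1)) * exp (-(Q / (2 * v))) -
        v ^ (-(z + 1)) * exp (-((Q + G) / (2 * v))))) (volume.restrict (Ioi 0)) :=
    (h1.sub h2).const_mul _
  rw [← ofReal_integral_eq_lintegral_ofReal h4]
  · rw [integral_const_mul, integral_sub h1 h2, v_integral hz hQ, v_integral hz (by positivity)]
    congr 1
    rw [kz, Real.div_rpow (by norm_num) hQ.le, Real.div_rpow (by norm_num) (by positivity),
      Real.rpow_neg hQ.le, Real.rpow_neg (by positivity)]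
    field_simp
  · filter_upwards [ae_restrict_mem measurableSet_Ioi] with t ht
    have ht' : (0:ℝ) < t := ht
    have : exp (-((Q + G) / (2 * t))) ≤ exp (-(Q / (2 * t))) := by
      apply exp_le_exp.2
      apply neg_le_neg
      gcongr
      linarith
    simp only [Pi.zero_apply]
    rw [← mul_sub]
    have h4 : 0 ≤ exp (-(Q / (2 * t))) - exp (-((Q + G) / (2 * t))) := sub_nonneg.2 this
    positivity

/-- Integral of the shrinkage integrand over the parameter space. -/
theorem param_lint_S {z g Q : ℝ} (hz : 0 < z) (hg : 0 < g) (hQ : 0 < Q) {μ : Fin 4 → ℝ}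
    (hμ : μ ≠ 0) :
    ∫⁻ v : ℝ in Ioi 0, ∫⁻ β : Fin 4 → ℝ, ENNReal.ofReal (v ^ (-(z + 3)) * (nsq β)⁻¹ *
      exp (-((g * nsq (β - μ) + Q) / (2 * v)))) =
      ENNReal.ofReal (4 * π ^ 2 / g * (Gamma z * 2 ^ z * kz z (g * nsq μ) Q)) := by
  have hM := nsq_pos hμ
  have h1 : ∀ v ∈ Ioi (0:ℝ), ∫⁻ β : Fin 4 → ℝ, ENNReal.ofReal (v ^ (-(z + 3)) * (nsq β)⁻¹ *
      exp (-((g * nsq (β - μ) + Q) / (2 * v)))) =
      ENNReal.ofReal (4 * π ^ 2 / g) * ENNReal.ofReal (v ^ (-(z + 1)) *
      (exp (-(Q / (2 * v))) - exp (-((Q + g * nsq μ) / (2 * v)))) / (g * nsq μ)) := by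
    intro v hv
    have hv' : (0:ℝ) < v := hv
    have hc : 0 < g / (2 * v) := by positivity
    have h2 : ∀ β : Fin 4 → ℝ, v ^ (-(z + 3)) * (nsq β)⁻¹ *
        exp (-((g * nsq (β - μ) + Q) / (2 * v))) = (v ^ (-(z + 3)) * exp (-(Q / (2 * v)))) *
          ((nsq β)⁻¹ * exp (-(g / (2 * v) * nsq (β - μ)))) := by
      intro β
      have : exp (-((g * nsq (β - μ) + Q) / (2 * v))) =
          exp (-(Q / (2 * v))) * exp (-(g / (2 * v) * nsq (β - μ))) := by
        rw [← exp_add]; congr 1; field_simp; ring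
      rw [this]; ring
    simp_rw [h2]
    have h3 : ∀ β : Fin 4 → ℝ, ENNReal.ofReal ((v ^ (-(z + 3)) * exp (-(Q / (2 * v)))) *
          ((nsq β)⁻¹ * exp (-(g / (2 * v) * nsq (β - μ))))) =
        ENNReal.ofReal (v ^ (-(z + 3)) * exp (-(Q / (2 * v)))) *
          ENNReal.ofReal ((nsq β)⁻¹ * exp (-(g / (2 * v) * nsq (β - μ)))) := fun β =>
      ENNReal.ofReal_mul (by positivity)
    simp_rw [h3]
    rw [lintegral_const_mul', lint_inv_gauss hc hμ, ← ENNReal.ofReal_mul (by positivity),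
      ← ENNReal.ofReal_mul (by positivity)]
    · congr 1
      have e1 : exp (-((Q + g * nsq μ) / (2 * v))) =
          exp (-(Q / (2 * v))) * exp (-(g / (2 * v) * nsq μ)) := by
        rw [← exp_add]; congr 1; field_simp; ring
      have e2 : v ^ (-(z + 1)) = v ^ (-(z + 3)) * v ^ 2 := by
        rw [← Real.rpow_natCast v 2, ← Real.rpow_add hv']; congr 1; push_cast; ring
      rw [e1, e2]
      field_simp
      ring
    · exact ENNReal.ofReal_ne_top
  rw [setLIntegral_congr_fun measurableSet_Ioi h1, lintegral_const_mul' _ _ ENNReal.ofReal_ne_top,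
    v_lint_diff hz hQ (by positivity), ← ENNReal.ofReal_mul (by positivity)]

/-- Integral of the flat integrand over the parameter space. -/
theorem param_lint_I {z g Q : ℝ} (hz : 0 < z) (hg : 0 < g) (hQ : 0 < Q) (μ : Fin 4 → ℝ) :
    ∫⁻ v : ℝ in Ioi 0, ∫⁻ β : Fin 4 → ℝ, ENNReal.ofReal (v ^ (-(z + 3)) *
      exp (-((g * nsq (β - μ) + Q) / (2 * v)))) =
      ENNReal.ofReal (4 * π ^ 2 / g ^ 2 * (Gamma z * 2 ^ z * Q ^ (-z))) := by
  have h1 : ∀ v ∈ Ioi (0:ℝ), ∫⁻ β : Fin 4 → ℝ, ENNReal.ofReal (v ^ (-(z + 3)) *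
      exp (-((g * nsq (β - μ) + Q) / (2 * v)))) =
      ENNReal.ofReal (4 * π ^ 2 / g ^ 2) * ENNReal.ofReal (v ^ (-(z + 1)) *
      exp (-(Q / (2 * v)))) := by
    intro v hv
    have hv' : (0:ℝ) < v := hv
    have hc : 0 < g / (2 * v) := by positivity
    have h2 : ∀ β : Fin 4 → ℝ, v ^ (-(z + 3)) *
        exp (-((g * nsq (β - μ) + Q) / (2 * v))) = (v ^ (-(z + 3)) * exp (-(Q / (2 * v)))) *
          (exp (-(0 * nsq β) - g / (2 * v) * nsq (β - μ))) := by
      intro β
      have : exp (-((g * nsq (β - μ) + Q) / (2 * v))) =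
          exp (-(Q / (2 * v))) * exp (-(0 * nsq β) - g / (2 * v) * nsq (β - μ)) := by
        rw [← exp_add]; congr 1; field_simp; ring
      rw [this]; ring
    simp_rw [h2]
    have h3 : ∀ β : Fin 4 → ℝ, ENNReal.ofReal ((v ^ (-(z + 3)) * exp (-(Q / (2 * v)))) *
          (exp (-(0 * nsq β) - g / (2 * v) * nsq (β - μ)))) =
        ENNReal.ofReal (v ^ (-(z + 3)) * exp (-(Q / (2 * v)))) *
          ENNReal.ofReal (exp (-(0 * nsq β) - g / (2 * v) * nsq (β - μ))) := fun β =>
      ENNReal.ofReal_mul (by positivity)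
    simp_rw [h3]
    rw [lintegral_const_mul', four_d_lint 0 _ μ (by positivity),
      ← ENNReal.ofReal_mul (by positivity), ← ENNReal.ofReal_mul (by positivity)]
    · congr 1
      have e2 : v ^ (-(z + 1)) = v ^ (-(z + 3)) * v ^ 2 := by
        rw [← Real.rpow_natCast v 2, ← Real.rpow_add hv']; congr 1; push_cast; ring
      rw [e2]
      simp only [mul_zero, zero_mul, add_zero, zero_div, neg_zero, exp_zero, mul_one]
      field_simp
      ring
    · exact ENNReal.ofReal_ne_top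
  rw [setLIntegral_congr_fun measurableSet_Ioi h1, lintegral_const_mul' _ _ ENNReal.ofReal_ne_top,
    v_lint hz hQ, ← ENNReal.ofReal_mul (by positivity)]
  congr 1
  rw [Real.div_rpow (by norm_num) hQ.le, Real.rpow_neg hQ.le]
  field_simp

end Pool.Agent.Helper77.Pred
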