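import Pool.Agent.Helper77.Pred.Change

namespace Pool.Agent.Helper77.Pred

open MeasureTheory Real Set

/-- The shrinkage kernel, extended to all arguments. -/
@[irreducible] noncomputable def kk (z G Q : ℝ) : ℝ :=
  if 0 < Q then (if 0 < G then kz z G Q else Q ^ (-z) / Q) else 0

theorem kk_eq {z G Q : ℝ} (hG : 0 < G) (hQ : 0 < Q) : kk z G Q = kz z G Q := by
  unfold kk
  rw [if_pos hQ, if_pos hG]

theorem kk_eq0 {z G Q : ℝ} (hG : ¬ 0 < G) (hQ : 0 < Q) : kk z G Q = Q ^ (-z) / Q := by
  unfold kk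
  rw [if_pos hQ, if_neg hG]

theorem kz_formula {z G Q : ℝ} (hG : 0 < G) (hQ : 0 < Q) :
    kz z G Q = Q ^ (-z) * ((1 - (Q / (Q + G)) ^ z) / G) := by
  unfold kz
  rw [Real.div_rpow hQ.le (by positivity), Real.rpow_neg hQ.le, Real.rpow_neg (by positivity)]
  have h1 : 0 < Q ^ z := by positivity
  have h2 : 0 < (Q + G) ^ z := by positivity
  field_simp

theorem kk_nonneg {z G Q : ℝ} (hz : 0 < z) : 0 ≤ kk z G Q := by
  unfold kk
  split_ifs with h1 h2
  · unfold kz
    apply div_nonneg _ h2.le
    rw [sub_nonneg]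
    exact Real.rpow_le_rpow_of_nonpos h1 (by linarith) (by linarith)
  · positivity
  · exact le_rfl

theorem kk_lower {z G Q : ℝ} (hz : 1 ≤ z) (hG : 0 ≤ G) (hQ : 0 < Q) :
    Q ^ (-z) * (1 / (Q + G)) ≤ kk z G Q := by
  rcases hG.lt_or_eq with h | h
  · rw [kk_eq h hQ, kz_formula h hQ]
    apply mul_le_mul_of_nonneg_left _ (by positivity)
    rw [div_le_div_iff₀ (by positivity) h]
    have hx : Q / (Q + G) ≤ 1 := by
      rw [div_le_one (by positivity)]; linarith
    have h3 : (Q / (Q + G)) ^ z ≤ Q / (Q + G) := by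
      calc (Q / (Q + G)) ^ z ≤ (Q / (Q + G)) ^ (1:ℝ) :=
            Real.rpow_le_rpow_of_exponent_ge (by positivity) hx hz
        _ = _ := Real.rpow_one _
    have h4 : G = (1 - Q / (Q + G)) * (Q + G) := by field_simp; ring
    calc 1 * G = (1 - Q / (Q + G)) * (Q + G) := by rw [one_mul]; exact h4
      _ ≤ (1 - (Q / (Q + G)) ^ z) * (Q + G) := by gcongr
  · rw [kk_eq0 (by linarith) hQ, ← h, add_zero, mul_one_div]

theorem kk_upper {z G Q : ℝ} (hz : 1 ≤ z) (hG : 0 ≤ G) (hQ : 0 < Q) :
    kk z G Q ≤ z * (Q ^ (-z) / Q) := by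
  rcases hG.lt_or_eq with h | h
  · rw [kk_eq h hQ, kz_formula h hQ]
    have h3 : 1 + z * (Q / (Q + G) - 1) ≤ (Q / (Q + G)) ^ z := by
      have := one_add_mul_self_le_rpow_one_add (s := Q / (Q + G) - 1) (p := z) (by
        have : 0 ≤ Q / (Q + G) := by positivity
        linarith) hz
      simpa using this
    have h4 : 1 - (Q / (Q + G)) ^ z ≤ z * (G / (Q + G)) := by
      have : G / (Q + G) = 1 - Q / (Q + G) := by field_simp; ring
      rw [this]; linarith
    calc Q ^ (-z) * ((1 - (Q / (Q + G)) ^ z) / G) ≤ Q ^ (-z) * ((z * (G / (Q + G))) / G) := by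
          gcongr
      _ = z * (Q ^ (-z) / (Q + G)) := by field_simp
      _ ≤ z * (Q ^ (-z) / Q) := by
          gcongr
          linarith
  · rw [kk_eq0 (by linarith) hQ]
    have : 0 ≤ Q ^ (-z) / Q := by positivity
    nlinarith

theorem kk_upper2 {z G Q : ℝ} (hG : 0 < G) (hQ : 0 < Q) :
    kk z G Q ≤ Q ^ (-z) / G := by
  rw [kk_eq hG hQ, kz]
  gcongr
  have : 0 ≤ (Q + G) ^ (-z) := by positivity
  linarith

theorem kk_pos {z G Q : ℝ} (hz : 1 ≤ z) (hG : 0 ≤ G) (hQ : 0 < Q) : 0 < kk z G Q :=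
  lt_of_lt_of_le (by positivity) (kk_lower hz hG hQ)

theorem measurable_kk (z : ℝ) : Measurable fun x : ℝ × ℝ => kk z x.1 x.2 := by
  unfold kk kz
  apply Measurable.ite
  · exact measurableSet_lt measurable_const measurable_snd
  · apply Measurable.ite
    · exact measurableSet_lt measurable_const measurable_fst
    · fun_prop
    · fun_prop
  · exact measurable_const

/-- The extended-real kernel of the shrinkage prior. -/
@[irreducible] noncomputable def kapS (z : ℝ) (μ : V4) (Q : ℝ) : ENNReal :=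
  ENNReal.ofReal (kk z (4 / 3 * nsq μ) Q)

/-- The extended-real kernel of the right invariant prior. -/
@[irreducible] noncomputable def kapI (_μ : V4) (Q : ℝ) : ENNReal :=
  ENNReal.ofReal (Q ^ (-(4 / 3) : ℝ))

theorem measurable_kapS (z : ℝ) : Measurable (Function.uncurry (kapS z)) := by
  unfold kapS Function.uncurry
  apply Measurable.ennreal_ofReal
  have h : Measurable fun a : V4 × ℝ => (4 / 3 * nsq a.1, a.2) :=
    ((measurable_nsq.comp measurable_fst).const_mul _).prodMk measurable_snd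
  exact (measurable_kk z).comp h

theorem measurable_kapI : Measurable (Function.uncurry kapI) := by
  unfold kapI Function.uncurry
  fun_prop

theorem norm_sq_le_five (t : T5) : 1 + ‖t‖ ^ 2 ≤ Lam t := by
  unfold Lam
  have h1 : ‖t‖ ^ 2 ≤ t.1 ^ 2 + nsq t.2 := by
    rw [Prod.norm_def]
    rcases le_total ‖t.1‖ ‖t.2‖ with h | h
    · rw [max_eq_right h]
      have h2 : ‖t.2‖ ≤ √(nsq t.2) := by
        rw [pi_norm_le_iff_of_nonneg (Real.sqrt_nonneg _)]
        intro i
        apply Real.le_sqrt_of_sq_le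
        rw [Real.norm_eq_abs, sq_abs]
        exact Finset.single_le_sum (f := fun i => t.2 i ^ 2) (fun _ _ => sq_nonneg _)
          (Finset.mem_univ i)
      have h3 : ‖t.2‖ ^ 2 ≤ nsq t.2 := by
        calc ‖t.2‖ ^ 2 ≤ √(nsq t.2) ^ 2 := by gcongr
          _ = _ := Real.sq_sqrt (nsq_nonneg _)
      have := sq_nonneg t.1
      linarith
    · rw [max_eq_left h, Real.norm_eq_abs, sq_abs]
      have := nsq_nonneg t.2
      linarith
  linarith

theorem haar_T5 : (volume : Measure T5).IsAddHaarMeasure := by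
  rw [Measure.volume_eq_prod]
  infer_instance

/-- Integrability of `Λ^(-p)` on `ℝ^5` for `p > 5/2`. -/
theorem integrable_Lam {p : ℝ} (hp : 5 / 2 < p) : Integrable fun t : T5 => Lam t ^ (-p) := by
  have hfin : (Module.finrank ℝ T5 : ℝ) < 2 * p := by
    rw [Module.finrank_prod, Module.finrank_self, Module.finrank_fintype_fun_eq_card,
      Fintype.card_fin]
    push_cast
    linarith
  have := haar_T5
  have h := integrable_rpow_neg_one_add_norm_sq (μ := (volume : Measure T5)) hfin
  refine h.mono ((measurable_Lam.pow_const _).aestronglyMeasurable) ?_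
  refine Filter.Eventually.of_forall fun t => ?_
  have hL := Lam_pos t
  have h1 : 0 < 1 + ‖t‖ ^ 2 := by positivity
  rw [Real.norm_of_nonneg (by positivity), Real.norm_of_nonneg (by positivity)]
  have e : -(2 * p) / 2 = -p := by ring
  rw [e]
  exact Real.rpow_le_rpow_of_nonpos h1 (norm_sq_le_five t) (by linarith)

/-- `I_p = ∫ Λ^(-p)`. -/
@[irreducible] noncomputable def II (p : ℝ) : ℝ := ∫ t : T5, Lam t ^ (-p)

theorem II_pos {p : ℝ} (hp : 5 / 2 < p) : 0 < II p := by
  unfold II
  rw [integral_pos_iff_support_of_nonneg _ (integrable_Lam hp)]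
  · have : Function.support (fun t : T5 => Lam t ^ (-p)) = univ := by
      ext t
      have := Lam_pos t
      simp only [Function.mem_support, mem_univ, iff_true]
      positivity
    rw [this]
    exact isOpen_univ.measure_pos _ univ_nonempty
  · intro t
    have := Lam_pos t
    simp only [Pi.zero_apply]
    positivity

theorem lint_Lam {p : ℝ} (hp : 5 / 2 < p) :
    ∫⁻ t : T5, ENNReal.ofReal (Lam t ^ (-p)) = ENNReal.ofReal (II p) := by
  unfold II
  rw [ofReal_integral_eq_lintegral_ofReal (integrable_Lam hp)]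
  refine Filter.Eventually.of_forall fun t => ?_
  have := Lam_pos t
  simp only [Pi.zero_apply]
  positivity

end Pool.Agent.Helper77.Pred
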