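import Pool.Agent.Helper77.Pred.Defs
import Pool.Agent.Helper77.Pred.Abs
import Pool.Agent.Helper77.Pred.Change

namespace Pool.Agent.Helper77.Pred

open MeasureTheory Real Set

/-- The `5 × 4` design with the identity in the first four rows and a zero last row. -/
def Xt54 : Matrix (Fin 5) (Fin 4) ℝ := fun i j => if (i : ℕ) = (j : ℕ) then 1 else 0

theorem Xt54_castSucc (j l : Fin 4) : Xt54 j.castSucc l = if j = l then 1 else 0 := by
  simp [Xt54, Fin.ext_iff]

theorem Xt54_last (l : Fin 4) : Xt54 (Fin.last 4) l = 0 := by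
  have := l.isLt
  simp only [Xt54, Fin.val_last]
  rw [if_neg (by omega)]

theorem mulVec_castSucc (β : V4) (j : Fin 4) : Xt54.mulVec β j.castSucc = β j := by
  simp [Matrix.mulVec, dotProduct, Xt54_castSucc]

theorem mulVec_last (β : V4) : Xt54.mulVec β (Fin.last 4) = 0 := by
  unfold Matrix.mulVec dotProduct
  apply Finset.sum_eq_zero
  intro l _
  show Xt54 (Fin.last 4) l * β l = 0
  rw [Xt54_last, zero_mul]

theorem gram54 : Xt54.transpose * Xt54 = 1 := by
  ext i j
  rw [Matrix.mul_apply, Fin.sum_univ_castSucc]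
  simp only [Matrix.transpose_apply, Xt54_last, mul_zero, add_zero, Xt54_castSucc]
  simp [Matrix.one_apply, eq_comm]

theorem rank54 : Xt54.rank = 4 := by
  have h1 : (Xt54.transpose * Xt54).rank = 4 := by
    rw [gram54, Matrix.rank_one]; simp
  rw [← Matrix.rank_transpose_mul_self, h1]

noncomputable def e2 : (Fin 5 → ℝ) ≃ᵐ T5 :=
  MeasurableEquiv.piFinSuccAbove (fun _ => ℝ) (Fin.last 4)

theorem e2_fst (y : Fin 5 → ℝ) : (e2 y).1 = y (Fin.last 4) := rfl

theorem e2_snd (y : Fin 5 → ℝ) (j : Fin 4) : (e2 y).2 j = y j.castSucc := by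
  have : (e2 y).2 j = y ((Fin.last 4).succAbove j) := rfl
  rw [this, Fin.succAbove_last]

theorem mp_e2 : MeasurePreserving e2 :=
  volume_preserving_piFinSuccAbove (fun _ => ℝ) (Fin.last 4)

noncomputable def e1 : (Fin 1 × Fin 5 → ℝ) ≃ᵐ T5 :=
  (MeasurableEquiv.piCongrLeft (fun _ => ℝ) (Equiv.uniqueProd (Fin 5) (Fin 1))).trans e2

theorem e1_apply (y : Fin 1 × Fin 5 → ℝ) : e1 y = e2 (fun j => y (0, j)) := by
  unfold e1
  rw [MeasurableEquiv.trans_apply]
  congr 1

theorem mp_e1 : MeasurePreserving e1 := by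
  unfold e1
  exact (volume_measurePreserving_piCongrLeft (fun _ => ℝ)
    (Equiv.uniqueProd (Fin 5) (Fin 1))).trans mp_e2

/-- The normal density in the coordinates `T5`. -/
@[irreducible] noncomputable def dens (β : V4) (v : ℝ) (w : T5) : ℝ :=
  (2 * π * v) ^ (-(5 / 2) : ℝ) * exp (-(w.1 ^ 2 + nsq (w.2 - β)) / (2 * v))

theorem sum_five (y : Fin 5 → ℝ) (β : V4) :
    ∑ i, (y i - Xt54.mulVec β i) ^ 2 = (e2 y).1 ^ 2 + nsq ((e2 y).2 - β) := by
  rw [Fin.sum_univ_castSucc, mulVec_last, e2_fst, sub_zero, add_comm]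
  congr 1
  unfold nsq
  apply Finset.sum_congr rfl
  intro j _
  rw [mulVec_castSucc, Pi.sub_apply, e2_snd]

theorem dens_eq2 (β : V4) (v : ℝ) (y : Fin 5 → ℝ) :
    normalDensity Xt54 β v y = dens β v (e2 y) := by
  unfold normalDensity dens
  rw [sum_five, Fintype.card_fin]
  norm_num [neg_div]

theorem dens_eq1 (β : V4) (v : ℝ) (y : Fin 1 × Fin 5 → ℝ) :
    normalDensity (stack 1 Xt54) β v y = dens β v (e1 y) := by
  rw [e1_apply, ← dens_eq2]
  unfold normalDensity
  have h1 : ∑ i : Fin 1 × Fin 5, (y i - (stack 1 Xt54).mulVec β i) ^ 2 =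
      ∑ j : Fin 5, (y (0, j) - Xt54.mulVec β j) ^ 2 := by
    rw [Fintype.sum_prod_type]
    simp only [Finset.univ_unique, Finset.sum_singleton]
    rfl
  rw [h1]
  simp

theorem priorS_eq (a : ℝ) (ψ : V4 × ℝ) : priorS a Xt54 ψ = (nsq ψ.1)⁻¹ * ψ.2 ^ (-a) := by
  unfold priorS
  rw [gram54, Matrix.one_mulVec]
  congr 1
  have h1 : dotProduct ψ.1 ψ.1 = nsq ψ.1 := by
    unfold dotProduct nsq
    apply Finset.sum_congr rfl
    intro i _
    ring
  have h2 : (1 : ℝ) - ((4 : ℕ) : ℝ) / 2 = -1 := by norm_num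
  rw [h1, h2, Real.rpow_neg_one]

theorem measurable_priorS (a : ℝ) : Measurable (priorS a Xt54) := by
  have h : priorS a Xt54 = fun ψ : V4 × ℝ => (nsq ψ.1)⁻¹ * ψ.2 ^ (-a) := funext (priorS_eq a)
  rw [h]
  have := measurable_nsq
  fun_prop

theorem measurable_dens : Measurable fun x : (V4 × ℝ) × T5 => dens x.1.1 x.1.2 x.2 := by
  unfold dens
  have h := measurable_nsq
  have h1 : Measurable fun x : (V4 × ℝ) × T5 => nsq (x.2.2 - x.1.1) :=
    h.comp (measurable_snd.snd.sub measurable_fst.fst)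
  fun_prop

theorem dens_nonneg (β : V4) {v : ℝ} (hv : 0 < v) (w : T5) : 0 ≤ dens β v w := by
  unfold dens
  have := Real.pi_pos
  positivity

theorem dens_pos (β : V4) {v : ℝ} (hv : 0 < v) (w : T5) : 0 < dens β v w := by
  unfold dens
  have := Real.pi_pos
  positivity

/-- Product form of the parameter space. -/
theorem param_lint {f : V4 × ℝ → ENNReal} (hf : Measurable f) :
    ∫⁻ ψ in paramSpace 4, f ψ = ∫⁻ v in Ioi (0:ℝ), ∫⁻ β : V4, f (β, v) := by
  have h1 : paramSpace 4 = (univ : Set V4) ×ˢ Ioi (0:ℝ) := by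
    ext ψ; simp [paramSpace]
  rw [h1, Measure.volume_eq_prod, ← Measure.prod_restrict, Measure.restrict_univ,
    lintegral_prod_symm' _ hf]

theorem measurableSet_paramSpace : MeasurableSet (paramSpace 4) := by
  unfold paramSpace
  exact measurableSet_lt measurable_const measurable_snd

/-- Integral over the parameter space in terms of the iterated lower integral. -/
theorem param_integral {f : V4 × ℝ → ℝ} (hf : Measurable f) (h0 : ∀ ψ ∈ paramSpace 4, 0 ≤ f ψ) :
    ∫ ψ in paramSpace 4, f ψ =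
      (∫⁻ v in Ioi (0:ℝ), ∫⁻ β : V4, ENNReal.ofReal (f (β, v))).toReal := by
  have hf' : Measurable fun ψ => ENNReal.ofReal (f ψ) := hf.ennreal_ofReal
  rw [integral_eq_lintegral_of_nonneg_ae ((ae_restrict_iff' measurableSet_paramSpace).2
    (Filter.Eventually.of_forall h0)) hf.aestronglyMeasurable, param_lint hf']

theorem two_nsq (β y₁ w₁ : V4) :
    nsq (w₁ - β) / 3 + nsq (y₁ - β) =
      4 / 3 * nsq (β - (y₁ + (1 / 4 : ℝ) • (w₁ - y₁))) + nsq (w₁ - y₁) / 4 := by
  simp only [nsq, Pi.sub_apply, Pi.add_apply, Pi.smul_apply, smul_eq_mul, Finset.mul_sum,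
    Finset.sum_div, ← Finset.sum_add_distrib]
  apply Finset.sum_congr rfl
  intro i _
  ring

theorem nsq_sub_comm (x y : V4) : nsq (x - y) = nsq (y - x) := by
  unfold nsq
  apply Finset.sum_congr rfl
  intro i _
  simp only [Pi.sub_apply]
  ring

/-- The product `p(w)^(1/3) p(y)`. -/
theorem dens_prod (β : V4) {v : ℝ} (hv : 0 < v) (y w : T5) :
    dens β v w ^ (1 / 3 : ℝ) * dens β v y =
      (2 * π) ^ (-(10 / 3) : ℝ) * v ^ (-(10 / 3) : ℝ) *
        exp (-((4 / 3 * nsq (β - muf y w) + Qf y w) / (2 * v))) := by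
  have hpi := Real.pi_pos
  unfold dens muf Qf
  rw [Real.mul_rpow (by positivity) (by positivity), ← Real.rpow_mul (by positivity),
    ← Real.exp_mul]
  have e1 : (2 * π * v) ^ (-(5 / 2) * (1 / 3) : ℝ) * (2 * π * v) ^ (-(5 / 2) : ℝ) =
      (2 * π) ^ (-(10 / 3) : ℝ) * v ^ (-(10 / 3) : ℝ) := by
    rw [← Real.rpow_add (by positivity), ← Real.mul_rpow (by positivity) hv.le]
    norm_num
  have e2 : exp (-(w.1 ^ 2 + nsq (w.2 - β)) / (2 * v) * (1 / 3)) *
      exp (-(y.1 ^ 2 + nsq (y.2 - β)) / (2 * v)) =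
      exp (-((4 / 3 * nsq (β - (y.2 + (1 / 4 : ℝ) • (w.2 - y.2))) +
        (y.1 ^ 2 + w.1 ^ 2 / 3 + nsq (w.2 - y.2) / 4)) / (2 * v))) := by
    rw [← exp_add]
    congr 1
    have h := two_nsq β y.2 w.2
    have h' : 4 / 3 * nsq (β - (y.2 + (1 / 4 : ℝ) • (w.2 - y.2))) =
      nsq (w.2 - β) / 3 + nsq (y.2 - β) - nsq (w.2 - y.2) / 4 := by linarith
    rw [h']
    field_simp
    ring
  rw [← e1, ← e2]
  ring

theorem lint_const_congr {f g : ℝ → V4 → ℝ} {c : ℝ} (hc : 0 ≤ c)
    (h : ∀ v, 0 < v → ∀ β, f v β = c * g v β) :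
    ∫⁻ v in Ioi (0:ℝ), ∫⁻ β : V4, ENNReal.ofReal (f v β) =
      ENNReal.ofReal c * ∫⁻ v in Ioi (0:ℝ), ∫⁻ β : V4, ENNReal.ofReal (g v β) := by
  rw [← lintegral_const_mul' _ _ ENNReal.ofReal_ne_top]
  apply setLIntegral_congr_fun measurableSet_Ioi
  intro v hv
  simp only
  rw [← lintegral_const_mul' _ _ ENNReal.ofReal_ne_top]
  apply lintegral_congr
  intro β
  rw [h v hv β, ENNReal.ofReal_mul hc]

theorem Qf_pos {y : T5} (hy : y.1 ≠ 0) (w : T5) : 0 < Qf y w := by
  unfold Qf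
  have h1 : 0 < y.1 ^ 2 := by positivity
  have h2 := sq_nonneg w.1
  have h3 := nsq_nonneg (w.2 - y.2)
  linarith

theorem kz_pos {z G Q : ℝ} (hz : 0 < z) (hG : 0 < G) (hQ : 0 < Q) : 0 < kz z G Q := by
  unfold kz
  apply div_pos _ hG
  rw [sub_pos]
  exact Real.rpow_lt_rpow_of_neg hQ (by linarith) (by linarith)

/-- The marginal of `y` under the shrinkage prior. -/
theorem marg_S {a : ℝ} (ha : 1 / 2 < a) {y : T5} (hy : y.1 ≠ 0) (hy2 : y.2 ≠ 0) :
    0 < ∫ φ in paramSpace 4, dens φ.1 φ.2 y * priorS a Xt54 φ := by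
  have hm : Measurable fun φ : V4 × ℝ => dens φ.1 φ.2 y * priorS a Xt54 φ := by
    apply Measurable.mul
    · exact measurable_dens.comp (measurable_id.prodMk measurable_const)
    · exact measurable_priorS a
  have h0 : ∀ ψ ∈ paramSpace 4, 0 ≤ dens ψ.1 ψ.2 y * priorS a Xt54 ψ := by
    intro ψ hψ
    have hv : 0 < ψ.2 := hψ
    have := dens_nonneg ψ.1 hv y
    have := nsq_nonneg ψ.1
    rw [priorS_eq]
    positivity
  rw [param_integral hm h0, lint_const_congr (c := (2 * π) ^ (-(5 / 2) : ℝ))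
    (g := fun v β => v ^ (-((a - 1 / 2) + 3)) * (nsq β)⁻¹ *
      exp (-((1 * nsq (β - y.2) + y.1 ^ 2) / (2 * v)))) (by have := Real.pi_pos; positivity),
    param_lint_S (by linarith) one_pos (by positivity) hy2, ← ENNReal.ofReal_mul
    (by have := Real.pi_pos; positivity), ENNReal.toReal_ofReal]
  · have := Real.pi_pos
    have := kz_pos (z := a - 1 / 2) (by linarith) (show 0 < 1 * nsq y.2 by have := nsq_pos hy2; positivity)
      (show 0 < y.1 ^ 2 by positivity)
    have := Real.Gamma_pos_of_pos (show 0 < a - 1 / 2 by linarith)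
    positivity
  · have := Real.pi_pos
    have := kz_pos (z := a - 1 / 2) (by linarith) (show 0 < 1 * nsq y.2 by have := nsq_pos hy2; positivity)
      (show 0 < y.1 ^ 2 by positivity)
    have := Real.Gamma_pos_of_pos (show 0 < a - 1 / 2 by linarith)
    positivity
  · intro v hv β
    have hpi := Real.pi_pos
    simp only [dens, priorS_eq]
    rw [Real.mul_rpow (by positivity) hv.le, nsq_sub_comm β y.2]
    have e1 : v ^ (-((a - 1 / 2) + 3)) = v ^ (-(5 / 2) : ℝ) * v ^ (-a) := by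
      rw [← Real.rpow_add hv]; congr 1; ring
    rw [e1]
    have e2 : -((1 * nsq (y.2 - β) + y.1 ^ 2) / (2 * v)) = -(y.1 ^ 2 + nsq (y.2 - β)) / (2 * v) := by
      ring
    rw [e2]
    ring

/-- The marginal of `y` under the right invariant prior. -/
theorem marg_I {y : T5} (hy : y.1 ≠ 0) :
    0 < ∫ φ in paramSpace 4, dens φ.1 φ.2 y * priorI φ := by
  have hm : Measurable fun φ : V4 × ℝ => dens φ.1 φ.2 y * priorI φ := by
    apply Measurable.mul
    · exact measurable_dens.comp (measurable_id.prodMk measurable_const)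
    · unfold priorI
      fun_prop
  have h0 : ∀ ψ ∈ paramSpace 4, 0 ≤ dens ψ.1 ψ.2 y * priorI ψ := by
    intro ψ hψ
    have hv : 0 < ψ.2 := hψ
    have := dens_nonneg ψ.1 hv y
    unfold priorI
    positivity
  rw [param_integral hm h0, lint_const_congr (c := (2 * π) ^ (-(5 / 2) : ℝ))
    (g := fun v β => v ^ (-((1 / 2 : ℝ) + 3)) *
      exp (-((1 * nsq (β - y.2) + y.1 ^ 2) / (2 * v)))) (by have := Real.pi_pos; positivity),
    param_lint_I (by norm_num) one_pos (by positivity) y.2, ← ENNReal.ofReal_mul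
    (by have := Real.pi_pos; positivity), ENNReal.toReal_ofReal]
  · have := Real.pi_pos
    have := Real.Gamma_pos_of_pos (show (0:ℝ) < 1 / 2 by norm_num)
    positivity
  · have := Real.pi_pos
    have := Real.Gamma_pos_of_pos (show (0:ℝ) < 1 / 2 by norm_num)
    positivity
  · intro v hv β
    have hpi := Real.pi_pos
    simp only [dens, priorI]
    rw [Real.mul_rpow (by positivity) hv.le, nsq_sub_comm β y.2]
    have e1 : v ^ (-((1 / 2 : ℝ) + 3)) = v ^ (-(5 / 2) : ℝ) * v⁻¹ := by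
      rw [← Real.rpow_neg_one v, ← Real.rpow_add hv]; norm_num
    rw [e1]
    have e2 : -((1 * nsq (y.2 - β) + y.1 ^ 2) / (2 * v)) = -(y.1 ^ 2 + nsq (y.2 - β)) / (2 * v) := by
      ring
    rw [e2]
    ring

/-- The unnormalised posterior mean of `p^(1/3)`, shrinkage prior. -/
theorem num_S {a : ℝ} (ha : 1 / 2 < a) {y w : T5} (hy : y.1 ≠ 0) (hmu : muf y w ≠ 0) :
    ∫ ψ in paramSpace 4, dens ψ.1 ψ.2 w ^ (1 / 3 : ℝ) * (dens ψ.1 ψ.2 y * priorS a Xt54 ψ) =
      (2 * π) ^ (-(10 / 3) : ℝ) * (4 * π ^ 2 / (4 / 3) * (Gamma (a + 1 / 3) * 2 ^ (a + 1 / 3) *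
        kz (a + 1 / 3) (4 / 3 * nsq (muf y w)) (Qf y w))) := by
  have hm : Measurable fun ψ : V4 × ℝ =>
      dens ψ.1 ψ.2 w ^ (1 / 3 : ℝ) * (dens ψ.1 ψ.2 y * priorS a Xt54 ψ) := by
    apply Measurable.mul
    · exact (measurable_dens.comp (measurable_id.prodMk measurable_const)).pow_const _
    apply Measurable.mul
    · exact measurable_dens.comp (measurable_id.prodMk measurable_const)
    · exact measurable_priorS a
  have h0 : ∀ ψ ∈ paramSpace 4,
      0 ≤ dens ψ.1 ψ.2 w ^ (1 / 3 : ℝ) * (dens ψ.1 ψ.2 y * priorS a Xt54 ψ) := by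
    intro ψ hψ
    have hv : 0 < ψ.2 := hψ
    have := dens_nonneg ψ.1 hv y
    have := dens_nonneg ψ.1 hv w
    have := nsq_nonneg ψ.1
    rw [priorS_eq]
    positivity
  have hQ := Qf_pos hy w
  rw [param_integral hm h0, lint_const_congr (c := (2 * π) ^ (-(10 / 3) : ℝ))
    (g := fun v β => v ^ (-((a + 1 / 3) + 3)) * (nsq β)⁻¹ *
      exp (-((4 / 3 * nsq (β - muf y w) + Qf y w) / (2 * v)))) (by have := Real.pi_pos; positivity),
    param_lint_S (by linarith) (by norm_num) hQ hmu, ← ENNReal.ofReal_mul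
    (by have := Real.pi_pos; positivity), ENNReal.toReal_ofReal]
  · have := Real.pi_pos
    have := kz_pos (z := a + 1 / 3) (by linarith)
      (show 0 < 4 / 3 * nsq (muf y w) by have := nsq_pos hmu; positivity) hQ
    have := Real.Gamma_pos_of_pos (show 0 < a + 1 / 3 by linarith)
    positivity
  · intro v hv β
    rw [← mul_assoc, dens_prod β hv y w, priorS_eq]
    have e1 : v ^ (-((a + 1 / 3) + 3)) = v ^ (-(10 / 3) : ℝ) * v ^ (-a) := by
      rw [← Real.rpow_add hv]; congr 1; ring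
    rw [e1]
    ring

/-- The unnormalised posterior mean of `p^(1/3)`, right invariant prior. -/
theorem num_I {y w : T5} (hy : y.1 ≠ 0) :
    ∫ ψ in paramSpace 4, dens ψ.1 ψ.2 w ^ (1 / 3 : ℝ) * (dens ψ.1 ψ.2 y * priorI ψ) =
      (2 * π) ^ (-(10 / 3) : ℝ) * (4 * π ^ 2 / (4 / 3) ^ 2 * (Gamma (4 / 3) * 2 ^ (4 / 3 : ℝ) *
        Qf y w ^ (-(4 / 3 : ℝ)))) := by
  have hm : Measurable fun ψ : V4 × ℝ =>
      dens ψ.1 ψ.2 w ^ (1 / 3 : ℝ) * (dens ψ.1 ψ.2 y * priorI ψ) := by
    apply Measurable.mul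
    · exact (measurable_dens.comp (measurable_id.prodMk measurable_const)).pow_const _
    apply Measurable.mul
    · exact measurable_dens.comp (measurable_id.prodMk measurable_const)
    · unfold priorI
      fun_prop
  have h0 : ∀ ψ ∈ paramSpace 4,
      0 ≤ dens ψ.1 ψ.2 w ^ (1 / 3 : ℝ) * (dens ψ.1 ψ.2 y * priorI ψ) := by
    intro ψ hψ
    have hv : 0 < ψ.2 := hψ
    have := dens_nonneg ψ.1 hv y
    have := dens_nonneg ψ.1 hv w
    unfold priorI
    positivity
  have hQ := Qf_pos hy w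
  rw [param_integral hm h0, lint_const_congr (c := (2 * π) ^ (-(10 / 3) : ℝ))
    (g := fun v β => v ^ (-((4 / 3 : ℝ) + 3)) *
      exp (-((4 / 3 * nsq (β - muf y w) + Qf y w) / (2 * v)))) (by have := Real.pi_pos; positivity),
    param_lint_I (by norm_num) (by norm_num) hQ, ← ENNReal.ofReal_mul
    (by have := Real.pi_pos; positivity), ENNReal.toReal_ofReal]
  · have := Real.pi_pos
    have := Real.Gamma_pos_of_pos (show (0:ℝ) < 4 / 3 by norm_num)
    positivity
  · intro v hv β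
    rw [← mul_assoc, dens_prod β hv y w, priorI]
    have e1 : v ^ (-((4 / 3 : ℝ) + 3)) = v ^ (-(10 / 3) : ℝ) * v⁻¹ := by
      rw [← Real.rpow_neg_one v, ← Real.rpow_add hv]; norm_num
    rw [e1]
    ring

end Pool.Agent.Helper77.Pred
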