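import Pool.Agent.Helper77.Pred.Kernel

namespace Pool.Agent.Helper77.Pred

open MeasureTheory Real Set Filter Topology

noncomputable def ip (x y : V4) : ℝ := ∑ i, x i * y i

noncomputable def lv (v x : T5) : ℝ := v.1 * x.1 + ip v.2 x.2

noncomputable def nv (v : T5) : ℝ := v.1 ^ 2 + nsq v.2

theorem nv_nonneg (v : T5) : 0 ≤ nv v := by
  have := nsq_nonneg v.2
  unfold nv
  positivity

theorem Lam_eq (t : T5) : Lam t = 1 + nv t := rfl

theorem ip_self (x : V4) : ip x x = nsq x := by
  unfold ip nsq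
  apply Finset.sum_congr rfl
  intro i _
  ring

theorem ip_comm (x y : V4) : ip x y = ip y x := by
  unfold ip
  apply Finset.sum_congr rfl
  intro i _
  ring

theorem ip_sq_le (x y : V4) : ip x y ^ 2 ≤ nsq x * nsq y :=
  Finset.sum_mul_sq_le_sq_mul_sq _ _ _

theorem ip_add_right (x y z : V4) : ip x (y + z) = ip x y + ip x z := by
  unfold ip
  rw [← Finset.sum_add_distrib]
  apply Finset.sum_congr rfl
  intro i _
  simp only [Pi.add_apply]
  ring

theorem ip_smul_right (c : ℝ) (x y : V4) : ip x (c • y) = c * ip x y := by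
  unfold ip
  rw [Finset.mul_sum]
  apply Finset.sum_congr rfl
  intro i _
  simp only [Pi.smul_apply, smul_eq_mul]
  ring

theorem ip_neg_right (x y : V4) : ip x (-y) = -ip x y := by
  have := ip_smul_right (-1) x y
  simpa using this

theorem ip_sub_right (x y z : V4) : ip x (y - z) = ip x y - ip x z := by
  rw [sub_eq_add_neg, ip_add_right, ip_neg_right, sub_eq_add_neg]

theorem ip_smul_left (c : ℝ) (x y : V4) : ip (c • x) y = c * ip x y := by
  rw [ip_comm, ip_smul_right, ip_comm]

theorem nsq_add (x y : V4) : nsq (x + y) = nsq x + 2 * ip x y + nsq y := by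
  unfold nsq ip
  rw [Finset.mul_sum, ← Finset.sum_add_distrib, ← Finset.sum_add_distrib]
  apply Finset.sum_congr rfl
  intro i _
  simp only [Pi.add_apply]
  ring

theorem nsq_neg (x : V4) : nsq (-x) = nsq x := by
  have := nsq_smul (-1) x
  simpa using this

theorem continuous_ip : Continuous fun p : V4 × V4 => ip p.1 p.2 := by
  unfold ip
  apply continuous_finsetSum
  intro i _
  exact ((continuous_apply i).comp continuous_fst).mul ((continuous_apply i).comp continuous_snd)

theorem continuous_ip_right (x : V4) : Continuous fun y : V4 => ip x y :=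
  continuous_ip.comp (continuous_const.prodMk continuous_id)

theorem continuous_lv (v : T5) : Continuous (lv v) := by
  unfold lv
  exact (continuous_const.mul continuous_fst).add ((continuous_ip_right v.2).comp continuous_snd)

theorem lv_sq_le (v x : T5) : lv v x ^ 2 ≤ 2 * nv v * nv x := by
  have h1 := ip_sq_le v.2 x.2
  have h2 := nsq_nonneg v.2
  have h3 := nsq_nonneg x.2
  unfold lv nv
  have h4 : (v.1 * x.1 + ip v.2 x.2) ^ 2 ≤ 2 * ((v.1 * x.1) ^ 2 + ip v.2 x.2 ^ 2) := by
    nlinarith [sq_nonneg (v.1 * x.1 - ip v.2 x.2)]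
  have h5 : (v.1 * x.1) ^ 2 = v.1 ^ 2 * x.1 ^ 2 := by ring
  have h6 : 0 ≤ v.1 ^ 2 * nsq x.2 := by positivity
  have h7 : 0 ≤ x.1 ^ 2 * nsq v.2 := by positivity
  nlinarith

theorem Lam_line (x v : T5) (t : ℝ) : Lam (x + t • v) = Lam x + t * (2 * lv v x) + t ^ 2 * nv v := by
  unfold Lam lv nv
  simp only [Prod.fst_add, Prod.smul_fst, Prod.snd_add, Prod.smul_snd, smul_eq_mul, nsq_add,
    nsq_smul, ip_smul_right, ip_comm x.2 v.2]
  ring

theorem integrable_lv_sq {c : ℝ} (hc : 7 / 2 < c) (v : T5) :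
    Integrable fun x : T5 => lv v x ^ 2 * Lam x ^ (-c) := by
  have h1 := (integrable_Lam (p := c - 1) (by linarith)).const_mul (2 * nv v)
  refine h1.mono' (((continuous_lv v).measurable.pow_const 2).mul
    (measurable_Lam.pow_const _)).aestronglyMeasurable (Eventually.of_forall fun x => ?_)
  have hL := Lam_pos x
  have h2 := lv_sq_le v x
  have h3 : nv x ≤ Lam x := by rw [Lam_eq]; linarith
  have h4 := nv_nonneg v
  rw [Real.norm_of_nonneg (by positivity)]
  have h5 : Lam x ^ (-(c - 1)) = Lam x * Lam x ^ (-c) := by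
    nth_rewrite 2 [← Real.rpow_one (Lam x)]
    rw [← Real.rpow_add hL]; congr 1; ring
  rw [h5, ← mul_assoc]
  gcongr
  calc lv v x ^ 2 ≤ 2 * nv v * nv x := h2
    _ ≤ 2 * nv v * Lam x := by gcongr

theorem integrable_lv {c : ℝ} (hc : 3 < c) (v : T5) :
    Integrable fun x : T5 => lv v x * Lam x ^ (-c) := by
  have h1 := (integrable_Lam (p := c - 1 / 2) (by linarith)).const_mul (2 * nv v + 1)
  refine h1.mono' (((continuous_lv v).measurable).mul
    (measurable_Lam.pow_const _)).aestronglyMeasurable (Eventually.of_forall fun x => ?_)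
  have hL := Lam_pos x
  have h2 := lv_sq_le v x
  have h3 : nv x ≤ Lam x := by rw [Lam_eq]; linarith
  have h4 := nv_nonneg v
  have h5 : Lam x ^ (-(c - 1 / 2)) = √(Lam x) * Lam x ^ (-c) := by
    rw [Real.sqrt_eq_rpow, ← Real.rpow_add hL]; congr 1; ring
  rw [norm_mul, Real.norm_of_nonneg (show 0 ≤ Lam x ^ (-c) by positivity), h5, ← mul_assoc]
  gcongr
  rw [Real.norm_eq_abs]
  apply abs_le_of_sq_le_sq
  · rw [mul_pow, Real.sq_sqrt hL.le]
    calc lv v x ^ 2 ≤ 2 * nv v * nv x := h2
      _ ≤ 2 * nv v * Lam x := by gcongr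
      _ ≤ (2 * nv v + 1) ^ 2 * Lam x := by
        gcongr
        nlinarith
  · positivity

theorem hasLineDerivAt_Lam (c : ℝ) (v x : T5) :
    HasLineDerivAt ℝ (fun y : T5 => Lam y ^ (-c)) (-(2 * c) * (lv v x * Lam x ^ (-(c + 1)))) x v := by
  have hL := Lam_pos x
  have h1 : HasDerivAt (fun t : ℝ => Lam x + t * (2 * lv v x) + t ^ 2 * nv v) (2 * lv v x) 0 := by
    have h2 : HasDerivAt (fun t : ℝ => Lam x + t * (2 * lv v x) + t ^ 2 * nv v)
        (1 * (2 * lv v x) + (2 : ℕ) * (0:ℝ) ^ (2 - 1) * nv v) 0 :=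
      (((hasDerivAt_id (0:ℝ)).mul_const (2 * lv v x)).const_add (Lam x)).add
        ((hasDerivAt_pow 2 (0:ℝ)).mul_const (nv v))
    convert! h2 using 1
    norm_num
  unfold HasLineDerivAt
  have h3 : (fun t : ℝ => Lam (x + t • v) ^ (-c)) =
      fun t : ℝ => (Lam x + t * (2 * lv v x) + t ^ 2 * nv v) ^ (-c) := by
    funext t
    rw [Lam_line]
  rw [h3]
  have h4 := h1.rpow_const (p := -c) (Or.inl (by simpa using hL.ne'))
  convert! h4 using 1
  simp only [zero_mul, add_zero, ne_eq, OfNat.ofNat_ne_zero, not_false_eq_true, zero_pow]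
  have : -(c + 1) = -c - 1 := by ring
  rw [this]
  ring

theorem hasLineDerivAt_lv (v x : T5) : HasLineDerivAt ℝ (lv v) (nv v) x v := by
  unfold HasLineDerivAt
  have h3 : (fun t : ℝ => lv v (x + t • v)) = fun t : ℝ => lv v x + t * nv v := by
    funext t
    unfold lv nv
    simp only [Prod.fst_add, Prod.smul_fst, Prod.snd_add, Prod.smul_snd, smul_eq_mul,
      ip_add_right, ip_smul_right, ip_self]
    ring
  rw [h3]
  have h2 : HasDerivAt (fun t : ℝ => lv v x + t * nv v) (1 * nv v) 0 :=
    ((hasDerivAt_id (0:ℝ)).mul_const (nv v)).const_add (lv v x)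
  simpa using h2

/-- Second moments for `c > 4`. -/
theorem moment_aux {c : ℝ} (hc : 4 < c) (v : T5) :
    2 * (c - 1) * ∫ x : T5, lv v x ^ 2 * Lam x ^ (-c) = nv v * II (c - 1) := by
  have hH := haar_T5
  have h := integral_bilinear_hasLineDerivAt_right_eq_neg_left_of_integrable
    (μ := (volume : Measure T5)) (B := ContinuousLinearMap.mul ℝ ℝ)
    (f := lv v) (f' := fun _ => nv v) (g := fun x => Lam x ^ (-(c - 1)))
    (g' := fun x => -(2 * (c - 1)) * (lv v x * Lam x ^ (-((c - 1) + 1)))) (v := v)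
    (by
      simp only [ContinuousLinearMap.mul_apply']
      exact (integrable_Lam (by linarith)).const_mul _)
    (by
      simp only [ContinuousLinearMap.mul_apply']
      have := (integrable_lv_sq (c := c) (by linarith) v).const_mul (-(2 * (c - 1)))
      refine this.congr (Eventually.of_forall fun x => ?_)
      simp only [sub_add_cancel]
      ring)
    (by
      simp only [ContinuousLinearMap.mul_apply']
      exact integrable_lv (by linarith) v)
    (fun x _ => hasLineDerivAt_lv v x)
    (fun x _ => hasLineDerivAt_Lam (c - 1) v x)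
  simp only [ContinuousLinearMap.mul_apply', sub_add_cancel] at h
  rw [integral_const_mul] at h
  have h2 : ∫ x : T5, lv v x * (-(2 * (c - 1)) * (lv v x * Lam x ^ (-c))) =
      -(2 * (c - 1)) * ∫ x : T5, lv v x ^ 2 * Lam x ^ (-c) := by
    rw [← integral_const_mul]
    congr 1
    funext x
    ring
  rw [h2] at h
  rw [II]
  linarith

/-- Second moments for `c = 4`. -/
theorem moment_four (v : T5) :
    2 * (4 - 1) * ∫ x : T5, lv v x ^ 2 * Lam x ^ (-(4:ℝ)) = nv v * II (4 - 1) := by
  set cn : ℕ → ℝ := fun n => 4 + 1 / ((n : ℝ) + 1) with hcn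
  have hc4 : ∀ n, 4 < cn n := by
    intro n
    have : (0:ℝ) < 1 / ((n : ℝ) + 1) := by positivity
    simp only [hcn]
    linarith
  have hlim : Tendsto cn atTop (𝓝 4) := by
    have := tendsto_one_div_add_atTop_nhds_zero_nat (𝕜 := ℝ)
    have h2 := this.const_add (4:ℝ)
    rw [add_zero] at h2
    exact h2
  have hA : Tendsto (fun n => ∫ x : T5, lv v x ^ 2 * Lam x ^ (-(cn n))) atTop
      (𝓝 (∫ x : T5, lv v x ^ 2 * Lam x ^ (-(4:ℝ)))) := by
    apply tendsto_integral_of_dominated_convergence (fun x => lv v x ^ 2 * Lam x ^ (-(4:ℝ)))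
    · intro n
      exact (integrable_lv_sq (c := cn n) (by have := hc4 n; linarith) v).aestronglyMeasurable
    · exact integrable_lv_sq (by norm_num) v
    · intro n
      refine Eventually.of_forall fun x => ?_
      have hL := Lam_pos x
      rw [Real.norm_of_nonneg (by positivity)]
      gcongr
      · exact one_le_Lam x
      · exact (hc4 n).le
    · refine Eventually.of_forall fun x => ?_
      apply Tendsto.const_mul
      have hL := Lam_pos x
      exact (Real.continuous_const_rpow hL.ne').continuousAt.tendsto.comp hlim.neg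
  have hB : Tendsto (fun n => II (cn n - 1)) atTop (𝓝 (II (4 - 1))) := by
    unfold II
    apply tendsto_integral_of_dominated_convergence (fun x => Lam x ^ (-((4:ℝ) - 1)))
    · intro n
      exact (integrable_Lam (p := cn n - 1) (by have := hc4 n; linarith)).aestronglyMeasurable
    · exact integrable_Lam (by norm_num)
    · intro n
      refine Eventually.of_forall fun x => ?_
      have hL := Lam_pos x
      rw [Real.norm_of_nonneg (by positivity)]
      gcongr
      · exact one_le_Lam x
      · exact (hc4 n).le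
    · refine Eventually.of_forall fun x => ?_
      have hL := Lam_pos x
      exact (Real.continuous_const_rpow hL.ne').continuousAt.tendsto.comp
        ((hlim.sub_const 1).neg)
  have h1 : Tendsto (fun n => 2 * (cn n - 1) * ∫ x : T5, lv v x ^ 2 * Lam x ^ (-(cn n))) atTop
      (𝓝 (2 * (4 - 1) * ∫ x : T5, lv v x ^ 2 * Lam x ^ (-(4:ℝ)))) :=
    ((hlim.sub_const 1).const_mul 2).mul hA
  have h2 : Tendsto (fun n => nv v * II (cn n - 1)) atTop (𝓝 (nv v * II (4 - 1))) :=
    hB.const_mul _
  refine tendsto_nhds_unique h1 (h2.congr fun n => ?_)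
  exact (moment_aux (hc4 n) v).symm

theorem moment {c : ℝ} (hc : 4 ≤ c) (v : T5) :
    2 * (c - 1) * ∫ x : T5, lv v x ^ 2 * Lam x ^ (-c) = nv v * II (c - 1) := by
  rcases hc.lt_or_eq with h | h
  · exact moment_aux h v
  · rw [← h]; exact moment_four v

/-- Standard basis vector of `V4` inside `T5`. -/
noncomputable def bv (i : Fin 4) : T5 := (0, Pi.single i 1)

theorem lv_bv (i : Fin 4) (x : T5) : lv (bv i) x = x.2 i := by
  simp [lv, bv, ip, Pi.single_apply]

theorem nv_bv (i : Fin 4) : nv (bv i) = 1 := by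
  simp [nv, bv, nsq, Pi.single_apply]

theorem lv_b0 (x : T5) : lv (1, 0) x = x.1 := by
  simp [lv, ip]

theorem nv_b0 : nv ((1 : ℝ), (0 : V4)) = 1 := by
  simp [nv, nsq]

theorem integrable_coord {c : ℝ} (hc : 7 / 2 < c) (i : Fin 4) :
    Integrable fun x : T5 => x.2 i ^ 2 * Lam x ^ (-c) := by
  have := integrable_lv_sq hc (bv i)
  simpa only [lv_bv] using this

theorem moment_coord {c : ℝ} (hc : 4 ≤ c) (i : Fin 4) :
    ∫ x : T5, x.2 i ^ 2 * Lam x ^ (-c) = II (c - 1) / (2 * (c - 1)) := by
  have h := moment hc (bv i)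
  simp only [lv_bv, nv_bv] at h
  have : 2 * (c - 1) ≠ 0 := by
    have : 0 < c - 1 := by linarith
    positivity
  rw [eq_div_iff this]
  linarith

theorem integrable_nsq {c : ℝ} (hc : 7 / 2 < c) :
    Integrable fun x : T5 => nsq x.2 * Lam x ^ (-c) := by
  unfold nsq
  simp_rw [Finset.sum_mul]
  exact integrable_finsetSum _ fun i _ => integrable_coord hc i

theorem moment_nsq {c : ℝ} (hc : 4 ≤ c) :
    ∫ x : T5, nsq x.2 * Lam x ^ (-c) = 4 * (II (c - 1) / (2 * (c - 1))) := by
  unfold nsq
  simp_rw [Finset.sum_mul]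
  rw [integral_finsetSum _ fun i _ => integrable_coord (by linarith) i]
  simp_rw [moment_coord hc]
  simp

theorem II_rec {c : ℝ} (hc : 4 ≤ c) :
    II c = (2 * c - 7) / (2 * (c - 1)) * II (c - 1) := by
  have h0 := moment hc ((1 : ℝ), (0 : V4))
  simp only [lv_b0, nv_b0] at h0
  have hi0 : Integrable fun x : T5 => x.1 ^ 2 * Lam x ^ (-c) := by
    have := integrable_lv_sq (c := c) (by linarith) ((1 : ℝ), (0 : V4))
    simpa only [lv_b0] using this
  have h1 : II (c - 1) = II c + (∫ x : T5, x.1 ^ 2 * Lam x ^ (-c)) +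
      ∫ x : T5, nsq x.2 * Lam x ^ (-c) := by
    have e : ∀ x : T5, Lam x ^ (-(c - 1)) = Lam x ^ (-c) + x.1 ^ 2 * Lam x ^ (-c) +
        nsq x.2 * Lam x ^ (-c) := by
      intro x
      have hL := Lam_pos x
      have h5 : Lam x ^ (-(c - 1)) = Lam x * Lam x ^ (-c) := by
        nth_rewrite 2 [← Real.rpow_one (Lam x)]
        rw [← Real.rpow_add hL]; congr 1; ring
      rw [h5]
      nth_rewrite 1 [Lam]
      ring
    unfold II
    simp_rw [e]
    rw [integral_add, integral_add]
    · exact integrable_Lam (by linarith)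
    · exact hi0
    · exact (integrable_Lam (by linarith)).add hi0
    · exact integrable_nsq (by linarith)
  rw [moment_nsq hc] at h1
  have hc1 : 0 < c - 1 := by linarith
  have h2 : ∫ x : T5, x.1 ^ 2 * Lam x ^ (-c) = II (c - 1) / (2 * (c - 1)) := by
    rw [eq_div_iff (by positivity)]; linarith
  rw [h2] at h1
  have h3 : II c = II (c - 1) - 5 * (II (c - 1) / (2 * (c - 1))) := by linarith
  rw [h3]
  field_simp
  ring

/-- Quadratic moments in a direction of `V4`. -/
theorem moment_ip {c : ℝ} (hc : 4 ≤ c) (e : V4) :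
    ∫ x : T5, ip e x.2 ^ 2 * Lam x ^ (-c) = nsq e * (II (c - 1) / (2 * (c - 1))) := by
  have h := moment hc ((0 : ℝ), e)
  have e1 : ∀ x : T5, lv ((0 : ℝ), e) x = ip e x.2 := by
    intro x; simp [lv]
  have e2 : nv ((0 : ℝ), e) = nsq e := by simp [nv]
  simp only [e1, e2] at h
  have hc1 : 0 < c - 1 := by linarith
  rw [← mul_div_assoc, eq_div_iff (by positivity)]
  linarith

theorem integrable_ip_sq {c : ℝ} (hc : 7 / 2 < c) (e : V4) :
    Integrable fun x : T5 => ip e x.2 ^ 2 * Lam x ^ (-c) := by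
  have h := integrable_lv_sq hc ((0 : ℝ), e)
  have e1 : ∀ x : T5, lv ((0 : ℝ), e) x = ip e x.2 := by
    intro x; simp [lv]
  simpa only [e1] using h

theorem integrable_ip {c : ℝ} (hc : 3 < c) (e : V4) :
    Integrable fun x : T5 => ip e x.2 * Lam x ^ (-c) := by
  have h := integrable_lv hc ((0 : ℝ), e)
  have e1 : ∀ x : T5, lv ((0 : ℝ), e) x = ip e x.2 := by
    intro x; simp [lv]
  simpa only [e1] using h

theorem Lam_neg (x : T5) : Lam (-x) = Lam x := by
  unfold Lam
  simp [nsq_neg]

theorem integral_ip (c : ℝ) (e : V4) : ∫ x : T5, ip e x.2 * Lam x ^ (-c) = 0 := by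
  have hH := haar_T5
  have h := integral_neg_eq_self (fun x : T5 => ip e x.2 * Lam x ^ (-c)) (volume : Measure T5)
  simp only [Prod.snd_neg, ip_neg_right, Lam_neg, neg_mul, integral_neg] at h
  linarith

theorem II_four : II 4 = II 3 / 6 := by
  have := II_rec (c := 4) le_rfl
  norm_num at this
  rw [this]; ring

theorem II_five : II 5 = 3 / 8 * II 4 := by
  have := II_rec (c := 5) (by norm_num)
  norm_num at this
  exact this

end Pool.Agent.Helper77.Pred
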