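import Pool.Agent.Helper77.Pred.Far

namespace Pool.Agent.Helper77.Pred

open MeasureTheory Real Set Filter Topology

theorem KKf_formula {z ε Q : ℝ} {w : V4} (hw : 0 < nsq w) (hQ : 0 < Q) :
    KKf z ε w Q = (1 - (Q / (Q + 4 / 3 * nsq w)) ^ z) / (ε ^ 2 * nsq w) := by
  unfold KKf
  rw [kk_eq (by positivity) hQ, kz_formula (by positivity) hQ, Real.rpow_neg hQ.le]
  have : 0 < Q ^ z := by positivity
  field_simp

/-- The displacement vector. -/
noncomputable def zz (s : ℝ) (x : V4) (t : T5) : V4 := (1 / 2 : ℝ) • (s • t.2 - x)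

theorem wp_eq (μ : V4) (s : ℝ) (x : V4) (t : T5) : wp μ s x t = μ + zz s x t := rfl

/-- The second-order remainder of the kernel. -/
@[irreducible] noncomputable def phi (ε : ℝ) (μ : V4) (s : ℝ) (x : V4) (t : T5) : ℝ :=
  (KKf (4 / 3) ε (wp μ s x t) (s ^ 2 * Lam t) ^ 3 - 1 + 6 * ε * ip (ε • μ) (zz s x t)) / ε ^ 2

theorem kernel_of_phi {ε : ℝ} (hε : 0 < ε) (μ : V4) (s : ℝ) (x : V4) (t : T5) :
    KKf (4 / 3) ε (wp μ s x t) (s ^ 2 * Lam t) ^ 3 =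
      1 - 6 * ε * ip (ε • μ) (zz s x t) + ε ^ 2 * phi ε μ s x t := by
  unfold phi
  field_simp
  ring

theorem scaled_nsq {ε : ℝ} {μ : V4} (hμ : ε ^ 2 * nsq μ = 1) (ζ : V4) :
    ε ^ 2 * nsq (μ + ζ) = 1 + (2 * ε * ip (ε • μ) ζ + ε ^ 2 * nsq ζ) := by
  rw [nsq_add, ip_smul_left]
  linear_combination hμ

theorem phi_lower {ε : ℝ} (hε : 0 < ε) {μ : V4} (hμ : ε ^ 2 * nsq μ = 1) {s : ℝ} (hs : s ≠ 0)
    (x : V4) (t : T5) :
    -(3 * nsq (zz s x t) + 9 / 4 * (s ^ 2 * Lam t)) ≤ phi ε μ s x t := by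
  have hL := Lam_pos t
  have hQ : 0 < s ^ 2 * Lam t := by positivity
  have h1 := KKf_lower (z := 4 / 3) (by norm_num) hε hQ (wp μ s x t)
  have hn := nsq_nonneg (wp μ s x t)
  set T := ε ^ 2 * (nsq (wp μ s x t) + 3 / 4 * (s ^ 2 * Lam t)) with hT
  have hTpos : 0 < T := by positivity
  have h2 : (1 / T) ^ 3 ≤ KKf (4 / 3) ε (wp μ s x t) (s ^ 2 * Lam t) ^ 3 :=
    pow_le_pow_left₀ (by positivity) h1 3
  have h3 : 4 - 3 * T ≤ (1 / T) ^ 3 := by
    have h4 : (1 / T) ^ 3 - (4 - 3 * T) = (1 - T) ^ 2 * (3 * T ^ 2 + 2 * T + 1) / T ^ 3 := by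
      field_simp
      ring
    have h5 : 0 ≤ (1 - T) ^ 2 * (3 * T ^ 2 + 2 * T + 1) / T ^ 3 := by positivity
    linarith
  have h6 : T = 1 + (2 * ε * ip (ε • μ) (zz s x t) + ε ^ 2 * nsq (zz s x t)) +
      ε ^ 2 * (3 / 4 * (s ^ 2 * Lam t)) := by
    rw [hT, mul_add, wp_eq, scaled_nsq hμ]
  unfold phi
  rw [le_div_iff₀ (by positivity)]
  nlinarith

/-- Pointwise limit of the second-order remainder. -/
theorem phi_tendsto_aux {ε : ℕ → ℝ} {μ : ℕ → V4} {e : V4} (hε : ∀ n, 0 < ε n)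
    (hμ : ∀ n, ε n ^ 2 * nsq (μ n) = 1) (hε0 : Tendsto ε atTop (𝓝 0))
    (he : Tendsto (fun n => ε n • μ n) atTop (𝓝 e)) (ζ : V4) {Q : ℝ} (hQ : 0 < Q) :
    Tendsto (fun n => (KKf (4 / 3) (ε n) (μ n + ζ) Q ^ 3 - 1 + 6 * ε n * ip (ε n • μ n) ζ) /
      ε n ^ 2) atTop (𝓝 (-(3 * nsq ζ) + 24 * ip e ζ ^ 2)) := by
  have hip : Tendsto (fun n => ip (ε n • μ n) ζ) atTop (𝓝 (ip e ζ)) :=
    (continuous_ip.tendsto (e, ζ)).comp (he.prodMk_nhds tendsto_const_nhds)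
  set q : ℕ → ℝ := fun n => 2 * ε n * ip (ε n • μ n) ζ + ε n ^ 2 * nsq ζ with hq
  have hq0 : Tendsto q atTop (𝓝 0) := by
    have h1 : Tendsto q atTop (𝓝 (2 * 0 * ip e ζ + 0 ^ 2 * nsq ζ)) :=
      ((hε0.const_mul 2).mul hip).add ((hε0.pow 2).mul_const _)
    simpa using h1
  set C : ℕ → ℝ := fun n => Q / (ε n ^ 2 * Q + 4 / 3 * (1 + q n)) with hC
  have hClim : Tendsto C atTop (𝓝 (Q / (0 ^ 2 * Q + 4 / 3 * (1 + 0)))) := by
    apply Tendsto.div tendsto_const_nhds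
    · exact ((hε0.pow 2).mul_const Q).add ((hq0.const_add 1).const_mul _)
    · norm_num
  have hC43 : Tendsto (fun n => C n ^ (4 / 3 : ℝ)) atTop
      (𝓝 ((Q / (0 ^ 2 * Q + 4 / 3 * (1 + 0))) ^ (4 / 3 : ℝ))) :=
    hClim.rpow_const (Or.inr (by norm_num))
  have he13 : Tendsto (fun n => (ε n ^ 2) ^ (1 / 3 : ℝ)) atTop (𝓝 0) := by
    have := (hε0.pow 2).rpow_const (p := 1 / 3) (Or.inr (by norm_num))
    simpa using this
  have he43 : Tendsto (fun n => (ε n ^ 2) ^ (4 / 3 : ℝ)) atTop (𝓝 0) := by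
    have := (hε0.pow 2).rpow_const (p := 4 / 3) (Or.inr (by norm_num))
    simpa using this
  set y : ℕ → ℝ := fun n => (ε n ^ 2) ^ (4 / 3 : ℝ) * C n ^ (4 / 3 : ℝ) with hy
  have hy0 : Tendsto y atTop (𝓝 0) := by
    have := he43.mul hC43
    simpa using this
  have hG : Tendsto (fun n => -(3 * nsq ζ) + (2 * ip (ε n • μ n) ζ + ε n * nsq ζ) ^ 2 *
      ((6 + 8 * q n + 3 * q n ^ 2) / (1 + q n) ^ 3) -
      ((ε n ^ 2) ^ (1 / 3 : ℝ) * C n ^ (4 / 3 : ℝ)) * (3 - 3 * y n + y n ^ 2) / (1 + q n) ^ 3)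
      atTop (𝓝 (-(3 * nsq ζ) + (2 * ip e ζ + 0 * nsq ζ) ^ 2 *
      ((6 + 8 * 0 + 3 * 0 ^ 2) / (1 + 0) ^ 3) -
      (0 * (Q / (0 ^ 2 * Q + 4 / 3 * (1 + 0))) ^ (4 / 3 : ℝ)) * (3 - 3 * 0 + 0 ^ 2) /
        (1 + 0) ^ 3)) := by
    apply Tendsto.sub
    · apply Tendsto.add tendsto_const_nhds
      apply Tendsto.mul
      · exact ((hip.const_mul 2).add (hε0.mul_const _)).pow 2
      · apply Tendsto.div
        · exact ((hq0.const_mul 8).const_add 6).add ((hq0.pow 2).const_mul 3)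
        · exact (hq0.const_add 1).pow 3
        · norm_num
    · apply Tendsto.div
      · exact (he13.mul hC43).mul (((hy0.const_mul 3).const_sub 3).add (hy0.pow 2))
      · exact (hq0.const_add 1).pow 3
      · norm_num
  have hval : -(3 * nsq ζ) + (2 * ip e ζ + 0 * nsq ζ) ^ 2 *
      ((6 + 8 * 0 + 3 * 0 ^ 2) / (1 + 0) ^ 3) -
      (0 * (Q / (0 ^ 2 * Q + 4 / 3 * (1 + 0))) ^ (4 / 3 : ℝ)) * (3 - 3 * 0 + 0 ^ 2) /
        (1 + 0) ^ 3 = -(3 * nsq ζ) + 24 * ip e ζ ^ 2 := by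
    ring
  rw [hval] at hG
  refine hG.congr' ?_
  have hev : ∀ᶠ n in atTop, -(1 / 2) < q n := hq0.eventually (lt_mem_nhds (by norm_num))
  filter_upwards [hev] with n hn
  have hen := hε n
  have hm : 0 < 1 + q n := by linarith
  have hms : ε n ^ 2 * nsq (μ n + ζ) = 1 + q n := scaled_nsq (hμ n) ζ
  have hw : 0 < nsq (μ n + ζ) := by
    by_contra h
    have h2 := nsq_nonneg (μ n + ζ)
    have h3 : nsq (μ n + ζ) = 0 := by linarith
    rw [h3, mul_zero] at hms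
    linarith
  have hwv : nsq (μ n + ζ) = (1 + q n) / ε n ^ 2 := by
    rw [eq_div_iff (by positivity), ← hms]; ring
  have hX : Q / (Q + 4 / 3 * nsq (μ n + ζ)) = ε n ^ 2 * C n := by
    rw [hwv, hC]
    have : 0 < ε n ^ 2 * Q + 4 / 3 * (1 + q n) := by positivity
    field_simp
  have hCpos : 0 < C n := by
    rw [hC]
    positivity
  have hX43 : (Q / (Q + 4 / 3 * nsq (μ n + ζ))) ^ (4 / 3 : ℝ) = y n := by
    rw [hX, Real.mul_rpow (by positivity) hCpos.le]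
  have hyn : y n = ε n ^ 2 * ((ε n ^ 2) ^ (1 / 3 : ℝ) * C n ^ (4 / 3 : ℝ)) := by
    simp only [hy]
    rw [← mul_assoc]
    congr 1
    nth_rewrite 2 [← Real.rpow_one (ε n ^ 2)]
    rw [← Real.rpow_add (by positivity)]
    norm_num
  rw [KKf_formula hw hQ, hX43, hms]
  set B := (ε n ^ 2) ^ (1 / 3 : ℝ) * C n ^ (4 / 3 : ℝ) with hB
  have hqn : q n = 2 * ε n * ip (ε n • μ n) ζ + ε n ^ 2 * nsq ζ := rfl
  have hD : ε n * (2 * ip (ε n • μ n) ζ + ε n * nsq ζ) = q n := by rw [hqn]; ring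
  have hD2 : ε n ^ 2 * (2 * ip (ε n • μ n) ζ + ε n * nsq ζ) ^ 2 = q n ^ 2 := by
    rw [← hD]; ring
  have hq3 : 6 * ε n * ip (ε n • μ n) ζ = 3 * q n - 3 * ε n ^ 2 * nsq ζ := by rw [hqn]; ring
  rw [eq_div_iff (by positivity), hq3]
  have hm3 : (1 + q n) ^ 3 ≠ 0 := by positivity
  have e1 : (-(3 * nsq ζ) + (2 * ip (ε n • μ n) ζ + ε n * nsq ζ) ^ 2 *
      ((6 + 8 * q n + 3 * q n ^ 2) / (1 + q n) ^ 3) -
      B * (3 - 3 * y n + y n ^ 2) / (1 + q n) ^ 3) * ε n ^ 2 =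
      -(3 * ε n ^ 2 * nsq ζ) + (ε n ^ 2 * (2 * ip (ε n • μ n) ζ + ε n * nsq ζ) ^ 2) *
      ((6 + 8 * q n + 3 * q n ^ 2) / (1 + q n) ^ 3) -
      (ε n ^ 2 * B) * (3 - 3 * y n + y n ^ 2) / (1 + q n) ^ 3 := by ring
  rw [e1, hD2, ← hyn]
  field_simp
  ring

theorem phi_tendsto {ε : ℕ → ℝ} {μ : ℕ → V4} {e : V4} (hε : ∀ n, 0 < ε n)
    (hμ : ∀ n, ε n ^ 2 * nsq (μ n) = 1) (hε0 : Tendsto ε atTop (𝓝 0))
    (he : Tendsto (fun n => ε n • μ n) atTop (𝓝 e)) {s : ℝ} (hs : s ≠ 0) (x : V4) (t : T5) :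
    Tendsto (fun n => phi (ε n) (μ n) s x t) atTop
      (𝓝 (-(3 * nsq (zz s x t)) + 24 * ip e (zz s x t) ^ 2)) := by
  have hL := Lam_pos t
  have h := phi_tendsto_aux hε hμ hε0 he (zz s x t) (Q := s ^ 2 * Lam t) (by positivity)
  refine h.congr fun n => ?_
  rw [phi, wp_eq]

/-- The clamp. -/
noncomputable def AA (s : ℝ) (x : V4) (t : T5) : ℝ :=
  27 * nsq (zz s x t) + 9 / 4 * (s ^ 2 * Lam t)

@[irreducible] noncomputable def LL (ε : ℝ) (μ : V4) (s : ℝ) (x : V4) : ℝ :=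
  ∫ t : T5, Lam t ^ (-(4:ℝ)) * min (phi ε μ s x t) (AA s x t)

theorem nsq_zz (s : ℝ) (x : V4) (t : T5) :
    nsq (zz s x t) = s ^ 2 / 4 * nsq t.2 - s / 2 * ip x t.2 + nsq x / 4 := by
  have e : zz s x t = (s / 2) • t.2 + (-(1 / 2 : ℝ)) • x := by
    unfold zz
    ext i
    simp only [Pi.add_apply, Pi.sub_apply, Pi.smul_apply, smul_eq_mul]
    ring
  rw [e, nsq_add, nsq_smul, nsq_smul, ip_smul_right, ip_smul_left, ip_comm t.2 x]
  ring

theorem ip_zz (e : V4) (s : ℝ) (x : V4) (t : T5) :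
    ip e (zz s x t) = s / 2 * ip e t.2 - ip e x / 2 := by
  unfold zz
  rw [ip_smul_right, ip_sub_right, ip_smul_right]
  ring

theorem integrable_nsq_zz (s : ℝ) (x : V4) :
    (Integrable fun t : T5 => Lam t ^ (-(4:ℝ)) * nsq (zz s x t)) ∧
    ∫ t : T5, Lam t ^ (-(4:ℝ)) * nsq (zz s x t) = II 4 * (s ^ 2 + nsq x / 4) := by
  have e : ∀ t : T5, Lam t ^ (-(4:ℝ)) * nsq (zz s x t) =
      s ^ 2 / 4 * (nsq t.2 * Lam t ^ (-(4:ℝ))) - s / 2 * (ip x t.2 * Lam t ^ (-(4:ℝ))) +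
        nsq x / 4 * Lam t ^ (-(4:ℝ)) := by
    intro t
    rw [nsq_zz]
    ring
  have i1 := (integrable_nsq (c := 4) (by norm_num)).const_mul (s ^ 2 / 4)
  have i2 := (integrable_ip (c := 4) (by norm_num) x).const_mul (s / 2)
  have i3 := (integrable_Lam (p := 4) (by norm_num)).const_mul (nsq x / 4)
  have i12 : Integrable fun t : T5 => s ^ 2 / 4 * (nsq t.2 * Lam t ^ (-(4:ℝ))) -
      s / 2 * (ip x t.2 * Lam t ^ (-(4:ℝ))) := i1.sub i2
  simp_rw [e]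
  refine ⟨i12.add i3, ?_⟩
  rw [integral_add i12 i3, integral_sub i1 i2, integral_const_mul, integral_const_mul,
    integral_const_mul, integral_ip, moment_nsq le_rfl]
  have h1 : ∫ t : T5, Lam t ^ (-(4:ℝ)) = II 4 := by rw [II]
  have h2 : (4:ℝ) - 1 = 3 := by norm_num
  rw [h1, h2, II_four]
  ring

theorem integrable_ip_zz_sq (e : V4) (s : ℝ) (x : V4) :
    (Integrable fun t : T5 => Lam t ^ (-(4:ℝ)) * ip e (zz s x t) ^ 2) ∧
    ∫ t : T5, Lam t ^ (-(4:ℝ)) * ip e (zz s x t) ^ 2 =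
      II 4 * (s ^ 2 / 4 * nsq e + ip e x ^ 2 / 4) := by
  have e1 : ∀ t : T5, Lam t ^ (-(4:ℝ)) * ip e (zz s x t) ^ 2 =
      s ^ 2 / 4 * (ip e t.2 ^ 2 * Lam t ^ (-(4:ℝ))) -
      s / 2 * ip e x * (ip e t.2 * Lam t ^ (-(4:ℝ))) +
        ip e x ^ 2 / 4 * Lam t ^ (-(4:ℝ)) := by
    intro t
    rw [ip_zz]
    ring
  have i1 := (integrable_ip_sq (c := 4) (by norm_num) e).const_mul (s ^ 2 / 4)
  have i2 := (integrable_ip (c := 4) (by norm_num) e).const_mul (s / 2 * ip e x)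
  have i3 := (integrable_Lam (p := 4) (by norm_num)).const_mul (ip e x ^ 2 / 4)
  have i12 : Integrable fun t : T5 => s ^ 2 / 4 * (ip e t.2 ^ 2 * Lam t ^ (-(4:ℝ))) -
      s / 2 * ip e x * (ip e t.2 * Lam t ^ (-(4:ℝ))) := i1.sub i2
  simp_rw [e1]
  refine ⟨i12.add i3, ?_⟩
  rw [integral_add i12 i3, integral_sub i1 i2, integral_const_mul, integral_const_mul,
    integral_const_mul, integral_ip, moment_ip le_rfl]
  have h1 : ∫ t : T5, Lam t ^ (-(4:ℝ)) = II 4 := by rw [II]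
  have h2 : (4:ℝ) - 1 = 3 := by norm_num
  rw [h1, h2, II_four]
  ring

theorem integrable_ip_zz (e : V4) (s : ℝ) (x : V4) :
    (Integrable fun t : T5 => Lam t ^ (-(4:ℝ)) * ip e (zz s x t)) ∧
    ∫ t : T5, Lam t ^ (-(4:ℝ)) * ip e (zz s x t) = -(II 4 * (ip e x / 2)) := by
  have e1 : ∀ t : T5, Lam t ^ (-(4:ℝ)) * ip e (zz s x t) =
      s / 2 * (ip e t.2 * Lam t ^ (-(4:ℝ))) - ip e x / 2 * Lam t ^ (-(4:ℝ)) := by
    intro t
    rw [ip_zz]
    ring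
  have i2 := (integrable_ip (c := 4) (by norm_num) e).const_mul (s / 2)
  have i3 := (integrable_Lam (p := 4) (by norm_num)).const_mul (ip e x / 2)
  simp_rw [e1]
  refine ⟨i2.sub i3, ?_⟩
  rw [integral_sub i2 i3, integral_const_mul, integral_const_mul, integral_ip]
  have h1 : ∫ t : T5, Lam t ^ (-(4:ℝ)) = II 4 := by rw [II]
  rw [h1]
  ring

theorem integrable_AA (s : ℝ) (x : V4) :
    Integrable fun t : T5 => Lam t ^ (-(4:ℝ)) * AA s x t := by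
  have e1 : ∀ t : T5, Lam t ^ (-(4:ℝ)) * AA s x t =
      27 * (Lam t ^ (-(4:ℝ)) * nsq (zz s x t)) + 9 / 4 * s ^ 2 * Lam t ^ (-(3:ℝ)) := by
    intro t
    have hL := Lam_pos t
    have h5 : Lam t ^ (-(3:ℝ)) = Lam t * Lam t ^ (-(4:ℝ)) := by
      nth_rewrite 2 [← Real.rpow_one (Lam t)]
      rw [← Real.rpow_add hL]; norm_num
    rw [h5, AA]
    ring
  simp_rw [e1]
  exact ((integrable_nsq_zz s x).1.const_mul 27).add
    ((integrable_Lam (by norm_num)).const_mul _)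

theorem AA_nonneg (s : ℝ) (x : V4) (t : T5) : 0 ≤ AA s x t := by
  have := nsq_nonneg (zz s x t)
  have := Lam_pos t
  unfold AA
  positivity

theorem measurable_zz : Measurable fun p : (ℝ × V4) × T5 => zz p.1.1 p.1.2 p.2 := by
  unfold zz
  have h1 : Measurable fun p : (ℝ × V4) × T5 => p.1.1 • p.2.2 :=
    measurable_fst.fst.smul measurable_snd.snd
  have h2 : Measurable fun p : (ℝ × V4) × T5 => p.1.1 • p.2.2 - p.1.2 :=
    h1.sub measurable_fst.snd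
  exact h2.const_smul (1 / 2 : ℝ)

theorem measurable_phi (ε : ℝ) (μ : V4) :
    Measurable fun p : (ℝ × V4) × T5 => phi ε μ p.1.1 p.1.2 p.2 := by
  unfold phi
  have h1 : Measurable fun p : (ℝ × V4) × T5 => (wp μ p.1.1 p.1.2 p.2, p.1.1 ^ 2 * Lam p.2) := by
    apply Measurable.prodMk
    · simp_rw [wp_eq]
      exact measurable_const.add measurable_zz
    · exact (measurable_fst.fst.pow_const 2).mul (measurable_Lam.comp measurable_snd)
  have h2 : Measurable fun p : (ℝ × V4) × T5 =>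
      KKf (4 / 3) ε (wp μ p.1.1 p.1.2 p.2) (p.1.1 ^ 2 * Lam p.2) := (measurable_KKf _ ε).comp h1
  have h3 : Measurable fun p : (ℝ × V4) × T5 => ip (ε • μ) (zz p.1.1 p.1.2 p.2) :=
    (continuous_ip_right (ε • μ)).measurable.comp measurable_zz
  exact (((h2.pow_const 3).sub_const 1).add (h3.const_mul (6 * ε))).div_const _

theorem measurable_AA : Measurable fun p : (ℝ × V4) × T5 => AA p.1.1 p.1.2 p.2 := by
  unfold AA
  exact ((measurable_nsq.comp measurable_zz).const_mul 27).add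
    (((measurable_fst.fst.pow_const 2).mul (measurable_Lam.comp measurable_snd)).const_mul _)

theorem measurable_LL (ε : ℝ) (μ : V4) : Measurable fun p : ℝ × V4 => LL ε μ p.1 p.2 := by
  unfold LL
  have h : Measurable fun p : (ℝ × V4) × T5 =>
      Lam p.2 ^ (-(4:ℝ)) * min (phi ε μ p.1.1 p.1.2 p.2) (AA p.1.1 p.1.2 p.2) :=
    ((measurable_Lam.comp measurable_snd).pow_const _).mul
      ((measurable_phi ε μ).min measurable_AA)
  exact (StronglyMeasurable.integral_prod_right (f := fun (p : ℝ × V4) (t : T5) =>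
    Lam t ^ (-(4:ℝ)) * min (phi ε μ p.1 p.2 t) (AA p.1 p.2 t)) h.stronglyMeasurable).measurable

theorem min_bound {ε : ℝ} (hε : 0 < ε) {μ : V4} (hμ : ε ^ 2 * nsq μ = 1) {s : ℝ} (hs : s ≠ 0)
    (x : V4) (t : T5) :
    ‖Lam t ^ (-(4:ℝ)) * min (phi ε μ s x t) (AA s x t)‖ ≤ Lam t ^ (-(4:ℝ)) * AA s x t := by
  have hL := Lam_pos t
  have hn := nsq_nonneg (zz s x t)
  have h1 := phi_lower hε hμ hs x t
  have h2 := AA_nonneg s x t
  rw [norm_mul, Real.norm_of_nonneg (show 0 ≤ Lam t ^ (-(4:ℝ)) by positivity)]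
  gcongr
  rw [Real.norm_eq_abs, abs_le]
  constructor
  · apply le_min
    · refine le_trans ?_ h1
      unfold AA
      linarith
    · linarith
  · exact min_le_right _ _

theorem integrable_min {ε : ℝ} (hε : 0 < ε) {μ : V4} (hμ : ε ^ 2 * nsq μ = 1) {s : ℝ} (hs : s ≠ 0)
    (x : V4) :
    Integrable fun t : T5 => Lam t ^ (-(4:ℝ)) * min (phi ε μ s x t) (AA s x t) := by
  refine (integrable_AA s x).mono' ?_ (Eventually.of_forall (min_bound hε hμ hs x))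
  have h : Measurable fun p : (ℝ × V4) × T5 =>
      Lam p.2 ^ (-(4:ℝ)) * min (phi ε μ p.1.1 p.1.2 p.2) (AA p.1.1 p.1.2 p.2) :=
    ((measurable_Lam.comp measurable_snd).pow_const _).mul
      ((measurable_phi ε μ).min measurable_AA)
  exact (h.comp (measurable_prodMk_left (x := (s, x)))).aestronglyMeasurable

/-- Limit of the second-order coefficient. -/
theorem LL_tendsto {ε : ℕ → ℝ} {μ : ℕ → V4} {e : V4} (hε : ∀ n, 0 < ε n)
    (hμ : ∀ n, ε n ^ 2 * nsq (μ n) = 1) (hε0 : Tendsto ε atTop (𝓝 0))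
    (he : Tendsto (fun n => ε n • μ n) atTop (𝓝 e)) (he1 : nsq e = 1) {s : ℝ} (hs : s ≠ 0)
    (x : V4) :
    Tendsto (fun n => LL (ε n) (μ n) s x) atTop
      (𝓝 (II 4 * (3 * s ^ 2 - 3 / 4 * nsq x + 6 * ip e x ^ 2))) := by
  have h1 : Tendsto (fun n => LL (ε n) (μ n) s x) atTop
      (𝓝 (∫ t : T5, Lam t ^ (-(4:ℝ)) *
        (-(3 * nsq (zz s x t)) + 24 * ip e (zz s x t) ^ 2))) := by
    unfold LL
    apply tendsto_integral_of_dominated_convergence (fun t => Lam t ^ (-(4:ℝ)) * AA s x t)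
    · intro n
      exact (integrable_min (hε n) (hμ n) hs x).aestronglyMeasurable
    · exact integrable_AA s x
    · intro n
      exact Eventually.of_forall (min_bound (hε n) (hμ n) hs x)
    · refine Eventually.of_forall fun t => ?_
      apply Tendsto.const_mul
      have h2 := (phi_tendsto hε hμ hε0 he hs x t).min
        (tendsto_const_nhds (x := AA s x t))
      have h3 : min (-(3 * nsq (zz s x t)) + 24 * ip e (zz s x t) ^ 2) (AA s x t) =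
          -(3 * nsq (zz s x t)) + 24 * ip e (zz s x t) ^ 2 := by
        apply min_eq_left
        have h4 := ip_sq_le e (zz s x t)
        rw [he1, one_mul] at h4
        have h5 := nsq_nonneg (zz s x t)
        have h6 := Lam_pos t
        have h7 : 0 ≤ s ^ 2 * Lam t := by positivity
        unfold AA
        linarith
      rw [h3] at h2
      exact h2
  have h2 : ∫ t : T5, Lam t ^ (-(4:ℝ)) * (-(3 * nsq (zz s x t)) + 24 * ip e (zz s x t) ^ 2) =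
      II 4 * (3 * s ^ 2 - 3 / 4 * nsq x + 6 * ip e x ^ 2) := by
    obtain ⟨i1, v1⟩ := integrable_nsq_zz s x
    obtain ⟨i2, v2⟩ := integrable_ip_zz_sq e s x
    have e1 : ∀ t : T5, Lam t ^ (-(4:ℝ)) * (-(3 * nsq (zz s x t)) + 24 * ip e (zz s x t) ^ 2) =
        24 * (Lam t ^ (-(4:ℝ)) * ip e (zz s x t) ^ 2) -
          3 * (Lam t ^ (-(4:ℝ)) * nsq (zz s x t)) := fun t => by ring
    simp_rw [e1]
    rw [integral_sub (i2.const_mul 24) (i1.const_mul 3), integral_const_mul, integral_const_mul,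
      v1, v2, he1]
    ring
  rw [h2] at h1
  exact h1

/-- Second lower bound for `DD`. -/
theorem DD_lower2 {ε : ℝ} (hε : 0 < ε) {μ : V4} (hμ : ε ^ 2 * nsq μ = 1) {s : ℝ} (hs : s ≠ 0)
    (x : V4) :
    ENNReal.ofReal (II 4 * (1 + (3 * ε * ip (ε • μ) x + ε ^ 2 * (LL ε μ s x / II 4)))) ≤
      DD (4 / 3) ε μ s x := by
  have hI := II_pos (p := 4) (by norm_num)
  have i0 := integrable_Lam (p := 4) (by norm_num)
  obtain ⟨i1, v1⟩ := integrable_ip_zz (ε • μ) s x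
  have i2 := integrable_min hε hμ hs x
  have i01 : Integrable fun t : T5 => Lam t ^ (-(4:ℝ)) -
      6 * ε * (Lam t ^ (-(4:ℝ)) * ip (ε • μ) (zz s x t)) := i0.sub (i1.const_mul _)
  have hv : ∫ t : T5, (Lam t ^ (-(4:ℝ)) -
      6 * ε * (Lam t ^ (-(4:ℝ)) * ip (ε • μ) (zz s x t)) +
      ε ^ 2 * (Lam t ^ (-(4:ℝ)) * min (phi ε μ s x t) (AA s x t))) =
      II 4 * (1 + (3 * ε * ip (ε • μ) x + ε ^ 2 * (LL ε μ s x / II 4))) := by
    rw [integral_add i01 (i2.const_mul _), integral_sub i0 (i1.const_mul _), integral_const_mul,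
      integral_const_mul, v1]
    have h1 : ∫ t : T5, Lam t ^ (-(4:ℝ)) = II 4 := by rw [II]
    have h2 : ∫ t : T5, Lam t ^ (-(4:ℝ)) * min (phi ε μ s x t) (AA s x t) = LL ε μ s x := by
      rw [LL]
    rw [h1, h2]
    field_simp
    ring
  rw [← hv, DD]
  apply ofReal_integral_le (i01.add (i2.const_mul _))
  refine Eventually.of_forall fun t => ?_
  have hL := Lam_pos t
  have e4 : -(3 * (4 / 3 : ℝ)) = -(4:ℝ) := by norm_num
  rw [e4, kernel_of_phi hε]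
  calc Lam t ^ (-(4:ℝ)) - 6 * ε * (Lam t ^ (-(4:ℝ)) * ip (ε • μ) (zz s x t)) +
      ε ^ 2 * (Lam t ^ (-(4:ℝ)) * min (phi ε μ s x t) (AA s x t)) =
      Lam t ^ (-(4:ℝ)) * (1 - 6 * ε * ip (ε • μ) (zz s x t) +
        ε ^ 2 * min (phi ε μ s x t) (AA s x t)) := by ring
    _ ≤ _ := by
      gcongr
      exact min_le_left _ _

end Pool.Agent.Helper77.Pred
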