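import Pool.Agent.Helper77.Pred.Near

namespace Pool.Agent.Helper77.Pred

open MeasureTheory Real Set Filter Topology

noncomputable def sf (p : T5 × ℝ) : ℝ := p.2 / √(Lam p.1)

noncomputable def xf (p : T5 × ℝ) : V4 := sf p • p.1.2

noncomputable def af (ε : ℝ) (μ : V4) (p : T5 × ℝ) : ℝ := ip (ε • μ) (xf p)

noncomputable def Rf (h : ℝ) : ℝ := 3 / (3 + h) ^ 2 + 2 * (3 + h) / (9 * (1 + h))

@[irreducible] noncomputable def lamf (ε : ℝ) (μ : V4) (p : T5 × ℝ) : ℝ :=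
  LL ε μ (sf p) (xf p) / II 4

noncomputable def hf (ε : ℝ) (μ : V4) (p : T5 × ℝ) : ℝ :=
  3 * ε * af ε μ p + ε ^ 2 * lamf ε μ p

noncomputable def Af (p : T5 × ℝ) : ℝ := nsq (xf p) / 4 + tau 4 * sf p ^ 2

noncomputable def Tf (ε : ℝ) (μ : V4) (p : T5 × ℝ) : ℝ := 1 - ε * af ε μ p + ε ^ 2 * Af p

@[irreducible] noncomputable def bf (ε : ℝ) (μ : V4) (p : T5 × ℝ) : ℝ :=
  if -(1 / 2) ≤ hf ε μ p then min (Tf ε μ p ^ 2) (Rf (hf ε μ p)) else Tf ε μ p ^ 2

noncomputable def rhoE (e : V4) (p : T5 × ℝ) : ℝ :=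
  -2 * sf p ^ 2 + 1 / 2 * nsq (xf p) + ip e (xf p) ^ 2

@[irreducible] noncomputable def rf (e : V4) (ε : ℝ) (μ : V4) (p : T5 × ℝ) : ℝ :=
  max ((bf ε μ p - 1 + 2 * ε * af ε μ p) / ε ^ 2 - rhoE e p) 0

theorem Rf_bound {h : ℝ} (hh : -1 < h) : (1 + h) ^ (-(2 / 3 : ℝ)) ≤ Rf h := by
  have h1 : 0 < 1 + h := by linarith
  have h3 : 0 < 3 + h := by linarith
  have hP : 0 < 1 + h / 3 := by linarith
  have hy := young (a := 1 / (1 + h) * (1 + h / 3)) (b := (1 + h / 3) ^ (-(2:ℝ)))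
    (by positivity) (by positivity)
  rw [Real.mul_rpow (by positivity) hP.le, ← Real.rpow_mul hP.le] at hy
  have e1 : (1 + h / 3) ^ (2 / 3 : ℝ) * (1 + h / 3) ^ (-(2:ℝ) * (1 / 3)) = 1 := by
    rw [← Real.rpow_add hP]; norm_num
  have e2 : (1 / (1 + h)) ^ (2 / 3 : ℝ) = (1 + h) ^ (-(2 / 3 : ℝ)) := by
    rw [one_div, Real.inv_rpow h1.le, Real.rpow_neg h1.le]
  have e3 : (1 + h / 3) ^ (-(2:ℝ)) = 1 / (1 + h / 3) ^ 2 := by
    rw [Real.rpow_neg hP.le, one_div]; norm_cast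
  rw [mul_assoc, e1, mul_one, e2, e3] at hy
  refine hy.trans (le_of_eq ?_)
  unfold Rf
  have h5 : 1 + h / 3 = (3 + h) / 3 := by ring
  rw [h5]
  field_simp
  ring

theorem Rf_expand {h : ℝ} (h1 : 1 + h ≠ 0) (h3 : 3 + h ≠ 0) :
    Rf h = 1 - 2 / 3 * h + h ^ 2 * ((45 + 35 * h + 6 * h ^ 2) / (9 * (1 + h) * (3 + h) ^ 2)) := by
  unfold Rf
  field_simp
  ring

theorem Rf_nonneg {h : ℝ} (hh : -(1 / 2) ≤ h) : 0 ≤ Rf h := by
  have h1 : 0 < 1 + h := by linarith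
  have h3 : 0 < 3 + h := by linarith
  unfold Rf
  positivity

theorem bf_nonneg (ε : ℝ) (μ : V4) (p : T5 × ℝ) : 0 ≤ bf ε μ p := by
  unfold bf
  split_ifs with h
  · exact le_min (sq_nonneg _) (Rf_nonneg h)
  · exact sq_nonneg _

theorem bf_le_T (ε : ℝ) (μ : V4) (p : T5 × ℝ) : bf ε μ p ≤ Tf ε μ p ^ 2 := by
  unfold bf
  split_ifs with h
  · exact min_le_left _ _
  · exact le_rfl

theorem bf_le_R {ε : ℝ} {μ : V4} {p : T5 × ℝ} (h : -(1 / 2) ≤ hf ε μ p) :
    bf ε μ p ≤ Rf (hf ε μ p) := by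
  unfold bf
  rw [if_pos h]
  exact min_le_right _ _

theorem rpow_anti2 {D : ENNReal} {I w : ℝ} (hI : 0 < I) (hw : 0 < w)
    (h : ENNReal.ofReal (I * w) ≤ D) :
    D ^ (-(2 / 3 : ℝ)) ≤ ENNReal.ofReal (I ^ (-(2 / 3 : ℝ)) * w ^ (-(2 / 3 : ℝ))) := by
  have h1 : D ^ (-(2 / 3 : ℝ)) ≤ ENNReal.ofReal (I * w) ^ (-(2 / 3 : ℝ)) := by
    rw [ENNReal.rpow_neg, ENNReal.rpow_neg]
    apply ENNReal.inv_le_inv.2
    exact ENNReal.rpow_le_rpow h (by norm_num)
  refine h1.trans (le_of_eq ?_)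
  rw [ENNReal.ofReal_rpow_of_pos (by positivity), Real.mul_rpow hI.le hw.le]

theorem DD_bf {ε : ℝ} (hε : 0 < ε) {μ : V4} (hμ : ε ^ 2 * nsq μ = 1) {p : T5 × ℝ}
    (hp : p.2 ≠ 0) :
    DD (4 / 3) ε μ (sf p) (xf p) ^ (-(2 / 3 : ℝ)) ≤
      ENNReal.ofReal (II 4 ^ (-(2 / 3 : ℝ)) * bf ε μ p) := by
  have hI := II_pos (p := 4) (by norm_num)
  have hsq : 0 < √(Lam p.1) := Real.sqrt_pos.2 (Lam_pos _)
  have hs : sf p ≠ 0 := div_ne_zero hp hsq.ne'
  have ht := tau_pos (c := 4) le_rfl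
  have e4 : 3 * (4 / 3 : ℝ) = 4 := by norm_num
  have h1 := DD_lower (z := 4 / 3) le_rfl hε μ hs (xf p)
  rw [e4] at h1
  have hn := nsq_nonneg (μ - (1 / 2 : ℝ) • xf p)
  have hs2 : 0 < sf p ^ 2 := by positivity
  have hT : ε ^ 2 * (nsq (μ - (1 / 2 : ℝ) • xf p) + tau 4 * sf p ^ 2) = Tf ε μ p := by
    rw [T0_expand hμ]
    unfold Tf af Af
    rw [ip_smul_left]
  have hTpos : 0 < Tf ε μ p := by rw [← hT]; positivity
  rw [hT] at h1
  have h2 := rpow_anti hI hTpos h1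
  by_cases hc : -(1 / 2) ≤ hf ε μ p
  · have h3 := DD_lower2 hε hμ hs (xf p)
    have e5 : 3 * ε * ip (ε • μ) (xf p) + ε ^ 2 * (LL ε μ (sf p) (xf p) / II 4) = hf ε μ p := by
      unfold hf af lamf
      rfl
    rw [e5] at h3
    have hw : 0 < 1 + hf ε μ p := by linarith
    have h4 := rpow_anti2 hI hw h3
    have h5 := Rf_bound (h := hf ε μ p) (by linarith)
    have h6 : DD (4 / 3) ε μ (sf p) (xf p) ^ (-(2 / 3 : ℝ)) ≤
        ENNReal.ofReal (II 4 ^ (-(2 / 3 : ℝ)) * Rf (hf ε μ p)) := by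
      refine h4.trans (ENNReal.ofReal_le_ofReal ?_)
      gcongr
    unfold bf
    rw [if_pos hc]
    rcases le_total (Tf ε μ p ^ 2) (Rf (hf ε μ p)) with h7 | h7
    · rw [min_eq_left h7]; exact h2
    · rw [min_eq_right h7]; exact h6
  · unfold bf
    rw [if_neg hc]
    exact h2

theorem rf_nonneg (e : V4) (ε : ℝ) (μ : V4) (p : T5 × ℝ) : 0 ≤ rf e ε μ p := by
  unfold rf
  exact le_max_right _ _

theorem bf_le_rf (e : V4) {ε : ℝ} (hε : 0 < ε) (μ : V4) (p : T5 × ℝ) :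
    bf ε μ p ≤ 1 - 2 * ε * af ε μ p + ε ^ 2 * (rhoE e p + rf e ε μ p) := by
  have h : (bf ε μ p - 1 + 2 * ε * af ε μ p) / ε ^ 2 - rhoE e p ≤ rf e ε μ p := by
    unfold rf
    exact le_max_left _ _
  have h2 : (bf ε μ p - 1 + 2 * ε * af ε μ p) / ε ^ 2 ≤ rhoE e p + rf e ε μ p := by linarith
  rw [div_le_iff₀ (by positivity)] at h2
  linarith

theorem sf_sq_le (p : T5 × ℝ) : sf p ^ 2 ≤ p.2 ^ 2 := s_sq_le p.2 p.1

theorem xf_sq_le (p : T5 × ℝ) : nsq (xf p) ≤ p.2 ^ 2 := x_sq_le p.2 p.1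

theorem af_sq_le {ε : ℝ} {μ : V4} (hμ : ε ^ 2 * nsq μ = 1) (p : T5 × ℝ) :
    af ε μ p ^ 2 ≤ p.2 ^ 2 := by
  unfold af
  rw [ip_smul_left]
  exact (ip_scaled_sq hμ _).trans (xf_sq_le p)

/-- Uniform bound of the remainder. -/
theorem rf_bound (e : V4) {ε : ℝ} (hε : 0 < ε) (hε1 : ε ≤ 1) {μ : V4} (hμ : ε ^ 2 * nsq μ = 1)
    (p : T5 × ℝ) :
    rf e ε μ p ≤ (4 + 2 * (1 / 4 + tau 4) + 2 * (1 / 4 + tau 4) ^ 2) * (1 + p.2 ^ 2) ^ 2 := by
  have ht := tau_pos (c := 4) le_rfl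
  set k := 1 / 4 + tau 4 with hk
  have hkpos : 0 < k := by positivity
  have h1 := sf_sq_le p
  have h2 := xf_sq_le p
  have h3 := af_sq_le hμ p
  have h4 := bf_le_T ε μ p
  have hA0 : 0 ≤ Af p := by
    unfold Af
    have := nsq_nonneg (xf p)
    positivity
  have hA : Af p ≤ k * p.2 ^ 2 := by
    unfold Af
    rw [hk]
    nlinarith
  have hA2 : Af p ^ 2 ≤ k ^ 2 * (p.2 ^ 2) ^ 2 := by
    calc Af p ^ 2 ≤ (k * p.2 ^ 2) ^ 2 := pow_le_pow_left₀ hA0 hA 2
      _ = _ := by ring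
  have hT : (Tf ε μ p ^ 2 - 1 + 2 * ε * af ε μ p) / ε ^ 2 =
      af ε μ p ^ 2 + 2 * Af p - 2 * ε * (af ε μ p * Af p) + ε ^ 2 * Af p ^ 2 := by
    unfold Tf
    field_simp
    ring
  have hb : (bf ε μ p - 1 + 2 * ε * af ε μ p) / ε ^ 2 ≤
      af ε μ p ^ 2 + 2 * Af p - 2 * ε * (af ε μ p * Af p) + ε ^ 2 * Af p ^ 2 := by
    rw [← hT]
    gcongr
  have hc : -(2 * ε * (af ε μ p * Af p)) ≤ af ε μ p ^ 2 + Af p ^ 2 := by
    have h5 : -(2 * (af ε μ p * Af p)) ≤ af ε μ p ^ 2 + Af p ^ 2 := by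
      nlinarith [sq_nonneg (af ε μ p + Af p)]
    have h6 : 0 ≤ af ε μ p ^ 2 + Af p ^ 2 := by positivity
    calc -(2 * ε * (af ε μ p * Af p)) = ε * (-(2 * (af ε μ p * Af p))) := by ring
      _ ≤ ε * (af ε μ p ^ 2 + Af p ^ 2) := by gcongr
      _ ≤ 1 * (af ε μ p ^ 2 + Af p ^ 2) := by gcongr
      _ = _ := one_mul _
  have hd : ε ^ 2 * Af p ^ 2 ≤ Af p ^ 2 := by
    have : ε ^ 2 ≤ 1 := by nlinarith
    calc ε ^ 2 * Af p ^ 2 ≤ 1 * Af p ^ 2 := by gcongr
      _ = _ := one_mul _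
  have he : -rhoE e p ≤ 2 * p.2 ^ 2 := by
    unfold rhoE
    have := nsq_nonneg (xf p)
    have := sq_nonneg (ip e (xf p))
    linarith
  have hs : 0 ≤ p.2 ^ 2 := sq_nonneg _
  have hs4 : 0 ≤ (p.2 ^ 2) ^ 2 := sq_nonneg _
  unfold rf
  apply max_le
  · have hexp : (4 + 2 * k + 2 * k ^ 2) * (1 + p.2 ^ 2) ^ 2 =
        (4 + 2 * k + 2 * k ^ 2) * (1 + 2 * p.2 ^ 2 + (p.2 ^ 2) ^ 2) := by ring
    rw [hexp]
    have h7 : (bf ε μ p - 1 + 2 * ε * af ε μ p) / ε ^ 2 - rhoE e p ≤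
        4 * p.2 ^ 2 + 2 * k * p.2 ^ 2 + 2 * k ^ 2 * (p.2 ^ 2) ^ 2 := by linarith
    have h8 : 4 * p.2 ^ 2 ≤ 4 * (1 + 2 * p.2 ^ 2 + (p.2 ^ 2) ^ 2) := by linarith
    have h9 : 2 * k * p.2 ^ 2 ≤ 2 * k * (1 + 2 * p.2 ^ 2 + (p.2 ^ 2) ^ 2) := by
      gcongr
      linarith
    have h10 : 2 * k ^ 2 * (p.2 ^ 2) ^ 2 ≤ 2 * k ^ 2 * (1 + 2 * p.2 ^ 2 + (p.2 ^ 2) ^ 2) := by
      gcongr
      linarith
    linarith
  · positivity

theorem measurable_sf : Measurable sf := by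
  unfold sf
  exact measurable_snd.div ((measurable_Lam.comp measurable_fst).sqrt)

theorem measurable_xf : Measurable xf := by
  unfold xf
  exact measurable_sf.smul measurable_fst.snd

theorem measurable_af (ε : ℝ) (μ : V4) : Measurable (af ε μ) := by
  unfold af
  exact (continuous_ip_right (ε • μ)).measurable.comp measurable_xf

theorem measurable_lamf (ε : ℝ) (μ : V4) : Measurable (lamf ε μ) := by
  unfold lamf
  have h : Measurable fun p : T5 × ℝ => (sf p, xf p) := measurable_sf.prodMk measurable_xf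
  have h2 : Measurable fun p : T5 × ℝ => LL ε μ (sf p) (xf p) := (measurable_LL ε μ).comp h
  exact h2.div_const _

theorem measurable_hf (ε : ℝ) (μ : V4) : Measurable (hf ε μ) := by
  unfold hf
  exact ((measurable_af ε μ).const_mul _).add ((measurable_lamf ε μ).const_mul _)

theorem measurable_Af : Measurable Af := by
  unfold Af
  exact ((measurable_nsq.comp measurable_xf).div_const _).add
    ((measurable_sf.pow_const 2).const_mul _)

theorem measurable_Tf (ε : ℝ) (μ : V4) : Measurable (Tf ε μ) := by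
  unfold Tf
  exact (((measurable_af ε μ).const_mul ε).const_sub 1).add (measurable_Af.const_mul _)

theorem measurable_Rf : Measurable Rf := by
  unfold Rf
  fun_prop

theorem measurable_bf (ε : ℝ) (μ : V4) : Measurable (bf ε μ) := by
  unfold bf
  apply Measurable.ite
  · exact measurableSet_le measurable_const (measurable_hf ε μ)
  · exact ((measurable_Tf ε μ).pow_const 2).min (measurable_Rf.comp (measurable_hf ε μ))
  · exact (measurable_Tf ε μ).pow_const 2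

theorem measurable_rhoE (e : V4) : Measurable (rhoE e) := by
  unfold rhoE
  exact (((measurable_sf.pow_const 2).const_mul _).add
    ((measurable_nsq.comp measurable_xf).const_mul _)).add
    (((continuous_ip_right e).measurable.comp measurable_xf).pow_const 2)

theorem measurable_rf (e : V4) (ε : ℝ) (μ : V4) : Measurable (rf e ε μ) := by
  unfold rf
  exact (((((measurable_bf ε μ).sub_const 1).add ((measurable_af ε μ).const_mul _)).div_const
    _).sub (measurable_rhoE e)).max measurable_const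

/-- Pointwise convergence of the remainder. -/
theorem rf_tendsto {ε : ℕ → ℝ} {μ : ℕ → V4} {e : V4} (hε : ∀ n, 0 < ε n)
    (hμ : ∀ n, ε n ^ 2 * nsq (μ n) = 1) (hε0 : Tendsto ε atTop (𝓝 0))
    (he : Tendsto (fun n => ε n • μ n) atTop (𝓝 e)) (he1 : nsq e = 1) {p : T5 × ℝ}
    (hp : p.2 ≠ 0) :
    Tendsto (fun n => rf e (ε n) (μ n) p) atTop (𝓝 0) := by
  have hI := II_pos (p := 4) (by norm_num)
  have hsq : 0 < √(Lam p.1) := Real.sqrt_pos.2 (Lam_pos _)
  have hs : sf p ≠ 0 := div_ne_zero hp hsq.ne'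
  have ha : Tendsto (fun n => af (ε n) (μ n) p) atTop (𝓝 (ip e (xf p))) := by
    unfold af
    exact (continuous_ip.tendsto (e, xf p)).comp (he.prodMk_nhds tendsto_const_nhds)
  have hl : Tendsto (fun n => lamf (ε n) (μ n) p) atTop
      (𝓝 (3 * sf p ^ 2 - 3 / 4 * nsq (xf p) + 6 * ip e (xf p) ^ 2)) := by
    unfold lamf
    have h1 := (LL_tendsto hε hμ hε0 he he1 hs (xf p)).div_const (II 4)
    rw [mul_div_cancel_left₀ _ hI.ne'] at h1
    exact h1
  have hh : Tendsto (fun n => hf (ε n) (μ n) p) atTop (𝓝 0) := by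
    unfold hf
    have := ((hε0.const_mul 3).mul ha).add ((hε0.pow 2).mul hl)
    simpa using this
  set G : ℕ → ℝ := fun n => -(2 / 3) * lamf (ε n) (μ n) p +
    (3 * af (ε n) (μ n) p + ε n * lamf (ε n) (μ n) p) ^ 2 *
    ((45 + 35 * hf (ε n) (μ n) p + 6 * hf (ε n) (μ n) p ^ 2) /
      (9 * (1 + hf (ε n) (μ n) p) * (3 + hf (ε n) (μ n) p) ^ 2)) - rhoE e p with hG
  have hGlim : Tendsto G atTop (𝓝 (-(2 / 3) * (3 * sf p ^ 2 - 3 / 4 * nsq (xf p) +
      6 * ip e (xf p) ^ 2) + (3 * ip e (xf p) + 0 * (3 * sf p ^ 2 - 3 / 4 * nsq (xf p) +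
      6 * ip e (xf p) ^ 2)) ^ 2 * ((45 + 35 * 0 + 6 * 0 ^ 2) / (9 * (1 + 0) * (3 + 0) ^ 2)) -
      rhoE e p)) := by
    apply Tendsto.sub _ tendsto_const_nhds
    apply Tendsto.add (hl.const_mul _)
    apply Tendsto.mul
    · exact ((ha.const_mul 3).add (hε0.mul hl)).pow 2
    · apply Tendsto.div
      · exact ((hh.const_mul 35).const_add 45).add ((hh.pow 2).const_mul 6)
      · exact ((hh.const_add 1).const_mul 9).mul ((hh.const_add 3).pow 2)
      · norm_num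
  have hval : -(2 / 3) * (3 * sf p ^ 2 - 3 / 4 * nsq (xf p) +
      6 * ip e (xf p) ^ 2) + (3 * ip e (xf p) + 0 * (3 * sf p ^ 2 - 3 / 4 * nsq (xf p) +
      6 * ip e (xf p) ^ 2)) ^ 2 * ((45 + 35 * 0 + 6 * 0 ^ 2) / (9 * (1 + 0) * (3 + 0) ^ 2)) -
      rhoE e p = 0 := by
    unfold rhoE
    ring
  rw [hval] at hGlim
  have hmax : Tendsto (fun n => max (G n) 0) atTop (𝓝 0) := by
    have := hGlim.max (tendsto_const_nhds (x := (0:ℝ)))
    simpa using this
  refine tendsto_of_tendsto_of_tendsto_of_le_of_le' tendsto_const_nhds hmax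
    (Eventually.of_forall fun n => rf_nonneg _ _ _ _) ?_
  have hev : ∀ᶠ n in atTop, -(1 / 2) < hf (ε n) (μ n) p :=
    hh.eventually (lt_mem_nhds (by norm_num))
  filter_upwards [hev] with n hn
  have h1 := bf_le_R hn.le
  have hen := hε n
  unfold rf
  apply max_le_max _ le_rfl
  simp only [hG]
  gcongr
  rw [div_le_iff₀ (by positivity)]
  have h2 : 1 + hf (ε n) (μ n) p ≠ 0 := by
    have : 0 < 1 + hf (ε n) (μ n) p := by linarith
    exact this.ne'
  have h3 : 3 + hf (ε n) (μ n) p ≠ 0 := by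
    have : 0 < 3 + hf (ε n) (μ n) p := by linarith
    exact this.ne'
  rw [Rf_expand h2 h3] at h1
  set Gq := (45 + 35 * hf (ε n) (μ n) p + 6 * hf (ε n) (μ n) p ^ 2) /
      (9 * (1 + hf (ε n) (μ n) p) * (3 + hf (ε n) (μ n) p) ^ 2) with hGq
  have h4 : hf (ε n) (μ n) p = 3 * ε n * af (ε n) (μ n) p + ε n ^ 2 * lamf (ε n) (μ n) p := rfl
  have h5 : hf (ε n) (μ n) p ^ 2 = ε n ^ 2 *
      (3 * af (ε n) (μ n) p + ε n * lamf (ε n) (μ n) p) ^ 2 := by rw [h4]; ring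
  calc bf (ε n) (μ n) p - 1 + 2 * ε n * af (ε n) (μ n) p ≤
      (1 - 2 / 3 * hf (ε n) (μ n) p + hf (ε n) (μ n) p ^ 2 * Gq) - 1 +
        2 * ε n * af (ε n) (μ n) p := by linarith
    _ = _ := by
      rw [h5]
      nth_rewrite 1 [h4]
      ring

/-- The weight. -/
noncomputable def Wf (p : T5 × ℝ) : ℝ := Lam p.1 ^ (-(4:ℝ)) * gs p.2

theorem Wf_nonneg (p : T5 × ℝ) : 0 ≤ Wf p := by
  unfold Wf
  have := Lam_pos p.1
  have := gs_nonneg p.2
  positivity

theorem measurable_Wf : Measurable Wf := by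
  unfold Wf
  exact ((measurable_Lam.comp measurable_fst).pow_const _).mul (measurable_gs.comp measurable_snd)

theorem integrable_W4 : Integrable fun p : T5 × ℝ => Wf p * (1 + p.2 ^ 2) ^ 2 := by
  have h := (integrable_Lam (p := 4) (by norm_num)).mul_prod integrable_gs4
  refine h.congr (Eventually.of_forall fun p => ?_)
  simp only [Wf]
  ring

theorem integrable_W_of {f : T5 × ℝ → ℝ} (hf : Measurable f) {C : ℝ}
    (h : ∀ p, |f p| ≤ C * (1 + p.2 ^ 2) ^ 2) : Integrable fun p => Wf p * f p := by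
  refine (integrable_W4.const_mul C).mono' (measurable_Wf.mul hf).aestronglyMeasurable
    (Eventually.of_forall fun p => ?_)
  have := Wf_nonneg p
  rw [norm_mul, Real.norm_of_nonneg this, Real.norm_eq_abs]
  calc Wf p * |f p| ≤ Wf p * (C * (1 + p.2 ^ 2) ^ 2) := by gcongr; exact h p
    _ = _ := by ring

theorem integral_W : ∫ p, Wf p = II 4 * Cs := by
  unfold Wf
  rw [Measure.volume_eq_prod, integral_prod_mul (fun t : T5 => Lam t ^ (-(4:ℝ))) gs]
  rw [II, Cs]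

theorem integral_gs_odd : ∫ σ, gs σ * σ = 0 := by
  have h := integral_neg_eq_self (fun σ : ℝ => gs σ * σ) (volume : Measure ℝ)
  have e : ∀ σ : ℝ, gs (-σ) * -σ = -(gs σ * σ) := by
    intro σ
    have : gs (-σ) = gs σ := by unfold gs; simp
    rw [this]; ring
  simp_rw [e] at h
  rw [integral_neg] at h
  linarith

theorem integral_W_a (ε : ℝ) (μ : V4) : ∫ p, Wf p * af ε μ p = 0 := by
  have e : ∀ p : T5 × ℝ, Wf p * af ε μ p =
      (Lam p.1 ^ (-(4:ℝ)) * (ip (ε • μ) p.1.2 / √(Lam p.1))) * (gs p.2 * p.2) := by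
    intro p
    unfold Wf af xf sf
    rw [ip_smul_right]
    ring
  simp_rw [e]
  rw [Measure.volume_eq_prod, integral_prod_mul
    (fun t : T5 => Lam t ^ (-(4:ℝ)) * (ip (ε • μ) t.2 / √(Lam t))) (fun σ => gs σ * σ),
    integral_gs_odd, mul_zero]

@[irreducible] noncomputable def C2 : ℝ := ∫ σ, gs σ * σ ^ 2

theorem integrable_gs2 : Integrable fun σ => gs σ * σ ^ 2 :=
  integrable_gs_of (by fun_prop) (C := 1) fun σ => by
    rw [abs_of_nonneg (sq_nonneg σ)]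
    nlinarith [sq_nonneg σ, sq_nonneg (σ ^ 2)]

theorem C2_pos : 0 < C2 := by
  unfold C2
  rw [integral_pos_iff_support_of_nonneg _ integrable_gs2]
  · have h : Ioi (0:ℝ) ⊆ Function.support fun σ => gs σ * σ ^ 2 := by
      intro σ hσ
      have h0 : (0:ℝ) < σ := hσ
      have h2 : 0 < |σ| := abs_pos.2 h0.ne'
      have h3 : 0 < gs σ := by unfold gs; positivity
      have : 0 < gs σ * σ ^ 2 := by positivity
      exact this.ne'
    refine lt_of_lt_of_le ?_ (measure_mono h)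
    rw [Real.volume_Ioi]
    exact ENNReal.zero_lt_top
  · intro σ
    have := gs_nonneg σ
    simp only [Pi.zero_apply]
    positivity

theorem integral_W_rho {e : V4} (he : nsq e = 1) :
    ∫ p, Wf p * rhoE e p = -(3 / 8 * (C2 * II 4)) := by
  have e1 : ∀ p : T5 × ℝ, Wf p * rhoE e p =
      (-2 * Lam p.1 ^ (-(5:ℝ)) + 1 / 2 * (nsq p.1.2 * Lam p.1 ^ (-(5:ℝ))) +
        ip e p.1.2 ^ 2 * Lam p.1 ^ (-(5:ℝ))) * (gs p.2 * p.2 ^ 2) := by
    intro p
    have hL := Lam_pos p.1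
    have h5 : Lam p.1 ^ (-(4:ℝ)) = Lam p.1 * Lam p.1 ^ (-(5:ℝ)) := by
      nth_rewrite 2 [← Real.rpow_one (Lam p.1)]
      rw [← Real.rpow_add hL]; norm_num
    unfold Wf rhoE xf sf
    rw [ip_smul_right, nsq_smul, mul_pow, div_pow, Real.sq_sqrt hL.le, h5]
    field_simp
  simp_rw [e1]
  rw [Measure.volume_eq_prod, integral_prod_mul
    (fun t : T5 => -2 * Lam t ^ (-(5:ℝ)) + 1 / 2 * (nsq t.2 * Lam t ^ (-(5:ℝ))) +
        ip e t.2 ^ 2 * Lam t ^ (-(5:ℝ))) (fun σ => gs σ * σ ^ 2)]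
  have i1 := (integrable_Lam (p := 5) (by norm_num)).const_mul (-2)
  have i2 := (integrable_nsq (c := 5) (by norm_num)).const_mul (1 / 2)
  have i3 := integrable_ip_sq (c := 5) (by norm_num) e
  have i12 : Integrable fun t : T5 => -2 * Lam t ^ (-(5:ℝ)) +
      1 / 2 * (nsq t.2 * Lam t ^ (-(5:ℝ))) := i1.add i2
  rw [integral_add i12 i3, integral_add i1 i2, integral_const_mul, integral_const_mul,
    moment_nsq (by norm_num), moment_ip (by norm_num), he]
  have h1 : ∫ t : T5, Lam t ^ (-(5:ℝ)) = II 5 := by rw [II]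
  have h2 : ∫ σ, gs σ * σ ^ 2 = C2 := by rw [C2]
  have h3 : (5:ℝ) - 1 = 4 := by norm_num
  rw [h1, h2, h3, II_five]
  ring

/-- Second-order upper bound along sequences. -/
theorem near_seq {ε : ℕ → ℝ} {μ : ℕ → V4} {e : V4} (hε : ∀ n, 0 < ε n) (hε1 : ∀ n, ε n ≤ 1)
    (hμ : ∀ n, ε n ^ 2 * nsq (μ n) = 1) (hε0 : Tendsto ε atTop (𝓝 0))
    (he : Tendsto (fun n => ε n • μ n) atTop (𝓝 e)) (he1 : nsq e = 1) :
    ∀ᶠ n in atTop, Psi (kapS (4 / 3)) (μ n) ≤
      ENNReal.ofReal (PsiI - (1 / 4 * (C2 * II 4 ^ (1 / 3 : ℝ))) * ε n ^ 2) := by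
  have hI := II_pos (p := 4) (by norm_num)
  have hC2 := C2_pos
  have ht := tau_pos (c := 4) le_rfl
  set B := 4 + 2 * (1 / 4 + tau 4) + 2 * (1 / 4 + tau 4) ^ 2 with hB
  have hBpos : 0 < B := by positivity
  -- integrability
  have iW : Integrable Wf := by
    have := integrable_W_of (f := fun _ => 1) measurable_const (C := 1) (fun p => by
      rw [abs_one]
      nlinarith [sq_nonneg p.2, sq_nonneg (1 + p.2 ^ 2)])
    simpa using this
  have ia : ∀ n, Integrable fun p => Wf p * af (ε n) (μ n) p := fun n =>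
    integrable_W_of (measurable_af _ _) (C := 1) fun p => by
      have h := af_sq_le (hμ n) p
      have h2 : |af (ε n) (μ n) p| ^ 2 ≤ p.2 ^ 2 := by rw [sq_abs]; exact h
      have h3 := abs_nonneg (af (ε n) (μ n) p)
      nlinarith [sq_nonneg (|af (ε n) (μ n) p| - 1), sq_nonneg p.2, sq_nonneg (p.2 ^ 2)]
  have irho : Integrable fun p => Wf p * rhoE e p :=
    integrable_W_of (measurable_rhoE e) (C := 4) fun p => by
      have h1 := sf_sq_le p
      have h2 := xf_sq_le p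
      have h3 := ip_sq_le e (xf p)
      rw [he1, one_mul] at h3
      have h4 := nsq_nonneg (xf p)
      have h5 := sq_nonneg (sf p)
      have h6 := sq_nonneg (ip e (xf p))
      have h7 : 0 ≤ p.2 ^ 2 := sq_nonneg _
      have h8 : p.2 ^ 2 * 4 ≤ 4 * (1 + p.2 ^ 2) ^ 2 := by nlinarith
      rw [abs_le]
      unfold rhoE
      constructor <;> linarith
  have ir : ∀ n, Integrable fun p => Wf p * rf e (ε n) (μ n) p := fun n =>
    integrable_W_of (measurable_rf _ _ _) (C := B) fun p => by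
      rw [abs_of_nonneg (rf_nonneg _ _ _ _)]
      exact rf_bound e (hε n) (hε1 n) (hμ n) p
  -- the remainder integral tends to zero
  have hr0 : Tendsto (fun n => ∫ p, Wf p * rf e (ε n) (μ n) p) atTop (𝓝 0) := by
    have h0 : (0:ℝ) = ∫ _p : T5 × ℝ, (0:ℝ) := by simp
    rw [h0]
    apply tendsto_integral_of_dominated_convergence (fun p => B * (Wf p * (1 + p.2 ^ 2) ^ 2))
    · intro n
      exact (ir n).aestronglyMeasurable
    · exact integrable_W4.const_mul B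
    · intro n
      refine Eventually.of_forall fun p => ?_
      have h1 := Wf_nonneg p
      have h2 := rf_nonneg e (ε n) (μ n) p
      rw [Real.norm_of_nonneg (by positivity)]
      calc Wf p * rf e (ε n) (μ n) p ≤ Wf p * (B * (1 + p.2 ^ 2) ^ 2) := by
            gcongr
            exact rf_bound e (hε n) (hε1 n) (hμ n) p
        _ = _ := by ring
    · have hae : ∀ᵐ p : T5 × ℝ, p.2 ≠ 0 :=
        (Measure.quasiMeasurePreserving_snd (μ := (volume : Measure T5))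
          (ν := (volume : Measure ℝ))).ae (ae_real_ne 0)
      filter_upwards [hae] with p hp
      have := (rf_tendsto hε hμ hε0 he he1 hp).const_mul (Wf p)
      simpa using this
  have hev : ∀ᶠ n in atTop, ∫ p, Wf p * rf e (ε n) (μ n) p < 1 / 8 * (C2 * II 4) :=
    hr0.eventually (gt_mem_nhds (by positivity))
  filter_upwards [hev] with n hn
  have hen := hε n
  set F : T5 × ℝ → ℝ := fun p => Wf p * (1 - 2 * ε n * af (ε n) (μ n) p +
    ε n ^ 2 * (rhoE e p + rf e (ε n) (μ n) p)) with hF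
  have hFe : ∀ p, F p = Wf p - 2 * ε n * (Wf p * af (ε n) (μ n) p) +
      (ε n ^ 2 * (Wf p * rhoE e p) + ε n ^ 2 * (Wf p * rf e (ε n) (μ n) p)) := by
    intro p
    simp only [hF]
    ring
  have i1 : Integrable fun p => Wf p - 2 * ε n * (Wf p * af (ε n) (μ n) p) :=
    iW.sub ((ia n).const_mul _)
  have i2 : Integrable fun p => ε n ^ 2 * (Wf p * rhoE e p) +
      ε n ^ 2 * (Wf p * rf e (ε n) (μ n) p) := (irho.const_mul _).add ((ir n).const_mul _)
  have iF : Integrable F := by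
    have := i1.add i2
    refine this.congr (Eventually.of_forall fun p => ?_)
    simp only [Pi.add_apply]
    rw [hFe]
  have hFint : ∫ p, F p = II 4 * Cs + ε n ^ 2 * (-(3 / 8 * (C2 * II 4)) +
      ∫ p, Wf p * rf e (ε n) (μ n) p) := by
    simp_rw [hFe]
    rw [integral_add i1 i2, integral_sub iW ((ia n).const_mul _),
      integral_add (irho.const_mul _) ((ir n).const_mul _), integral_const_mul,
      integral_const_mul, integral_const_mul, integral_W, integral_W_a, integral_W_rho he1]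
    ring
  have hF0 : ∀ p, 0 ≤ F p := by
    intro p
    have h1 := Wf_nonneg p
    have h2 := bf_nonneg (ε n) (μ n) p
    have h3 := bf_le_rf e hen (μ n) p
    simp only [hF]
    exact mul_nonneg h1 (h2.trans h3)
  have hI23 : 0 < II 4 ^ (-(2 / 3 : ℝ)) := by positivity
  have hmain : Psi (kapS (4 / 3)) (μ n) ≤
      ENNReal.ofReal (II 4 ^ (-(2 / 3 : ℝ)) * ∫ p, F p) := by
    refine (Psi_bound (z := 4 / 3) (by norm_num) hen (hμ n)).trans ?_
    rw [← integral_const_mul, ofReal_integral_eq_lintegral_ofReal (iF.const_mul _)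
      (Eventually.of_forall fun p => mul_nonneg hI23.le (hF0 p))]
    have hFm : Measurable F := by
      simp only [hF]
      exact measurable_Wf.mul ((((measurable_af _ _).const_mul _).const_sub 1).add
        (((measurable_rhoE e).add (measurable_rf _ _ _)).const_mul _))
    have hFm2 : Measurable fun p => ENNReal.ofReal (II 4 ^ (-(2 / 3 : ℝ)) * F p) :=
      (hFm.const_mul _).ennreal_ofReal
    rw [Measure.volume_eq_prod T5 ℝ, lintegral_prod _ hFm2.aemeasurable]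
    apply lintegral_mono
    intro t
    apply lintegral_mono_ae
    filter_upwards [ae_real_ne 0] with σ hσ
    have hL := Lam_pos t
    have h1 := DD_bf hen (hμ n) (p := (t, σ)) hσ
    have h2 := bf_le_rf e hen (μ n) (t, σ)
    have e5 : -(2 * (4 / 3 : ℝ) + 4 / 3) = -(4:ℝ) := by norm_num
    rw [e5]
    have hg := gs_nonneg σ
    calc ENNReal.ofReal (gs σ * Lam t ^ (-(4:ℝ))) *
        DD (4 / 3) (ε n) (μ n) (sf (t, σ)) (xf (t, σ)) ^ (-(2 / 3 : ℝ)) ≤
        ENNReal.ofReal (gs σ * Lam t ^ (-(4:ℝ))) *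
          ENNReal.ofReal (II 4 ^ (-(2 / 3 : ℝ)) * bf (ε n) (μ n) (t, σ)) := by gcongr
      _ = ENNReal.ofReal (II 4 ^ (-(2 / 3 : ℝ)) * (Wf (t, σ) * bf (ε n) (μ n) (t, σ))) := by
        rw [← ENNReal.ofReal_mul (by positivity)]
        congr 1
        simp only [Wf]
        ring
      _ ≤ _ := by
        apply ENNReal.ofReal_le_ofReal
        have h3 := Wf_nonneg (t, σ)
        simp only [hF]
        gcongr
  refine hmain.trans (ENNReal.ofReal_le_ofReal ?_)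
  rw [hFint]
  have hI1 : II 4 ^ (-(2 / 3 : ℝ)) * II 4 = II 4 ^ (1 / 3 : ℝ) := by
    nth_rewrite 2 [← Real.rpow_one (II 4)]
    rw [← Real.rpow_add hI]; norm_num
  have h6 : -(3 / 8 * (C2 * II 4)) + ∫ p, Wf p * rf e (ε n) (μ n) p ≤ -(1 / 4 * (C2 * II 4)) := by
    linarith
  calc II 4 ^ (-(2 / 3 : ℝ)) * (II 4 * Cs + ε n ^ 2 * (-(3 / 8 * (C2 * II 4)) +
      ∫ p, Wf p * rf e (ε n) (μ n) p)) ≤
      II 4 ^ (-(2 / 3 : ℝ)) * (II 4 * Cs + ε n ^ 2 * (-(1 / 4 * (C2 * II 4)))) := by gcongr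
    _ = (II 4 ^ (-(2 / 3 : ℝ)) * II 4) * Cs -
        (1 / 4 * (C2 * (II 4 ^ (-(2 / 3 : ℝ)) * II 4))) * ε n ^ 2 := by ring
    _ = _ := by rw [hI1, PsiI]

end Pool.Agent.Helper77.Pred
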