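import Pool.Agent.Helper77.Pred.Moments

namespace Pool.Agent.Helper77.Pred

open MeasureTheory Real Set Filter Topology

@[irreducible] noncomputable def gs (σ : ℝ) : ℝ := |σ| ^ (5 / 3 : ℝ) * exp (-(σ ^ 2 / 2))

theorem gs_nonneg (σ : ℝ) : 0 ≤ gs σ := by unfold gs; positivity

theorem measurable_gs : Measurable gs := by
  unfold gs
  fun_prop

/-- The normalised kernel. -/
@[irreducible] noncomputable def KKf (z ε : ℝ) (w : V4) (Q : ℝ) : ℝ :=
  kk z (4 / 3 * nsq w) Q * Q ^ z * (4 / (3 * ε ^ 2))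

theorem KKf_nonneg {z ε Q : ℝ} (hz : 0 < z) (hQ : 0 ≤ Q) (w : V4) : 0 ≤ KKf z ε w Q := by
  unfold KKf
  have := kk_nonneg (z := z) (G := 4 / 3 * nsq w) (Q := Q) hz
  positivity

theorem kk_of_KKf {z ε Q : ℝ} (hε : 0 < ε) (hQ : 0 < Q) (w : V4) :
    kk z (4 / 3 * nsq w) Q = Q ^ (-z) * (3 * ε ^ 2 / 4) * KKf z ε w Q := by
  unfold KKf
  rw [Real.rpow_neg hQ.le]
  have : 0 < Q ^ z := by positivity
  field_simp

theorem KKf_lower {z ε Q : ℝ} (hz : 1 ≤ z) (hε : 0 < ε) (hQ : 0 < Q) (w : V4) :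
    1 / (ε ^ 2 * (nsq w + 3 / 4 * Q)) ≤ KKf z ε w Q := by
  have hn := nsq_nonneg w
  have h := kk_lower hz (show 0 ≤ 4 / 3 * nsq w by positivity) hQ
  unfold KKf
  calc 1 / (ε ^ 2 * (nsq w + 3 / 4 * Q)) =
      Q ^ (-z) * (1 / (Q + 4 / 3 * nsq w)) * Q ^ z * (4 / (3 * ε ^ 2)) := by
        rw [Real.rpow_neg hQ.le]
        have : 0 < Q ^ z := by positivity
        have h2 : 0 < Q + 4 / 3 * nsq w := by positivity
        have h3 : 0 < nsq w + 3 / 4 * Q := by positivity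
        field_simp
        ring
    _ ≤ _ := by gcongr

theorem measurable_KKf (z ε : ℝ) : Measurable fun p : V4 × ℝ => KKf z ε p.1 p.2 := by
  unfold KKf
  have h : Measurable fun a : V4 × ℝ => (4 / 3 * nsq a.1, a.2) :=
    ((measurable_nsq.comp measurable_fst).const_mul _).prodMk measurable_snd
  have h2 : Measurable fun a : V4 × ℝ => kk z (4 / 3 * nsq a.1) a.2 := (measurable_kk z).comp h
  exact (h2.mul (measurable_snd.pow_const _)).mul_const _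

/-- The point at which the kernel is evaluated. -/
noncomputable def wp (μ : V4) (s : ℝ) (x : V4) (t : T5) : V4 := μ + (1 / 2 : ℝ) • (s • t.2 - x)

@[irreducible] noncomputable def DD (z ε : ℝ) (μ : V4) (s : ℝ) (x : V4) : ENNReal :=
  ∫⁻ t : T5, ENNReal.ofReal (Lam t ^ (-(3 * z)) * KKf z ε (wp μ s x t) (s ^ 2 * Lam t) ^ 3)

theorem Dk_eq_DD {z ε s : ℝ} (hz : 1 ≤ z) (hε : 0 < ε) (hs : s ≠ 0) (μ : V4) (t : T5) :
    Dk (kapS z) (μ - (s / 2) • t.2) s =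
      ENNReal.ofReal (((s ^ 2) ^ (-z) * (3 * ε ^ 2 / 4)) ^ 3) * DD z ε μ s (s • t.2) := by
  have hs2 : 0 < s ^ 2 := by positivity
  rw [Dk, DD, ← lintegral_const_mul' _ _ ENNReal.ofReal_ne_top]
  apply lintegral_congr
  intro t'
  have hL := Lam_pos t'
  have hQ : 0 < s ^ 2 * Lam t' := by positivity
  have e1 : μ - (s / 2) • t.2 + (s / 2) • t'.2 = wp μ s (s • t.2) t' := by
    unfold wp
    ext i
    simp only [Pi.add_apply, Pi.sub_apply, Pi.smul_apply, smul_eq_mul]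
    ring
  rw [e1, kapS, ← ENNReal.ofReal_pow (kk_nonneg (by linarith)), kk_of_KKf hε hQ,
    ← ENNReal.ofReal_mul (by positivity)]
  congr 1
  rw [Real.mul_rpow hs2.le hL.le]
  have e2 : Lam t' ^ (-(3 * z)) = (Lam t' ^ (-z)) ^ 3 := by
    rw [← Real.rpow_natCast (Lam t' ^ (-z)) 3, ← Real.rpow_mul hL.le]
    congr 1
    push_cast
    ring
  rw [e2]
  ring

/-- Upper bound for `Psi` of the shrinkage kernel. -/
theorem Psi_bound {z ε : ℝ} (hz : 1 ≤ z) (hε : 0 < ε) {μ : V4} (hμ : ε ^ 2 * nsq μ = 1) :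
    Psi (kapS z) μ ≤ ∫⁻ t : T5, ∫⁻ σ : ℝ, ENNReal.ofReal (gs σ * Lam t ^ (-(2 * z + 4 / 3))) *
      DD z ε μ (σ / √(Lam t)) ((σ / √(Lam t)) • t.2) ^ (-(2 / 3 : ℝ)) := by
  rw [Psi]
  apply lintegral_mono
  intro t
  apply lintegral_mono_ae
  have : (volume : Measure ℝ) {0} = 0 := measure_singleton 0
  filter_upwards [measure_eq_zero_iff_ae_notMem.1 this] with σ hσ0
  have hσ : σ ≠ 0 := by simpa using hσ0
  have hL := Lam_pos t
  have hsq : 0 < √(Lam t) := Real.sqrt_pos.2 hL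
  have hs : σ / √(Lam t) ≠ 0 := div_ne_zero hσ hsq.ne'
  set s := σ / √(Lam t) with hsdef
  have hs2 : 0 < s ^ 2 := by positivity
  have hσ2 : 0 < σ ^ 2 := by positivity
  have hs2e : s ^ 2 = σ ^ 2 / Lam t := by
    rw [hsdef, div_pow, Real.sq_sqrt hL.le]
  rw [Dk_eq_DD hz hε hs, ofReal_mul_rpow (by positivity), ← mul_assoc, ← mul_assoc]
  gcongr ?_ * _
  have hG : 0 < 4 / 3 * nsq μ := by
    have : 0 < nsq μ := by
      by_contra h
      have h2 := nsq_nonneg μ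
      have h3 : nsq μ = 0 := by linarith
      rw [h3, mul_zero] at hμ
      exact zero_ne_one hμ
    positivity
  have h1 : kapS z μ (σ ^ 2) ≤ ENNReal.ofReal ((σ ^ 2) ^ (-z) * (3 * ε ^ 2 / 4)) := by
    unfold kapS
    apply ENNReal.ofReal_le_ofReal
    refine (kk_upper2 hG hσ2).trans (le_of_eq ?_)
    have : nsq μ = 1 / ε ^ 2 := by
      rw [eq_div_iff (by positivity), mul_comm]; exact hμ
    rw [this]
    field_simp
  calc ENNReal.ofReal (|σ| ^ (5 / 3 : ℝ) * exp (-(σ ^ 2 / 2)) * Lam t ^ (-(4 / 3 : ℝ))) *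
        kapS z μ (σ ^ 2) ^ 2 *
        ENNReal.ofReal ((((s ^ 2) ^ (-z) * (3 * ε ^ 2 / 4)) ^ 3) ^ (-(2 / 3 : ℝ))) ≤
      ENNReal.ofReal (|σ| ^ (5 / 3 : ℝ) * exp (-(σ ^ 2 / 2)) * Lam t ^ (-(4 / 3 : ℝ))) *
        ENNReal.ofReal ((σ ^ 2) ^ (-z) * (3 * ε ^ 2 / 4)) ^ 2 *
        ENNReal.ofReal ((((s ^ 2) ^ (-z) * (3 * ε ^ 2 / 4)) ^ 3) ^ (-(2 / 3 : ℝ))) := by
        gcongr
    _ = ENNReal.ofReal (gs σ * Lam t ^ (-(2 * z + 4 / 3))) := by
        rw [← ENNReal.ofReal_pow (by positivity), ← ENNReal.ofReal_mul (by positivity),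
          ← ENNReal.ofReal_mul (by positivity)]
        congr 1
        have e1 : ∀ B : ℝ, 0 < B → (B ^ 3) ^ (-(2 / 3 : ℝ)) = (B ^ 2)⁻¹ := by
          intro B hB
          rw [← Real.rpow_natCast B 3, ← Real.rpow_mul hB.le, ← Real.rpow_natCast B 2,
            ← Real.rpow_neg hB.le]
          norm_num
        rw [e1 _ (by positivity), hs2e, Real.div_rpow hσ2.le hL.le]
        have e2 : Lam t ^ (-(2 * z + 4 / 3)) = Lam t ^ (-(4 / 3 : ℝ)) * (Lam t ^ (-z)) ^ 2 := by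
          rw [← Real.rpow_natCast (Lam t ^ (-z)) 2, ← Real.rpow_mul hL.le, ← Real.rpow_add hL]
          congr 1
          push_cast
          ring
        rw [e2, gs]
        have h3 : 0 < Lam t ^ (-z) := by positivity
        have h4 : 0 < (σ ^ 2) ^ (-z) := by positivity
        field_simp

/-- Lower bound for lower integrals. -/
theorem ofReal_integral_le {α : Type*} [MeasurableSpace α] {μ : Measure α} {f g : α → ℝ}
    (hg : Integrable g μ) (h : ∀ᵐ t ∂μ, g t ≤ f t) :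
    ENNReal.ofReal (∫ t, g t ∂μ) ≤ ∫⁻ t, ENNReal.ofReal (f t) ∂μ := by
  have h1 : Integrable (fun t => max (g t) 0) μ := hg.pos_part
  calc ENNReal.ofReal (∫ t, g t ∂μ) ≤ ENNReal.ofReal (∫ t, max (g t) 0 ∂μ) := by
        apply ENNReal.ofReal_le_ofReal
        exact integral_mono hg h1 fun t => le_max_left _ _
    _ = ∫⁻ t, ENNReal.ofReal (max (g t) 0) ∂μ :=
        ofReal_integral_eq_lintegral_ofReal h1 (Eventually.of_forall fun t => le_max_right _ _)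
    _ ≤ ∫⁻ t, ENNReal.ofReal (f t) ∂μ := by
        apply lintegral_mono_ae
        filter_upwards [h] with t ht
        calc ENNReal.ofReal (max (g t) 0) = ENNReal.ofReal (g t) := by
              rcases le_total (g t) 0 with h0 | h0
              · rw [max_eq_right h0, ENNReal.ofReal_zero, ENNReal.ofReal_of_nonpos h0]
              · rw [max_eq_left h0]
          _ ≤ _ := ENNReal.ofReal_le_ofReal ht

theorem nsq_wp (μ : V4) (s : ℝ) (x : V4) (t : T5) :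
    nsq (wp μ s x t) = nsq (μ - (1 / 2 : ℝ) • x) + s * ip (μ - (1 / 2 : ℝ) • x) t.2 +
      s ^ 2 / 4 * nsq t.2 := by
  have : wp μ s x t = (μ - (1 / 2 : ℝ) • x) + (s / 2) • t.2 := by
    unfold wp
    ext i
    simp only [Pi.add_apply, Pi.sub_apply, Pi.smul_apply, smul_eq_mul]
    ring
  rw [this, nsq_add, nsq_smul, ip_smul_right]
  ring

/-- The constant in the tangent bound. -/
@[irreducible] noncomputable def tau (c : ℝ) : ℝ :=
  II (c - 1) / II c * (1 / (2 * (c - 1)) + 3 / 4)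

theorem tau_pos {c : ℝ} (hc : 4 ≤ c) : 0 < tau c := by
  unfold tau
  have h1 := II_pos (p := c) (by linarith)
  have h2 := II_pos (p := c - 1) (by linarith)
  have h3 : 0 < c - 1 := by linarith
  positivity

theorem integrable_Tc {c : ℝ} (hc : 4 ≤ c) (ε : ℝ) (μ : V4) (s : ℝ) (x : V4) :
    (Integrable fun t : T5 =>
      Lam t ^ (-c) * (ε ^ 2 * (nsq (wp μ s x t) + 3 / 4 * (s ^ 2 * Lam t)))) ∧
    ∫ t : T5, Lam t ^ (-c) * (ε ^ 2 * (nsq (wp μ s x t) + 3 / 4 * (s ^ 2 * Lam t))) =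
      II c * (ε ^ 2 * (nsq (μ - (1 / 2 : ℝ) • x) + tau c * s ^ 2)) := by
  have e : ∀ t : T5, Lam t ^ (-c) * (ε ^ 2 * (nsq (wp μ s x t) + 3 / 4 * (s ^ 2 * Lam t))) =
      ε ^ 2 * nsq (μ - (1 / 2 : ℝ) • x) * Lam t ^ (-c) +
      ε ^ 2 * s * (ip (μ - (1 / 2 : ℝ) • x) t.2 * Lam t ^ (-c)) +
      ε ^ 2 * s ^ 2 / 4 * (nsq t.2 * Lam t ^ (-c)) +
      ε ^ 2 * 3 / 4 * s ^ 2 * Lam t ^ (-(c - 1)) := by
    intro t
    have hL := Lam_pos t
    have h5 : Lam t ^ (-(c - 1)) = Lam t * Lam t ^ (-c) := by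
      nth_rewrite 2 [← Real.rpow_one (Lam t)]
      rw [← Real.rpow_add hL]; congr 1; ring
    rw [h5, nsq_wp]
    ring
  have i1 := (integrable_Lam (p := c) (by linarith)).const_mul
    (ε ^ 2 * nsq (μ - (1 / 2 : ℝ) • x))
  have i2 := (integrable_ip (c := c) (by linarith) (μ - (1 / 2 : ℝ) • x)).const_mul (ε ^ 2 * s)
  have i3 := (integrable_nsq (c := c) (by linarith)).const_mul (ε ^ 2 * s ^ 2 / 4)
  have i4 := (integrable_Lam (p := c - 1) (by linarith)).const_mul (ε ^ 2 * 3 / 4 * s ^ 2)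
  have i12 : Integrable fun t : T5 => ε ^ 2 * nsq (μ - (1 / 2 : ℝ) • x) * Lam t ^ (-c) +
      ε ^ 2 * s * (ip (μ - (1 / 2 : ℝ) • x) t.2 * Lam t ^ (-c)) := i1.add i2
  have i123 : Integrable fun t : T5 => ε ^ 2 * nsq (μ - (1 / 2 : ℝ) • x) * Lam t ^ (-c) +
      ε ^ 2 * s * (ip (μ - (1 / 2 : ℝ) • x) t.2 * Lam t ^ (-c)) +
      ε ^ 2 * s ^ 2 / 4 * (nsq t.2 * Lam t ^ (-c)) := i12.add i3
  simp_rw [e]
  refine ⟨i123.add i4, ?_⟩
  rw [integral_add i123 i4, integral_add i12 i3, integral_add i1 i2,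
    integral_const_mul, integral_const_mul, integral_const_mul, integral_const_mul, integral_ip,
    moment_nsq hc]
  have h1 := II_pos (p := c) (by linarith)
  have h2 : ∫ t : T5, Lam t ^ (-c) = II c := by rw [II]
  have h3 : ∫ t : T5, Lam t ^ (-(c - 1)) = II (c - 1) := by rw [II]
  have h4 : 0 < c - 1 := by linarith
  rw [h2, h3, tau]
  field_simp
  ring

/-- First lower bound for `DD`. -/
theorem DD_lower {z ε : ℝ} (hz : 4 / 3 ≤ z) (hε : 0 < ε) (μ : V4) {s : ℝ} (hs : s ≠ 0) (x : V4) :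
    ENNReal.ofReal (II (3 * z) *
      (1 / (ε ^ 2 * (nsq (μ - (1 / 2 : ℝ) • x) + tau (3 * z) * s ^ 2))) ^ 3) ≤ DD z ε μ s x := by
  have hc : 4 ≤ 3 * z := by linarith
  have ht := tau_pos hc
  have hs2 : 0 < s ^ 2 := by positivity
  have hn := nsq_nonneg (μ - (1 / 2 : ℝ) • x)
  set T0 := ε ^ 2 * (nsq (μ - (1 / 2 : ℝ) • x) + tau (3 * z) * s ^ 2) with hT0
  have hT0pos : 0 < T0 := by positivity
  obtain ⟨hi, hv⟩ := integrable_Tc hc ε μ s x
  have hi0 := integrable_Lam (p := 3 * z) (by linarith)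
  have hv0 : ∫ t : T5, Lam t ^ (-(3 * z)) = II (3 * z) := by rw [II]
  rw [DD]
  set T : T5 → ℝ := fun t => ε ^ 2 * (nsq (wp μ s x t) + 3 / 4 * (s ^ 2 * Lam t)) with hT
  have hgi : Integrable fun t : T5 => 4 * (1 / T0) ^ 3 * Lam t ^ (-(3 * z)) -
      3 * (1 / T0) ^ 4 * (Lam t ^ (-(3 * z)) * T t) :=
    (hi0.const_mul _).sub (hi.const_mul _)
  have hgv : ∫ t : T5, (4 * (1 / T0) ^ 3 * Lam t ^ (-(3 * z)) -
      3 * (1 / T0) ^ 4 * (Lam t ^ (-(3 * z)) * T t)) = II (3 * z) * (1 / T0) ^ 3 := by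
    rw [integral_sub (hi0.const_mul _) (hi.const_mul _), integral_const_mul, integral_const_mul,
      hv0, hv]
    field_simp
    ring
  rw [← hgv]
  apply ofReal_integral_le hgi
  refine Eventually.of_forall fun t => ?_
  have hL := Lam_pos t
  have hQ : 0 < s ^ 2 * Lam t := by positivity
  have hTpos : 0 < T t := by
    have := nsq_nonneg (wp μ s x t)
    simp only [hT]
    positivity
  have h1 := KKf_lower (z := z) (by linarith) hε hQ (wp μ s x t)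
  have h2 : (1 / T t) ^ 3 ≤ KKf z ε (wp μ s x t) (s ^ 2 * Lam t) ^ 3 :=
    pow_le_pow_left₀ (by positivity) h1 3
  have h3 : 4 * (1 / T0) ^ 3 - 3 * (1 / T0) ^ 4 * T t ≤ (1 / T t) ^ 3 := by
    have h4 : (1 / T t) ^ 3 - (4 * (1 / T0) ^ 3 - 3 * (1 / T0) ^ 4 * T t) =
        (T0 - T t) ^ 2 * (3 * T t ^ 2 + 2 * T t * T0 + T0 ^ 2) / (T0 ^ 4 * T t ^ 3) := by
      field_simp
      ring
    have h5 : 0 ≤ (T0 - T t) ^ 2 * (3 * T t ^ 2 + 2 * T t * T0 + T0 ^ 2) / (T0 ^ 4 * T t ^ 3) := by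
      positivity
    linarith
  calc 4 * (1 / T0) ^ 3 * Lam t ^ (-(3 * z)) - 3 * (1 / T0) ^ 4 * (Lam t ^ (-(3 * z)) * T t) =
      Lam t ^ (-(3 * z)) * (4 * (1 / T0) ^ 3 - 3 * (1 / T0) ^ 4 * T t) := by ring
    _ ≤ Lam t ^ (-(3 * z)) * KKf z ε (wp μ s x t) (s ^ 2 * Lam t) ^ 3 := by
        gcongr
        exact h3.trans h2

/-- The antitone transform. -/
theorem rpow_anti {D : ENNReal} {I b : ℝ} (hI : 0 < I) (hb : 0 < b)
    (h : ENNReal.ofReal (I * (1 / b) ^ 3) ≤ D) :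
    D ^ (-(2 / 3 : ℝ)) ≤ ENNReal.ofReal (I ^ (-(2 / 3 : ℝ)) * b ^ 2) := by
  have h1 : D ^ (-(2 / 3 : ℝ)) ≤ ENNReal.ofReal (I * (1 / b) ^ 3) ^ (-(2 / 3 : ℝ)) := by
    rw [ENNReal.rpow_neg, ENNReal.rpow_neg]
    apply ENNReal.inv_le_inv.2
    exact ENNReal.rpow_le_rpow h (by norm_num)
  refine h1.trans (le_of_eq ?_)
  rw [ENNReal.ofReal_rpow_of_pos (by positivity)]
  congr 1
  rw [Real.mul_rpow hI.le (by positivity)]
  congr 1
  rw [← Real.rpow_natCast (1 / b) 3, ← Real.rpow_mul (by positivity), one_div,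
    ← Real.rpow_neg_one b, ← Real.rpow_mul hb.le, ← Real.rpow_natCast b 2]
  norm_num

end Pool.Agent.Helper77.Pred
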