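import Pool.Agent.Helper77.Pred.Model
import Pool.Agent.Helper77.Pred.Kernel

namespace Pool.Agent.Helper77.Pred

open MeasureTheory Real Set

theorem one_d_lint (β₀ : ℝ) :
    ∫⁻ x : ℝ, ENNReal.ofReal (exp (-(1 / 2 * (x - β₀) ^ 2))) = ENNReal.ofReal √(2 * π) := by
  have h1 := one_d 0 (1 / 2) β₀ (by norm_num)
  have h2 := one_d_integrable 0 (1 / 2) β₀ (by norm_num)
  simp only [zero_mul, neg_zero, zero_sub, mul_zero, zero_div, exp_zero, mul_one, add_zero] at h1 h2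
  rw [← ofReal_integral_eq_lintegral_ofReal h2 (Filter.Eventually.of_forall fun _ => (exp_pos _).le),
    h1]
  congr 2
  ring

theorem lint_dens (β : V4) : ∫⁻ w : T5, ENNReal.ofReal (dens β 1 w) = 1 := by
  have hpi := Real.pi_pos
  have hm : Measurable fun w : T5 => ENNReal.ofReal (dens β 1 w) :=
    (measurable_dens.comp (measurable_const.prodMk measurable_id) :
      Measurable fun w : T5 => dens (β, (1:ℝ)).1 (β, (1:ℝ)).2 w).ennreal_ofReal
  rw [Measure.volume_eq_prod, lintegral_prod _ hm.aemeasurable]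
  have h1 : ∀ x : ℝ, ∫⁻ z : V4, ENNReal.ofReal (dens β 1 (x, z)) =
      ENNReal.ofReal ((2 * π) ^ (-(5 / 2) : ℝ) * (4 * π ^ 2)) *
        ENNReal.ofReal (exp (-(1 / 2 * (x - 0) ^ 2))) := by
    intro x
    have h2 := four_d_lint 0 (1 / 2) β (by norm_num)
    have h3 : ∀ z : V4, ENNReal.ofReal (dens β 1 (x, z)) =
        ENNReal.ofReal ((2 * π) ^ (-(5 / 2) : ℝ) * exp (-(1 / 2 * (x - 0) ^ 2))) *
          ENNReal.ofReal (exp (-(0 * nsq z) - 1 / 2 * nsq (z - β))) := by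
      intro z
      rw [← ENNReal.ofReal_mul (by positivity)]
      congr 1
      unfold dens
      rw [mul_one, mul_assoc ((2 * π) ^ (-(5 / 2) : ℝ)), ← exp_add]
      congr 2
      simp only
      ring
    simp_rw [h3]
    rw [lintegral_const_mul' _ _ ENNReal.ofReal_ne_top, h2, ← ENNReal.ofReal_mul (by positivity),
      ← ENNReal.ofReal_mul (by positivity)]
    congr 1
    simp only [mul_zero, zero_mul, zero_div, neg_zero, exp_zero, mul_one, add_zero]
    field_simp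
    ring
  simp_rw [h1]
  rw [lintegral_const_mul' _ _ ENNReal.ofReal_ne_top, one_d_lint, ← ENNReal.ofReal_mul
    (by positivity), ← ENNReal.ofReal_one]
  congr 1
  rw [Real.sqrt_eq_rpow]
  have h4 : (2 * π) ^ (2:ℝ) = 4 * π ^ 2 := by
    rw [show (2:ℝ) = ((2:ℕ):ℝ) by norm_num, Real.rpow_natCast]
    push_cast
    ring
  rw [← h4, ← Real.rpow_add (by positivity), ← Real.rpow_add (by positivity)]
  norm_num

theorem Eb_eq (β : V4) (y w : T5) : ENNReal.ofReal (dens β 1 w ^ (1 / 3 : ℝ) * dens β 1 y) =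
    Eb β (muf y w) (Qf y w) := by
  rw [dens_prod β one_pos]
  unfold Eb
  congr 1
  rw [Real.one_rpow, mul_one, nsq_sub_comm β, mul_one]
  congr 2
  ring

theorem lint_k3 {k : T5 → T5 → ℝ} {κ : V4 → ℝ → ENNReal} (hκm : Measurable (Function.uncurry κ))
    (hk0 : ∀ y w, 0 ≤ k y w)
    (hκ : ∀ y w, ENNReal.ofReal (k y w) = κ (muf y w) (Qf y w)) (y : T5) (hy : y.1 ≠ 0) :
    ∫⁻ w, ENNReal.ofReal (k y w ^ 3) = ENNReal.ofReal (16 * √3 * |y.1| ^ 5) * Dk κ y.2 y.1 := by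
  obtain ⟨s, y₁⟩ := y
  have h1 : ∀ w, ENNReal.ofReal (k (s, y₁) w ^ 3) = κ (muf (s, y₁) w) (Qf (s, y₁) w) ^ 3 := by
    intro w
    rw [← hκ, ENNReal.ofReal_pow (hk0 _ _)]
  simp_rw [h1]
  have hm : Measurable fun w : T5 => (muf (s, y₁) w, Qf (s, y₁) w) :=
    (measurable_muf.comp measurable_prodMk_left).prodMk (measurable_Qf.comp measurable_prodMk_left)
  have hA : Measurable fun w : T5 => κ (muf (s, y₁) w) (Qf (s, y₁) w) := hκm.comp hm
  rw [lint_scale hy y₁ (hA.pow_const 3)]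
  simp_rw [muf_scale, Qf_scale]
  rw [Dk]

theorem risk_formula {prior : V4 × ℝ → ℝ} {k : T5 → T5 → ℝ} {κ : V4 → ℝ → ENNReal}
    (hκm : Measurable (Function.uncurry κ))
    (hk : Measurable (Function.uncurry k)) (hk0 : ∀ y w, 0 ≤ k y w)
    (hκ : ∀ y w, ENNReal.ofReal (k y w) = κ (muf y w) (Qf y w))
    (hK0 : ∀ s, s ≠ 0 → ∀ y₁, Dk κ y₁ s ≠ 0) (hKt : ∀ s, s ≠ 0 → ∀ y₁, Dk κ y₁ s ≠ ⊤)
    (hB : ∀ᵐ y : T5, ∃ c : ℝ, 0 < c ∧ ∀ᵐ w : T5,
      (∫ ψ in paramSpace 4, dens ψ.1 ψ.2 w ^ (1 / 3 : ℝ) * (dens ψ.1 ψ.2 y * prior ψ /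
        ∫ φ in paramSpace 4, dens φ.1 φ.2 y * prior φ)) = c * k y w) (β : V4) :
    FF κ β ≤ 1 ∧
    riskAlpha (1 / 3) (stack 1 Xt54) Xt54 (bayesDensity (1 / 3) (stack 1 Xt54) Xt54 prior) β 1 =
      9 / 2 * (1 - (FF κ β).toReal) := by
  have hs0 : ∀ᵐ y : T5, y.1 ≠ 0 := by
    have h1 : ∀ᵐ s : ℝ, s ≠ 0 := by
      have : (volume : Measure ℝ) {0} = 0 := measure_singleton 0
      exact (measure_eq_zero_iff_ae_notMem.1 this).mono fun x hx => by simpa using hx
    exact (Measure.quasiMeasurePreserving_fst (μ := (volume : Measure ℝ))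
      (ν := (volume : Measure V4))).ae h1
  have hdm : ∀ β : V4, Measurable fun w : T5 => dens β 1 w := fun β =>
    (measurable_dens.comp (measurable_const.prodMk measurable_id) :
      Measurable fun w : T5 => dens (β, (1:ℝ)).1 (β, (1:ℝ)).2 w)
  -- transported objects
  set k' : (Fin 1 × Fin 5 → ℝ) → (Fin 5 → ℝ) → ℝ := fun y z => k (e1 y) (e2 z) with hk'
  have hk'm : Measurable (Function.uncurry k') := by
    have : Measurable fun x : (Fin 1 × Fin 5 → ℝ) × (Fin 5 → ℝ) => (e1 x.1, e2 x.2) :=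
      (e1.measurable.comp measurable_fst).prodMk (e2.measurable.comp measurable_snd)
    exact hk.comp this
  have hk3 : ∀ y : T5, Measurable fun w => ENNReal.ofReal (k y w ^ 3) := fun y =>
    ((hk.comp measurable_prodMk_left).pow_const 3).ennreal_ofReal
  have hlk3 : ∀ y, ∫⁻ z, ENNReal.ofReal (k' y z ^ 3) = ∫⁻ w, ENNReal.ofReal (k (e1 y) w ^ 3) := by
    intro y
    exact mp_e2.lintegral_comp (hk3 (e1 y))
  have hy0 : ∀ᵐ y : Fin 1 × Fin 5 → ℝ, (e1 y).1 ≠ 0 := mp_e1.quasiMeasurePreserving.ae hs0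
  have hK0' : ∀ᵐ y : Fin 1 × Fin 5 → ℝ, ∫⁻ z, ENNReal.ofReal (k' y z ^ 3) ≠ 0 := by
    filter_upwards [hy0] with y hy
    rw [hlk3, lint_k3 hκm hk0 hκ _ hy]
    apply mul_ne_zero _ (hK0 _ hy _)
    have : 0 < |(e1 y).1| := abs_pos.2 hy
    exact (ENNReal.ofReal_pos.2 (by positivity)).ne'
  have hKt' : ∀ᵐ y : Fin 1 × Fin 5 → ℝ, ∫⁻ z, ENNReal.ofReal (k' y z ^ 3) ≠ ⊤ := by
    filter_upwards [hy0] with y hy
    rw [hlk3, lint_k3 hκm hk0 hκ _ hy]
    exact ENNReal.mul_ne_top ENNReal.ofReal_ne_top (hKt _ hy _)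
  have hq : ∀ᵐ y : Fin 1 × Fin 5 → ℝ, ∀ᵐ z : Fin 5 → ℝ,
      bayesDensity (1 / 3) (stack 1 Xt54) Xt54 prior z y =
        k' y z ^ 3 / (∫⁻ z, ENNReal.ofReal (k' y z ^ 3)).toReal := by
    filter_upwards [mp_e1.quasiMeasurePreserving.ae hB] with y hy
    obtain ⟨c, hc, hy⟩ := hy
    have h1 : ∀ᵐ z : Fin 5 → ℝ, bayesKernel (1 / 3) (stack 1 Xt54) Xt54 prior z y =
        c ^ 3 * k' y z ^ 3 := by
      filter_upwards [mp_e2.quasiMeasurePreserving.ae hy] with z hz
      unfold bayesKernel posterior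
      simp_rw [dens_eq2, dens_eq1]
      have e1 : ((1 : ℝ) - 1 / 3) / 2 = 1 / 3 := by norm_num
      have e2 : (2 : ℝ) / (1 - 1 / 3) = ((3 : ℕ) : ℝ) := by norm_num
      rw [e1, e2, hz, Real.rpow_natCast, mul_pow]
    have h2 : ∫ z, bayesKernel (1 / 3) (stack 1 Xt54) Xt54 prior z y =
        c ^ 3 * (∫⁻ z, ENNReal.ofReal (k' y z ^ 3)).toReal := by
      rw [integral_congr_ae h1, integral_const_mul]
      congr 1
      rw [integral_eq_lintegral_of_nonneg_ae]
      · refine Filter.Eventually.of_forall fun z => ?_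
        have := hk0 (e1 y) (e2 z)
        simp only [Pi.zero_apply, hk']
        positivity
      · have : Measurable (k' y) := hk'm.comp measurable_prodMk_left
        exact (this.pow_const 3).aestronglyMeasurable
    filter_upwards [h1] with z hz
    unfold bayesDensity
    rw [hz, h2]
    have : c ^ 3 ≠ 0 := by positivity
    rw [mul_div_mul_left _ _ this]
  have hmain := risk_abs (ν := (volume : Measure (Fin 1 × Fin 5 → ℝ)))
    (lam := (volume : Measure (Fin 5 → ℝ)))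
    (p := fun z => dens β 1 (e2 z)) (pY := fun y => dens β 1 (e1 y)) (k := k')
    (q := bayesDensity (1 / 3) (stack 1 Xt54) Xt54 prior)
    ((hdm β).comp e2.measurable) (fun z => dens_pos β one_pos _)
    ((mp_e2.lintegral_comp (hdm β).ennreal_ofReal).trans (lint_dens β))
    ((hdm β).comp e1.measurable) (fun z => dens_nonneg β one_pos _)
    ((mp_e1.lintegral_comp (hdm β).ennreal_ofReal).trans (lint_dens β))
    hk'm (fun y z => hk0 _ _) hK0' hKt' hq
  -- identify the functional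
  have hF : ∫⁻ y, innerF (volume : Measure (Fin 5 → ℝ)) (fun z => dens β 1 (e2 z)) k' y *
      ENNReal.ofReal (dens β 1 (e1 y)) = FF κ β := by
    have h1 : ∀ y, innerF (volume : Measure (Fin 5 → ℝ)) (fun z => dens β 1 (e2 z)) k' y *
        ENNReal.ofReal (dens β 1 (e1 y)) =
        (fun y : T5 => (∫⁻ w : T5, κ (muf y w) (Qf y w) ^ 2 * Eb β (muf y w) (Qf y w)) *
          (∫⁻ w : T5, κ (muf y w) (Qf y w) ^ 3) ^ (-(2 / 3 : ℝ))) (e1 y) := by
      intro y
      unfold innerF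
      rw [hlk3]
      have h2 : ∫⁻ z : Fin 5 → ℝ, ENNReal.ofReal (k' y z ^ 2 * dens β 1 (e2 z) ^ (1 / 3 : ℝ)) =
          ∫⁻ w, ENNReal.ofReal (k (e1 y) w ^ 2 * dens β 1 w ^ (1 / 3 : ℝ)) := by
        have : Measurable fun w => ENNReal.ofReal (k (e1 y) w ^ 2 * dens β 1 w ^ (1 / 3 : ℝ)) :=
          (((hk.comp measurable_prodMk_left).pow_const 2).mul
            ((hdm β).pow_const _)).ennreal_ofReal
        exact mp_e2.lintegral_comp this
      rw [h2]
      have h3 : ∀ w, ENNReal.ofReal (k (e1 y) w ^ 3) = κ (muf (e1 y) w) (Qf (e1 y) w) ^ 3 := by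
        intro w
        rw [← hκ, ENNReal.ofReal_pow (hk0 _ _)]
      simp_rw [h3]
      rw [mul_assoc, mul_comm _ (ENNReal.ofReal (dens β 1 (e1 y))), ← mul_assoc]
      congr 1
      rw [← lintegral_mul_const' _ _ ENNReal.ofReal_ne_top]
      apply lintegral_congr
      intro w
      have hd := dens_nonneg β one_pos w
      have hkk := hk0 (e1 y) w
      rw [ENNReal.ofReal_mul (by positivity), mul_assoc, ← ENNReal.ofReal_mul (by positivity),
        Eb_eq, ENNReal.ofReal_pow hkk, hκ]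
    have hmq : Measurable fun z : T5 × T5 => (muf z.1 z.2, Qf z.1 z.2) :=
      measurable_muf.prodMk measurable_Qf
    have hA : Measurable fun z : T5 × T5 => κ (muf z.1 z.2) (Qf z.1 z.2) := hκm.comp hmq
    have hB : Measurable fun z : T5 × T5 => Eb β (muf z.1 z.2) (Qf z.1 z.2) :=
      (measurable_Eb β).comp hmq
    have hG : Measurable (fun y : T5 => (∫⁻ w : T5, κ (muf y w) (Qf y w) ^ 2 *
        Eb β (muf y w) (Qf y w)) * (∫⁻ w : T5, κ (muf y w) (Qf y w) ^ 3) ^ (-(2 / 3 : ℝ))) := by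
      apply Measurable.mul
      · exact Measurable.lintegral_prod_right' (f := fun z : T5 × T5 =>
          κ (muf z.1 z.2) (Qf z.1 z.2) ^ 2 * Eb β (muf z.1 z.2) (Qf z.1 z.2))
          ((hA.pow_const 2).mul hB)
      · exact (Measurable.lintegral_prod_right' (f := fun z : T5 × T5 =>
          κ (muf z.1 z.2) (Qf z.1 z.2) ^ 3) (hA.pow_const 3)).pow_const _
    rw [lintegral_congr h1, mp_e1.lintegral_comp hG, FF]
  rw [hF] at hmain
  refine ⟨hmain.1, ?_⟩
  rw [← hmain.2]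
  unfold riskAlpha divAlpha
  apply integral_congr_ae
  refine Filter.Eventually.of_forall fun y => ?_
  simp only
  rw [dens_eq1]
  congr 1
  apply integral_congr_ae
  refine Filter.Eventually.of_forall fun z => ?_
  simp only
  rw [dens_eq2]

end Pool.Agent.Helper77.Pred
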