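import Pool.Agent.Helper77.Pred.Near2

namespace Pool.Agent.Helper77.Pred

open MeasureTheory Real Set Filter Topology

theorem isCompact_unit : IsCompact {e : V4 | nsq e = 1} := by
  apply Metric.isCompact_of_isClosed_isBounded
  · exact isClosed_singleton.preimage continuous_nsq
  · rw [isBounded_iff_forall_norm_le]
    refine ⟨1, fun e he => ?_⟩
    have he' : nsq e = 1 := he
    rw [pi_norm_le_iff_of_nonneg zero_le_one]
    intro i
    rw [Real.norm_eq_abs]
    have h : e i ^ 2 ≤ nsq e :=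
      Finset.single_le_sum (f := fun i => e i ^ 2) (fun _ _ => sq_nonneg _) (Finset.mem_univ i)
    rw [he'] at h
    exact abs_le_of_sq_le_sq (by simpa using h) zero_le_one

/-- The bound far away, for the exponent `a = 1`. -/
theorem psi_near : ∃ ρ₀ : ℝ, 0 < ρ₀ ∧ ∃ c₀ : ℝ, 0 < c₀ ∧
    ∀ μ : V4, ρ₀ ≤ nsq μ → Psi (kapS (4 / 3)) μ ≤ ENNReal.ofReal (PsiI - c₀ / nsq μ) := by
  have hI := II_pos (p := 4) (by norm_num)
  have hC2 := C2_pos
  by_contra hcon
  set c₀ := 1 / 4 * (C2 * II 4 ^ (1 / 3 : ℝ)) with hc₀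
  have hc₀pos : 0 < c₀ := by positivity
  have hseq : ∀ n : ℕ, ∃ μ : V4, (n : ℝ) + 1 ≤ nsq μ ∧
      ¬ Psi (kapS (4 / 3)) μ ≤ ENNReal.ofReal (PsiI - c₀ / nsq μ) := by
    intro n
    by_contra hn
    push Not at hn
    exact hcon ⟨(n : ℝ) + 1, by positivity, c₀, hc₀pos, hn⟩
  choose μ hμ1 hμ2 using hseq
  have hpos : ∀ n, 0 < nsq (μ n) := fun n => lt_of_lt_of_le (by positivity) (hμ1 n)
  set ε : ℕ → ℝ := fun n => 1 / √(nsq (μ n)) with hε
  have hε0 : ∀ n, 0 < ε n := fun n => by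
    have := hpos n
    simp only [hε]
    positivity
  have hε1 : ∀ n, ε n ≤ 1 := fun n => by
    simp only [hε]
    rw [div_le_one (Real.sqrt_pos.2 (hpos n))]
    apply Real.one_le_sqrt.2
    have := hμ1 n
    have : (0:ℝ) ≤ n := Nat.cast_nonneg n
    linarith
  have hεμ : ∀ n, ε n ^ 2 * nsq (μ n) = 1 := fun n => by
    have := hpos n
    simp only [hε]
    rw [div_pow, Real.sq_sqrt this.le]
    field_simp
  have hn : Tendsto (fun n => nsq (μ n)) atTop atTop := by
    apply tendsto_atTop_mono hμ1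
    exact tendsto_atTop_add_const_right _ _ tendsto_natCast_atTop_atTop
  have hεlim : Tendsto ε atTop (𝓝 0) := by
    have h1 : Tendsto (fun n => √(nsq (μ n))) atTop atTop := Real.tendsto_sqrt_atTop.comp hn
    have h2 := h1.inv_tendsto_atTop
    refine h2.congr fun n => ?_
    simp [hε]
  have hmem : ∀ n, ε n • μ n ∈ {e : V4 | nsq e = 1} := fun n => by
    show nsq (ε n • μ n) = 1
    rw [nsq_smul]
    exact hεμ n
  obtain ⟨e, he1, φ, hφ, hlim⟩ := isCompact_unit.tendsto_subseq hmem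
  have hfin := near_seq (ε := ε ∘ φ) (μ := μ ∘ φ) (e := e) (fun n => hε0 _) (fun n => hε1 _)
    (fun n => hεμ _) (hεlim.comp hφ.tendsto_atTop) hlim he1
  obtain ⟨n, hn⟩ := hfin.exists
  apply hμ2 (φ n)
  have : c₀ / nsq (μ (φ n)) = c₀ * (ε ∘ φ) n ^ 2 := by
    have h1 := hεμ (φ n)
    have h2 := hpos (φ n)
    rw [div_eq_iff h2.ne', mul_assoc]
    simp only [Function.comp_apply]
    rw [h1, mul_one]
  rw [this]
  exact hn

/-- Gaussian total mass. -/
theorem gauss_mass (β : V4) :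
    (Integrable fun μ : V4 => exp (-(2 / 3 * nsq (μ - β)))) ∧
    ∫ μ : V4, exp (-(2 / 3 * nsq (μ - β))) = 9 / 4 * π ^ 2 := by
  have h1 := four_d 0 (2 / 3) β (by norm_num)
  have h2 := four_d_integrable 0 (2 / 3) β (by norm_num)
  simp only [zero_mul, neg_zero, zero_sub, mul_zero, zero_div, exp_zero, mul_one, add_zero] at h1 h2
  refine ⟨h2, ?_⟩
  rw [h1]
  ring

theorem FF_kapI (β : V4) : FF kapI β = ENNReal.ofReal (C0 * (9 / 4 * π ^ 2 * PsiI)) := by
  rw [FF_eq measurable_kapI]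
  simp_rw [Psi_kapI]
  obtain ⟨hi, hv⟩ := gauss_mass β
  rw [lintegral_mul_const' _ _ ENNReal.ofReal_ne_top, ← ofReal_integral_eq_lintegral_ofReal hi
    (Eventually.of_forall fun _ => (exp_pos _).le), hv, ← ENNReal.ofReal_mul (by positivity),
    ← ENNReal.ofReal_mul C0_pos.le]

/-- The vector `R e₀`. -/
noncomputable def vR (R : ℝ) : V4 := Pi.single 0 R

theorem nsq_vR (R : ℝ) : nsq (vR R) = R ^ 2 := by
  simp [nsq, vR, Pi.single_apply]

theorem ball_coord {R : ℝ} {μ : V4} (h : dist μ (vR R) < 1) (i : Fin 4) :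
    |μ i - vR R i| < 1 := by
  have h5 := dist_le_pi_dist μ (vR R) i
  rw [Real.dist_eq] at h5
  linarith

theorem sq_le_one_of {a : ℝ} (h : |a| < 1) : a ^ 2 ≤ 1 := by
  rw [← sq_abs]
  have := abs_nonneg a
  exact pow_le_one₀ this h.le

theorem nsq_ball1 {R : ℝ} (hR : 0 ≤ R) {μ : V4} (h : dist μ (vR R) < 1) :
    nsq μ ≤ (R + 3) ^ 2 := by
  have g0 := ball_coord h 0
  have g1 := ball_coord h 1
  have g2 := ball_coord h 2
  have g3 := ball_coord h 3
  have h0' : vR R 0 = R := by simp [vR]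
  have h1' : vR R 1 = 0 := by simp [vR]
  have h2' : vR R 2 = 0 := by simp [vR]
  have h3' : vR R 3 = 0 := by simp [vR]
  rw [h0'] at g0
  rw [h1', sub_zero] at g1
  rw [h2', sub_zero] at g2
  rw [h3', sub_zero] at g3
  have g0' := abs_lt.1 g0
  have q0 : μ 0 ^ 2 ≤ (R + 1) ^ 2 := by
    apply sq_le_sq'
    · linarith
    · linarith
  have q1 := sq_le_one_of g1
  have q2 := sq_le_one_of g2
  have q3 := sq_le_one_of g3
  have e : nsq μ = μ 0 ^ 2 + μ 1 ^ 2 + μ 2 ^ 2 + μ 3 ^ 2 := by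
    simp only [nsq, Fin.sum_univ_four]
  have e2 : (R + 3) ^ 2 = (R + 1) ^ 2 + 4 * R + 8 := by ring
  rw [e, e2]
  linarith

theorem nsq_ball2 {R : ℝ} {μ : V4} (h : dist μ (vR R) < 1) : nsq (μ - vR R) ≤ 4 := by
  unfold nsq
  calc ∑ i, (μ - vR R) i ^ 2 ≤ ∑ _i : Fin 4, (1:ℝ) := by
        apply Finset.sum_le_sum
        intro i _
        rw [Pi.sub_apply]
        exact sq_le_one_of (ball_coord h i)
    _ = 4 := by simp

theorem PsiI_pos : 0 < PsiI := by
  unfold PsiI
  have := II_pos (p := 4) (by norm_num)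
  have := Cs_pos
  positivity

/-- The final comparison. -/
theorem tail {κ : V4 → ℝ → ENNReal} (hκ : Measurable (Function.uncurry κ)) (h0 : FF κ 0 ≤ 1)
    {ρ₀ c₀ : ℝ} (hρ : 0 < ρ₀) (hc : 0 < c₀)
    (hΨ : ∀ μ : V4, ρ₀ ≤ nsq μ → Psi κ μ ≤ ENNReal.ofReal (PsiI - c₀ / nsq μ)) :
    ∃ β : V4, FF κ β < FF kapI β := by
  have hC0 := C0_pos
  have hP := PsiI_pos
  have hpi := Real.pi_pos
  -- choice of R
  set K := 16 * c₀ * exp (-(8 / 3)) * C0 with hK
  have hKpos : 0 < K := by positivity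
  set R := 1 + 4 * √ρ₀ + 288 / K + c₀ / PsiI with hR
  have hsρ : 0 < √ρ₀ := Real.sqrt_pos.2 hρ
  have hR1 : 1 ≤ R := by
    have : 0 ≤ 288 / K := by positivity
    have : 0 ≤ c₀ / PsiI := by positivity
    rw [hR]; linarith
  have hR2 : 4 * √ρ₀ ≤ R := by
    have : 0 ≤ 288 / K := by positivity
    have : 0 ≤ c₀ / PsiI := by positivity
    rw [hR]; linarith
  have hR3 : 288 / K < R := by
    have : 0 ≤ c₀ / PsiI := by positivity
    rw [hR]; linarith
  have hR4 : c₀ / PsiI ≤ R := by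
    have : 0 ≤ 288 / K := by positivity
    rw [hR]; linarith
  have hRpos : 0 < R := by linarith
  set β := vR R with hβ
  refine ⟨β, ?_⟩
  set δ := exp (-(2 / 3 * (R ^ 2 - 2 * R * √ρ₀))) with hδ
  set c₁ := c₀ / (R + 3) ^ 2 with hc₁
  have hc₁pos : 0 < c₁ := by positivity
  have hδb : δ * (R + 3) ^ 2 < K := by
    have h1 : δ ≤ exp (-(R ^ 2 / 3)) := by
      apply exp_le_exp.2
      have : 4 * √ρ₀ * R ≤ R * R := by gcongr
      nlinarith
    have h2 : R ^ 4 / 18 ≤ exp (R ^ 2 / 3) := by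
      have := Real.quadratic_le_exp_of_nonneg (show 0 ≤ R ^ 2 / 3 by positivity)
      have h3 : (R ^ 2 / 3) ^ 2 / 2 = R ^ 4 / 18 := by ring
      have h4 : 0 ≤ R ^ 2 / 3 := by positivity
      linarith
    have h3 : exp (-(R ^ 2 / 3)) ≤ 18 / R ^ 4 := by
      rw [exp_neg, inv_le_comm₀ (exp_pos _) (by positivity), inv_div]
      exact h2
    have h4 : (R + 3) ^ 2 ≤ 16 * R ^ 2 := by nlinarith
    calc δ * (R + 3) ^ 2 ≤ 18 / R ^ 4 * (16 * R ^ 2) := by
          gcongr
          exact h1.trans h3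
      _ = 288 / R ^ 2 := by field_simp; norm_num
      _ ≤ 288 / R := by
          gcongr
          nlinarith
      _ < K := by
          rw [div_lt_iff₀ hKpos] at hR3
          rw [div_lt_iff₀ hRpos]
          linarith
  have hc₁P : c₁ ≤ PsiI := by
    rw [hc₁, div_le_iff₀ (by positivity)]
    rw [div_le_iff₀ hP] at hR4
    have h5 : R ≤ (R + 3) ^ 2 := by nlinarith
    calc c₀ ≤ R * PsiI := hR4
      _ ≤ (R + 3) ^ 2 * PsiI := by gcongr
      _ = _ := mul_comm _ _
  -- the two regions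
  set E : V4 → ℝ := fun μ => exp (-(2 / 3 * nsq (μ - β))) with hE
  have hEm : Measurable E := by
    simp only [hE]
    have := measurable_nsq.comp (measurable_id.sub_const β : Measurable fun μ : V4 => μ - β)
    exact Real.measurable_exp.comp ((this.const_mul (2 / 3)).neg)
  set S : Set V4 := {μ | nsq μ < ρ₀} with hS
  have hSm : MeasurableSet S := measurableSet_lt measurable_nsq measurable_const
  rw [FF_eq hκ, FF_kapI]
  have hsplit := lintegral_add_compl (μ := (volume : Measure V4))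
    (fun μ => ENNReal.ofReal (E μ) * Psi κ μ) hSm
  have hpart1 : ∫⁻ μ in S, ENNReal.ofReal (E μ) * Psi κ μ ≤ ENNReal.ofReal (δ / C0) := by
    have h1 : ∫⁻ μ in S, ENNReal.ofReal (E μ) * Psi κ μ ≤
        ∫⁻ μ in S, ENNReal.ofReal δ * (ENNReal.ofReal (exp (-(2 / 3 * nsq (μ - 0)))) * Psi κ μ) := by
      apply lintegral_mono_ae
      filter_upwards [ae_restrict_mem hSm] with μ hμ
      rw [← mul_assoc, ← ENNReal.ofReal_mul (exp_pos _).le]
      gcongr
      simp only [hE]
      rw [← exp_add, sub_zero]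
      apply exp_le_exp.2
      have h2 : nsq (μ - β) = nsq μ - 2 * ip μ β + R ^ 2 := by
        rw [sub_eq_add_neg, nsq_add, nsq_neg, ip_neg_right, hβ, nsq_vR]
        ring
      have h3 : ip μ β ≤ R * √ρ₀ := by
        have h4 := ip_sq_le μ β
        rw [hβ, nsq_vR] at h4
        apply le_of_abs_le
        apply abs_le_of_sq_le_sq
        · rw [mul_pow, Real.sq_sqrt hρ.le]
          have h5 : nsq μ < ρ₀ := hμ
          calc ip μ β ^ 2 ≤ nsq μ * R ^ 2 := h4
            _ ≤ ρ₀ * R ^ 2 := by gcongr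
            _ = _ := mul_comm _ _
        · positivity
      rw [h2]
      linarith
    refine h1.trans ?_
    rw [lintegral_const_mul' _ _ ENNReal.ofReal_ne_top]
    have h6 : ∫⁻ μ in S, ENNReal.ofReal (exp (-(2 / 3 * nsq (μ - 0)))) * Psi κ μ ≤
        ENNReal.ofReal (1 / C0) := by
      refine (setLIntegral_le_lintegral _ _).trans ?_
      rw [FF_eq hκ] at h0
      rw [ENNReal.ofReal_div_of_pos hC0, ENNReal.ofReal_one]
      rw [ENNReal.le_div_iff_mul_le (Or.inl (ENNReal.ofReal_pos.2 hC0).ne')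
        (Or.inl ENNReal.ofReal_ne_top), mul_comm]
      exact h0
    calc ENNReal.ofReal δ * ∫⁻ μ in S, ENNReal.ofReal (exp (-(2 / 3 * nsq (μ - 0)))) * Psi κ μ ≤
        ENNReal.ofReal δ * ENNReal.ofReal (1 / C0) := by gcongr
      _ = ENNReal.ofReal (δ / C0) := by
        rw [← ENNReal.ofReal_mul (exp_pos _).le, mul_one_div]
  set B : Set V4 := Metric.ball β 1 with hB
  have hBm : MeasurableSet B := measurableSet_ball
  obtain ⟨hEi, hEv⟩ := gauss_mass β
  have hBi : Integrable (B.indicator E) := hEi.indicator hBm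
  have hpart2 : ∫⁻ μ in Sᶜ, ENNReal.ofReal (E μ) * Psi κ μ ≤
      ENNReal.ofReal (9 / 4 * π ^ 2 * PsiI - c₁ * (16 * exp (-(8 / 3)))) := by
    have h1 : ∫⁻ μ in Sᶜ, ENNReal.ofReal (E μ) * Psi κ μ ≤
        ∫⁻ μ in Sᶜ, ENNReal.ofReal (PsiI * E μ - c₁ * B.indicator E μ) := by
      apply lintegral_mono_ae
      filter_upwards [ae_restrict_mem hSm.compl] with μ hμ
      have hμ' : ρ₀ ≤ nsq μ := by
        have : ¬ nsq μ < ρ₀ := hμ
        linarith
      have hEpos : 0 < E μ := exp_pos _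
      have hnpos : 0 < nsq μ := by linarith
      calc ENNReal.ofReal (E μ) * Psi κ μ ≤
          ENNReal.ofReal (E μ) * ENNReal.ofReal (PsiI - c₀ / nsq μ) := by
            gcongr
            exact hΨ μ hμ'
        _ = ENNReal.ofReal (E μ * (PsiI - c₀ / nsq μ)) := by
            rw [ENNReal.ofReal_mul hEpos.le]
        _ ≤ _ := by
            apply ENNReal.ofReal_le_ofReal
            by_cases hb : μ ∈ B
            · rw [Set.indicator_of_mem hb]
              have h2 : nsq μ ≤ (R + 3) ^ 2 := nsq_ball1 hRpos.le hb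
              have h6 : c₁ ≤ c₀ / nsq μ := by
                rw [hc₁]
                gcongr
              calc E μ * (PsiI - c₀ / nsq μ) ≤ E μ * (PsiI - c₁) := by gcongr
                _ = _ := by ring
            · rw [Set.indicator_of_notMem hb, mul_zero, sub_zero]
              have h6 : 0 ≤ c₀ / nsq μ := by positivity
              calc E μ * (PsiI - c₀ / nsq μ) ≤ E μ * PsiI := by gcongr; linarith
                _ = _ := mul_comm _ _
    refine h1.trans ((setLIntegral_le_lintegral _ _).trans ?_)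
    have hi : Integrable fun μ => PsiI * E μ - c₁ * B.indicator E μ :=
      (hEi.const_mul _).sub (hBi.const_mul _)
    rw [← ofReal_integral_eq_lintegral_ofReal hi]
    · apply ENNReal.ofReal_le_ofReal
      rw [integral_sub (hEi.const_mul _) (hBi.const_mul _), integral_const_mul,
        integral_const_mul, integral_indicator hBm]
      have h7 : ∫ μ, E μ = 9 / 4 * π ^ 2 := hEv
      rw [h7]
      have h8 : 16 * exp (-(8 / 3)) ≤ ∫ μ in B, E μ := by
        have h9 : ∫ _μ in B, exp (-(8 / 3 : ℝ)) = 16 * exp (-(8 / 3)) := by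
          rw [setIntegral_const, Measure.real, hB, Real.volume_pi_ball _ one_pos]
          rw [ENNReal.toReal_ofReal (by positivity)]
          simp only [Fintype.card_fin, smul_eq_mul]
          norm_num
        rw [← h9]
        apply setIntegral_mono_on
        · apply integrableOn_const
          · rw [hB, Real.volume_pi_ball _ one_pos]
            exact ENNReal.ofReal_ne_top
          · exact enorm_ne_top
        · exact hEi.integrableOn
        · exact hBm
        · intro μ hb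
          apply exp_le_exp.2
          have h4 : nsq (μ - β) ≤ 4 := nsq_ball2 hb
          linarith
      have h10 : c₁ * (16 * exp (-(8 / 3))) ≤ c₁ * ∫ μ in B, E μ := by gcongr
      linarith
    · refine Eventually.of_forall fun μ => ?_
      simp only [Pi.zero_apply]
      have hEpos : 0 < E μ := exp_pos _
      by_cases hb : μ ∈ B
      · rw [Set.indicator_of_mem hb]
        nlinarith
      · rw [Set.indicator_of_notMem hb, mul_zero, sub_zero]
        positivity
  have htot : ∫⁻ μ, ENNReal.ofReal (E μ) * Psi κ μ ≤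
      ENNReal.ofReal (δ / C0) +
        ENNReal.ofReal (9 / 4 * π ^ 2 * PsiI - c₁ * (16 * exp (-(8 / 3)))) := by
    rw [← hsplit]
    exact add_le_add hpart1 hpart2
  have hcmp : δ / C0 < c₁ * (16 * exp (-(8 / 3))) := by
    rw [div_lt_iff₀ hC0, hc₁, div_mul_eq_mul_div, div_mul_eq_mul_div, lt_div_iff₀ (by positivity)]
    calc δ * (R + 3) ^ 2 < K := hδb
      _ = _ := by rw [hK]; ring
  have hge : 0 ≤ 9 / 4 * π ^ 2 * PsiI - c₁ * (16 * exp (-(8 / 3))) := by
    have h1 : exp (-(8 / 3 : ℝ)) ≤ 1 := by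
      apply exp_le_one_iff.2; norm_num
    have h2 : (9:ℝ) < π ^ 2 := by nlinarith [Real.pi_gt_three]
    have h3 : c₁ * (16 * exp (-(8 / 3))) ≤ PsiI * (16 * 1) := by gcongr
    nlinarith
  calc ENNReal.ofReal C0 * ∫⁻ μ, ENNReal.ofReal (E μ) * Psi κ μ ≤
      ENNReal.ofReal C0 * (ENNReal.ofReal (δ / C0) +
        ENNReal.ofReal (9 / 4 * π ^ 2 * PsiI - c₁ * (16 * exp (-(8 / 3))))) := by gcongr
    _ = ENNReal.ofReal (C0 * (δ / C0 + (9 / 4 * π ^ 2 * PsiI - c₁ * (16 * exp (-(8 / 3)))))) := by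
      rw [← ENNReal.ofReal_add (by positivity) hge, ← ENNReal.ofReal_mul hC0.le]
    _ < ENNReal.ofReal (C0 * (9 / 4 * π ^ 2 * PsiI)) := by
      apply (ENNReal.ofReal_lt_ofReal_iff (by positivity)).2
      gcongr
      linarith

end Pool.Agent.Helper77.Pred
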